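import Pool.Agent.T2h8.AL.Mono3
import Pool.Agent.H67.PI.Lin

/-!
# Assembly: algebras with a good identity are residually finite and have the ascending chain
condition on ideals
-/

set_option autoImplicit false
set_option linter.style.haveILetI false

namespace Pool.Agent.T2h8.AL

open Polynomial

section data

variable {F C : Type} [Field F] [Ring C] [Algebra F C]

theorem exists_data [Finite F] [Nontrivial C] {G0 : Set C} (hG0 : G0.Finite)
    (hgen : Algebra.adjoin F G0 = ⊤)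
    (B : Submodule F C) (hB : TS B) (hcod : ∀ c : C, ∃ r : F, c - algebraMap F C r ∈ B)
    (g : FreeAlgebra F (Fin 3)) (hg : eps F g 0 2 ≠ 0)
    (hlaw : ∀ x ∈ B, ∀ y ∈ B, ∀ z ∈ B, evx F x y z g = 0) :
    ∃ (J N : Submodule F C) (c : MvPolynomial (Fin 3) F) (K : ℕ), TS J ∧ TS N ∧ J ≤ B ∧ N ≤ B ∧
      Finite (C ⧸ J) ∧ (∀ c : C, ∀ j ∈ J, c * j - j * c ∈ N) ∧ (fse F c).Monic ∧ MM F B c ∧
      N ^ (K + 1) = ⊥ := by
  classical
  have hsat : ∀ a : Fin 3 → C, (∀ i, a i ∈ B) → FreeAlgebra.lift F a g = 0 := by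
    intro a ha
    have h1 : a = ![a 0, a 1, a 2] := by
      funext i
      fin_cases i <;> rfl
    rw [h1]
    exact hlaw _ (ha 0) _ (ha 1) _ (ha 2)
  have hg' : eps F g ≠ 0 := by
    intro h
    rw [h] at hg
    exact hg rfl
  have hg0 : g ≠ 0 := by
    intro h
    rw [h, map_zero] at hg'
    exact hg' rfl
  obtain ⟨m, cf, hc1, hid⟩ := Pool.Agent.H67.PI.linearise B g hg0 hsat
  have hm : 0 < m := by
    rcases Nat.eq_zero_or_pos m with h | h
    · subst h
      have h1 := hid Fin.elim0 (fun i => i.elim0)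
      have h2 : (∑ τ : Equiv.Perm (Fin 0), cf τ • (List.ofFn fun k => (Fin.elim0 (τ k) : C)).prod)
          = 1 := by
        rw [Fintype.sum_unique]
        simp only [List.ofFn_zero, List.prod_nil]
        have : (default : Equiv.Perm (Fin 0)) = 1 := rfl
        rw [this, hc1, one_smul]
      rw [h2] at h1
      exact absurd h1 one_ne_zero
    · exact h
  obtain ⟨N, J, hN, hJ, hNB, hJB, hJf, hc, hnil⟩ :=
    exists_rad hG0 hgen B hB hcod g hg' hsat cf hc1 hid
  obtain ⟨K, hK⟩ := N_nil hG0 hgen hB hcod hN hNB hJf hc hm cf hc1 hid hnil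
  obtain ⟨c, hcm, hM⟩ := exists_monic_law hB g hlaw hg
  exact ⟨J, N, c, K, hJ, hN, hJB, hNB, hJf, hc, hcm, hM, hK⟩

/-- subdirectly irreducible quotients -/
theorem exists_mono_quot (u : C) (hu : u ≠ 0) :
    ∃ (C' : Type) (_ : Ring C') (_ : Algebra F C') (π : C →ₐ[F] C'), Function.Surjective π ∧
      π u ≠ 0 ∧ ∀ I : Submodule F C', TS I → I ≠ ⊥ → π u ∈ I := by
  classical
  obtain ⟨M, -, hM⟩ := zorn_le_nonempty₀ {I : Submodule F C | TS I ∧ u ∉ I} (by
    intro c hc hchain y hy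
    have hne : c.Nonempty := ⟨y, hy⟩
    have hdir : DirectedOn (· ≤ ·) c := hchain.directedOn
    have hmem : ∀ x, x ∈ sSup c ↔ ∃ I ∈ c, x ∈ I := fun x => Submodule.mem_sSup_of_directed hne hdir
    refine ⟨sSup c, ⟨⟨?_, ?_⟩, ?_⟩, fun I hI => le_sSup hI⟩
    · intro x hx z
      obtain ⟨I, hI, hxI⟩ := (hmem x).1 hx
      exact (hmem _).2 ⟨I, hI, (hc hI).1.1 x hxI z⟩
    · intro x hx z
      obtain ⟨I, hI, hxI⟩ := (hmem x).1 hx
      exact (hmem _).2 ⟨I, hI, (hc hI).1.2 x hxI z⟩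
    · intro hx
      obtain ⟨I, hI, hxI⟩ := (hmem u).1 hx
      exact (hc hI).2 hxI) ⊥ ⟨ts_bot, by
        rw [Submodule.mem_bot]
        exact hu⟩
  have hMts : TS M := hM.prop.1
  have hMu : u ∉ M := hM.prop.2
  let I : Ideal C :=
    { carrier := M
      add_mem' := fun ha hb => M.add_mem ha hb
      zero_mem' := M.zero_mem
      smul_mem' := fun c x hx => hMts.2 x hx c }
  haveI : I.IsTwoSided := ⟨fun {a} b ha => hMts.1 a ha b⟩
  have hI : ∀ x, Ideal.Quotient.mkₐ F I x = 0 ↔ x ∈ M := fun x =>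
    Ideal.Quotient.eq_zero_iff_mem
  refine ⟨C ⧸ I, inferInstance, inferInstance, Ideal.Quotient.mkₐ F I,
    Ideal.Quotient.mkₐ_surjective F I, fun h => hMu ((hI u).1 h), ?_⟩
  intro I' hI' hne
  by_contra hcon
  apply hne
  have h1 : TS (I'.comap (Ideal.Quotient.mkₐ F I).toLinearMap) := by
    constructor
    · intro x hx y
      change Ideal.Quotient.mkₐ F I (x * y) ∈ I'
      rw [map_mul]
      exact hI'.1 _ hx _
    · intro x hx y
      change Ideal.Quotient.mkₐ F I (y * x) ∈ I'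
      rw [map_mul]
      exact hI'.2 _ hx _
  have h2 : M ≤ I'.comap (Ideal.Quotient.mkₐ F I).toLinearMap := by
    intro x hx
    change Ideal.Quotient.mkₐ F I x ∈ I'
    rw [(hI x).2 hx]
    exact zero_mem _
  have h3 : I'.comap (Ideal.Quotient.mkₐ F I).toLinearMap ≤ M :=
    hM.le_of_ge ⟨h1, hcon⟩ h2
  rw [eq_bot_iff]
  intro x hx
  obtain ⟨y, rfl⟩ := Ideal.Quotient.mkₐ_surjective F I x
  rw [Submodule.mem_bot, hI]
  exact h3 hx

end data

section nonunital

set_option linter.unusedSectionVars false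

variable {F B : Type} [Field F] [NonUnitalRing B] [Module F B] [IsScalarTower F B B]
  [SMulCommClass F B B]

/-- the image of a nonunital algebra in a unital algebra -/
structure Env (F B : Type) [Field F] [NonUnitalRing B] [Module F B] [IsScalarTower F B B]
    [SMulCommClass F B B] {C : Type} [Ring C] [Algebra F C] (ι : B →ₙₐ[F] C) : Prop where
  cod : ∀ c : C, ∃ (r : F) (b : B), c = algebraMap F C r + ι b

/-- the range -/
def rng {C : Type} [Ring C] [Algebra F C] (ι : B →ₙₐ[F] C) : Submodule F C :=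
  LinearMap.range (ι : B →ₗ[F] C)

theorem mem_rng {C : Type} [Ring C] [Algebra F C] (ι : B →ₙₐ[F] C) (c : C) :
    c ∈ rng ι ↔ ∃ b, ι b = c := Iff.rfl

theorem Env.ts {C : Type} [Ring C] [Algebra F C] {ι : B →ₙₐ[F] C} (h : Env F B ι) :
    TS (rng ι) := by
  constructor
  · rintro _ ⟨b, rfl⟩ c
    obtain ⟨r, b', rfl⟩ := h.cod c
    refine ⟨r • b + b * b', ?_⟩
    change ι (r • b + b * b') = ι b * _
    rw [map_add, map_smul, map_mul, mul_add, ← Algebra.commutes, Algebra.smul_def]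
  · rintro _ ⟨b, rfl⟩ c
    obtain ⟨r, b', rfl⟩ := h.cod c
    refine ⟨r • b + b' * b, ?_⟩
    change ι (r • b + b' * b) = _ * ι b
    rw [map_add, map_smul, map_mul, add_mul, Algebra.smul_def]

theorem Env.codim {C : Type} [Ring C] [Algebra F C] {ι : B →ₙₐ[F] C} (h : Env F B ι) (c : C) :
    ∃ r : F, c - algebraMap F C r ∈ rng ι := by
  obtain ⟨r, b, rfl⟩ := h.cod c
  exact ⟨r, b, by
    change ι b = _
    abel⟩

theorem Env.gen {C : Type} [Ring C] [Algebra F C] {ι : B →ₙₐ[F] C} (h : Env F B ι) {S : Set B}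
    (hS : NonUnitalAlgebra.adjoin F S = ⊤) : Algebra.adjoin F (ι '' S) = ⊤ := by
  rw [eq_top_iff]
  rintro c -
  obtain ⟨r, b, rfl⟩ := h.cod c
  refine add_mem ((Algebra.adjoin F (ι '' S)).algebraMap_mem r) ?_
  have hb : b ∈ NonUnitalAlgebra.adjoin F S := by rw [hS]; trivial
  induction hb using NonUnitalAlgebra.adjoin_induction with
  | mem x hx => exact Algebra.subset_adjoin ⟨x, hx, rfl⟩
  | add x y _ _ hx hy => rw [map_add]; exact add_mem hx hy
  | zero => rw [map_zero]; exact zero_mem _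
  | mul x y _ _ hx hy => rw [map_mul]; exact mul_mem hx hy
  | smul r x _ hx => rw [map_smul]; exact (Algebra.adjoin F (ι '' S)).smul_mem hx r

theorem env_inr : Env F B (Unitization.inrNonUnitalAlgHom F B) where
  cod c := ⟨c.fst, c.snd, by
    apply Unitization.ext
    · simp [Unitization.algebraMap_eq_inl]
    · simp [Unitization.algebraMap_eq_inl]⟩

theorem Env.comp {C C' : Type} [Ring C] [Algebra F C] [Ring C'] [Algebra F C']
    {ι : B →ₙₐ[F] C} (h : Env F B ι) (π : C →ₐ[F] C') (hπ : Function.Surjective π) :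
    Env F B ((π : C →ₙₐ[F] C').comp ι) where
  cod c := by
    obtain ⟨d, rfl⟩ := hπ c
    obtain ⟨r, b, rfl⟩ := h.cod d
    exact ⟨r, b, by rw [map_add, AlgHom.commutes]; rfl⟩

/-- residually finite -/
def RF (F B : Type) [Field F] [NonUnitalRing B] [Module F B] [IsScalarTower F B B]
    [SMulCommClass F B B] : Prop :=
  ∀ b : B, b ≠ 0 → ∃ (E : Type) (_ : NonUnitalRing E) (_ : Module F E) (_ : IsScalarTower F E E)
    (_ : SMulCommClass F E E) (_ : Module.Finite F E) (φ : B →ₙₐ[F] E),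
    Function.Surjective φ ∧ φ b ≠ 0

/-- finitely generated -/
def FGen (F B : Type) [Field F] [NonUnitalRing B] [Module F B] [IsScalarTower F B B]
    [SMulCommClass F B B] : Prop :=
  ∃ S : Set B, S.Finite ∧ NonUnitalAlgebra.adjoin F S = ⊤

/-- the ascending chain condition on ideals -/
def ACC (F B : Type) [Field F] [NonUnitalRing B] [Module F B] : Prop :=
  ∀ I : ℕ → Submodule F B, (∀ n, I n ≤ I (n + 1)) →
    (∀ n, ∀ x ∈ I n, ∀ y, x * y ∈ I n ∧ y * x ∈ I n) → ∃ n, ∀ m, n ≤ m → I m = I n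

theorem rf_of_law [Finite F] (hfg : FGen F B) (g : FreeAlgebra F (Fin 3))
    (hg : eps F g 0 2 ≠ 0)
    (hlaw : ∀ (C : Type) [Ring C] [Algebra F C] (ι : B →ₙₐ[F] C), ∀ x ∈ rng ι, ∀ y ∈ rng ι,
      ∀ z ∈ rng ι, evx F x y z g = 0) : RF F B := by
  classical
  intro b hb
  obtain ⟨S, hS, hSg⟩ := hfg
  have hb' : Unitization.inrNonUnitalAlgHom F B b ≠ 0 := by
    intro h
    exact hb (Unitization.inr_injective (R := F) (A := B) h)
  obtain ⟨C, _, _, π, hπ, hπb, hmono⟩ :=
    exists_mono_quot (F := F) (Unitization.inrNonUnitalAlgHom F B b) hb'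
  haveI : Nontrivial C := ⟨⟨_, _, hπb⟩⟩
  let φ : B →ₙₐ[F] C := (π : Unitization F B →ₙₐ[F] C).comp (Unitization.inrNonUnitalAlgHom F B)
  have henv : Env F B φ := env_inr.comp π hπ
  obtain ⟨J, N, c, K, hJ, hN, hJB, hNB, hJf, hc, hcm, hM, hK⟩ :=
    exists_data (hS.image φ) (henv.gen hSg) (rng φ) henv.ts henv.codim g hg (hlaw C φ)
  have hfin : Finite C := Hyp.finite (G0 := φ '' S) (B := rng φ) (J := J) (N := N)
    (h := φ b) (c := c) (K := K)
    ⟨hS.image φ, henv.gen hSg, hmono, hπb, henv.ts, hJ, hN, hJB, hNB, hJf, hc, hcm, hM, hK⟩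
  haveI : Finite (NonUnitalAlgHom.range φ) :=
    Finite.of_injective (fun x : NonUnitalAlgHom.range φ => (x : C)) Subtype.val_injective
  refine ⟨NonUnitalAlgHom.range φ, inferInstance, inferInstance, inferInstance, inferInstance,
    Module.Finite.of_finite, NonUnitalAlgHom.rangeRestrict φ, ?_, ?_⟩
  · rintro ⟨x, hx⟩
    obtain ⟨y, rfl⟩ := hx
    exact ⟨y, rfl⟩
  · intro h
    exact hπb (congrArg Subtype.val h)

theorem acc_of_law [Finite F] (hfg : FGen F B) (g : FreeAlgebra F (Fin 3))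
    (hg : eps F g 0 2 ≠ 0)
    (hlaw : ∀ (C : Type) [Ring C] [Algebra F C] (ι : B →ₙₐ[F] C), ∀ x ∈ rng ι, ∀ y ∈ rng ι,
      ∀ z ∈ rng ι, evx F x y z g = 0) : ACC F B := by
  classical
  intro I hmono hid
  obtain ⟨S, hS, hSg⟩ := hfg
  set ι := Unitization.inrNonUnitalAlgHom F B with hι
  have henv : Env F B ι := env_inr
  have hinj : Function.Injective ι := Unitization.inr_injective
  obtain ⟨J, N, c, K, hJ, hN, hJB, hNB, hJf, hc, hcm, hM, hK⟩ :=
    exists_data (hS.image ι) (henv.gen hSg) (rng ι) henv.ts henv.codim g hg (hlaw _ ι)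
  have hmono' : Monotone I := monotone_nat_of_le_succ hmono
  let I' : ℕ → Submodule F (Unitization F B) := fun n => (I n).map (ι : B →ₗ[F] Unitization F B)
  have hmemI' : ∀ n x, x ∈ I' n ↔ ∃ b ∈ I n, ι b = x := fun n x => Iff.rfl
  have hI' : ∀ n, TS (I' n) := by
    intro n
    constructor
    · rintro _ ⟨b, hb, rfl⟩ d
      obtain ⟨r, b', rfl⟩ := henv.cod d
      refine ⟨r • b + b * b', add_mem ((I n).smul_mem r hb) (hid n b hb b').1, ?_⟩
      change ι (r • b + b * b') = ι b * _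
      rw [map_add, map_smul, map_mul, mul_add, ← Algebra.commutes, Algebra.smul_def]
    · rintro _ ⟨b, hb, rfl⟩ d
      obtain ⟨r, b', rfl⟩ := henv.cod d
      refine ⟨r • b + b' * b, add_mem ((I n).smul_mem r hb) (hid n b hb b').2, ?_⟩
      change ι (r • b + b' * b) = _ * ι b
      rw [map_add, map_smul, map_mul, add_mul, Algebra.smul_def]
  have hmonoI' : Monotone I' := fun m n hmn => Submodule.map_mono (hmono' hmn)
  have hmem : ∀ x, x ∈ ⨆ n, I' n ↔ ∃ n, x ∈ I' n := fun x =>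
    Submodule.mem_iSup_of_directed _ hmonoI'.directed_le
  have hts : TS (⨆ n, I' n) := by
    constructor
    · intro x hx y
      obtain ⟨n, hn⟩ := (hmem x).1 hx
      exact (hmem _).2 ⟨n, (hI' n).1 x hn y⟩
    · intro x hx y
      obtain ⟨n, hn⟩ := (hmem x).1 hx
      exact (hmem _).2 ⟨n, (hI' n).2 x hn y⟩
  obtain ⟨T, hT, hTI, hIT⟩ := all_fg (hS.image ι) (henv.gen hSg) henv.ts hJB hN hNB hJf hc hcm
    hM hK hts
  have hbd : ∃ n, T ⊆ I' n := by
    have key : ∀ T : Set (Unitization F B), T.Finite → T ⊆ (⨆ n, I' n : Submodule F _) →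
        ∃ n, T ⊆ I' n := by
      intro T hT
      refine Set.Finite.induction_on (motive := fun T _ => T ⊆ (⨆ n, I' n : Submodule F _) →
        ∃ n, T ⊆ I' n) T hT ?_ ?_
      · intro _
        exact ⟨0, Set.empty_subset _⟩
      · intro a T _ _ ih hsub
        obtain ⟨n, hn⟩ := ih (fun x hx => hsub (Set.mem_insert_of_mem _ hx))
        obtain ⟨m, hm⟩ := (hmem a).1 (hsub (Set.mem_insert _ _))
        refine ⟨max m n, ?_⟩
        rintro x (rfl | hx)
        · exact hmonoI' (le_max_left _ _) hm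
        · exact hmonoI' (le_max_right _ _) (hn hx)
    exact key T hT hTI
  obtain ⟨n, hn⟩ := hbd
  refine ⟨n, fun m hnm => le_antisymm ?_ (hmono' hnm)⟩
  intro b hb
  have h1 : ι b ∈ ⨆ n, I' n := (hmem _).2 ⟨m, b, hb, rfl⟩
  rw [hIT] at h1
  obtain ⟨b', hb', hbb⟩ := idl_le (hI' n) hn h1
  have : b' = b := hinj hbb
  rwa [← this]

end nonunital

end Pool.Agent.T2h8.AL
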