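import Pool.Agent.T2h8.AL.Comb

/-!
# A finitely generated algebra with `x y z w = x z y w` which is not residually finite
-/

set_option autoImplicit false
set_option linter.style.haveILetI false
set_option linter.unusedSectionVars false

namespace Pool.Agent.T2h8.AL

open Polynomial

variable {F : Type} [Field F]

/-- a lacunary functional -/
noncomputable def lac (F : Type) [Field F] : F[X] →ₗ[F] F := by
  classical
  exact (Polynomial.basisMonomials F).constr F (fun k => if ∃ j, k = 2 ^ j then 1 else 0)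

open Classical in
theorem lac_X_pow (k : ℕ) : lac F (X ^ k) = if ∃ j, k = 2 ^ j then 1 else 0 := by
  have h1 : (X : F[X]) ^ k = Polynomial.basisMonomials F k := by
    rw [Polynomial.coe_basisMonomials, Polynomial.X_pow_eq_monomial]
  rw [h1, lac, Module.Basis.constr_basis]

theorem exists_lac (d : F[X]) (hd : d ≠ 0) : ∃ i, lac F (d * X ^ i) ≠ 0 := by
  classical
  set m := d.natDegree with hm
  have hj : m < 2 ^ m := Nat.lt_two_pow_self
  refine ⟨2 ^ (m + 1) - m, ?_⟩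
  have h1 : d * X ^ (2 ^ (m + 1) - m) = ∑ k ∈ Finset.range (m + 1),
      d.coeff k • X ^ (k + (2 ^ (m + 1) - m)) := by
    conv_lhs => rw [d.as_sum_range_C_mul_X_pow]
    rw [Finset.sum_mul]
    refine Finset.sum_congr rfl fun k _ => ?_
    rw [mul_assoc, ← pow_add, Polynomial.smul_eq_C_mul]
  rw [h1, map_sum, Finset.sum_eq_single m]
  · rw [map_smul, lac_X_pow, if_pos ⟨m + 1, by
      have : m ≤ 2 ^ (m + 1) := by rw [pow_succ]; omega
      omega⟩, smul_eq_mul, mul_one]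
    exact Polynomial.leadingCoeff_ne_zero.2 hd
  · intro k hk hkm
    rw [Finset.mem_range] at hk
    rw [map_smul, lac_X_pow, if_neg, smul_zero]
    rintro ⟨j, hj'⟩
    have h2 : (2 : ℕ) ^ (m + 1) = 2 ^ m + 2 ^ m := by rw [pow_succ]; ring
    have h3 : k < m := by omega
    have h4 : 2 ^ j < 2 ^ (m + 1) := by omega
    have h5 : 2 ^ m < 2 ^ j := by omega
    have h6 := (Nat.pow_lt_pow_iff_right (by norm_num : 1 < 2)).1 h4
    have h7 := (Nat.pow_lt_pow_iff_right (by norm_num : 1 < 2)).1 h5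
    omega
  · intro h
    exact absurd (Finset.mem_range.2 (by omega)) h

/-- the algebra -/
def Bf (F : Type) [Field F] : Type := F[X] × F[X] × F[X] × F

noncomputable instance : AddCommGroup (Bf F) :=
  inferInstanceAs (AddCommGroup (F[X] × F[X] × F[X] × F))

noncomputable instance : Module F (Bf F) := inferInstanceAs (Module F (F[X] × F[X] × F[X] × F))

noncomputable instance : Mul (Bf F) :=
  ⟨fun u v => (u.1 * v.2.1, u.2.1 * v.2.1, u.2.1 * v.2.2.1, lac F (u.1 * v.2.2.1))⟩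

theorem Bf.mul_def (u v : Bf F) : u * v =
  (u.1 * v.2.1, u.2.1 * v.2.1, u.2.1 * v.2.2.1, lac F (u.1 * v.2.2.1)) := rfl

theorem Bf.ext' {u v : Bf F} (h1 : u.1 = v.1) (h2 : u.2.1 = v.2.1) (h3 : u.2.2.1 = v.2.2.1)
    (h4 : u.2.2.2 = v.2.2.2) : u = v :=
  Prod.ext h1 (Prod.ext h2 (Prod.ext h3 h4))

noncomputable instance : NonUnitalRing (Bf F) :=
  { (inferInstance : AddCommGroup (Bf F)) with
    mul := (· * ·)
    left_distrib := by
      intro a b c
      refine Bf.ext' ?_ ?_ ?_ ?_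
      · exact mul_add a.1 b.2.1 c.2.1
      · exact mul_add a.2.1 b.2.1 c.2.1
      · exact mul_add a.2.1 b.2.2.1 c.2.2.1
      · change lac F (a.1 * (b.2.2.1 + c.2.2.1)) = lac F (a.1 * b.2.2.1) + lac F (a.1 * c.2.2.1)
        rw [mul_add, map_add]
    right_distrib := by
      intro a b c
      refine Bf.ext' ?_ ?_ ?_ ?_
      · exact add_mul a.1 b.1 c.2.1
      · exact add_mul a.2.1 b.2.1 c.2.1
      · exact add_mul a.2.1 b.2.1 c.2.2.1
      · change lac F ((a.1 + b.1) * c.2.2.1) = lac F (a.1 * c.2.2.1) + lac F (b.1 * c.2.2.1)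
        rw [add_mul, map_add]
    zero_mul := by
      intro a
      refine Bf.ext' ?_ ?_ ?_ ?_
      · exact zero_mul _
      · exact zero_mul _
      · exact zero_mul _
      · change lac F (0 * a.2.2.1) = 0
        rw [zero_mul, map_zero]
    mul_zero := by
      intro a
      refine Bf.ext' ?_ ?_ ?_ ?_
      · exact mul_zero _
      · exact mul_zero _
      · exact mul_zero _
      · change lac F (a.1 * 0) = 0
        rw [mul_zero, map_zero]
    mul_assoc := by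
      intro a b c
      refine Bf.ext' ?_ ?_ ?_ ?_
      · exact mul_assoc a.1 b.2.1 c.2.1
      · exact mul_assoc a.2.1 b.2.1 c.2.1
      · exact mul_assoc a.2.1 b.2.1 c.2.2.1
      · change lac F (a.1 * b.2.1 * c.2.2.1) = lac F (a.1 * (b.2.1 * c.2.2.1))
        rw [mul_assoc] }

instance : IsScalarTower F (Bf F) (Bf F) := ⟨by
  intro r a b
  refine Bf.ext' ?_ ?_ ?_ ?_
  · exact smul_mul_assoc r a.1 b.2.1
  · exact smul_mul_assoc r a.2.1 b.2.1
  · exact smul_mul_assoc r a.2.1 b.2.2.1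
  · change lac F ((r • a.1) * b.2.2.1) = r • lac F (a.1 * b.2.2.1)
    rw [smul_mul_assoc, map_smul]⟩

instance : SMulCommClass F (Bf F) (Bf F) := ⟨by
  intro r a b
  refine Bf.ext' ?_ ?_ ?_ ?_
  · exact (mul_smul_comm r a.1 b.2.1).symm
  · exact (mul_smul_comm r a.2.1 b.2.1).symm
  · exact (mul_smul_comm r a.2.1 b.2.2.1).symm
  · change r • lac F (a.1 * b.2.2.1) = lac F (a.1 * (r • b.2.2.1))
    rw [mul_smul_comm, map_smul]⟩

theorem Bf.comm (x y z w : Bf F) : x * y * z * w = x * z * y * w := by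
  refine Bf.ext' ?_ ?_ ?_ ?_
  · change x.1 * y.2.1 * z.2.1 * w.2.1 = x.1 * z.2.1 * y.2.1 * w.2.1
    ring
  · change x.2.1 * y.2.1 * z.2.1 * w.2.1 = x.2.1 * z.2.1 * y.2.1 * w.2.1
    ring
  · change x.2.1 * y.2.1 * z.2.1 * w.2.2.1 = x.2.1 * z.2.1 * y.2.1 * w.2.2.1
    ring
  · change lac F (x.1 * y.2.1 * z.2.1 * w.2.2.1) = lac F (x.1 * z.2.1 * y.2.1 * w.2.2.1)
    congr 1
    ring

/-- the elements -/
def Bf.mk (a d b : F[X]) (c : F) : Bf F := (a, d, b, c)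

theorem Bf.mk_mul (a d b : F[X]) (c : F) (a' d' b' : F[X]) (c' : F) :
    Bf.mk a d b c * Bf.mk a' d' b' c' = Bf.mk (a * d') (d * d') (d * b') (lac F (a * b')) := rfl

theorem Bf.mk_add (a d b : F[X]) (c : F) (a' d' b' : F[X]) (c' : F) :
    Bf.mk a d b c + Bf.mk a' d' b' c' = Bf.mk (a + a') (d + d') (b + b') (c + c') := rfl

theorem Bf.mk_sub (a d b : F[X]) (c : F) (a' d' b' : F[X]) (c' : F) :
    Bf.mk a d b c - Bf.mk a' d' b' c' = Bf.mk (a - a') (d - d') (b - b') (c - c') := rfl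

theorem Bf.mk_smul (r : F) (a d b : F[X]) (c : F) :
    r • Bf.mk a d b c = Bf.mk (r • a) (r • d) (r • b) (r • c) := rfl

theorem Bf.fg : FGen F (Bf F) := by
  refine ⟨{Bf.mk 1 0 0 0, Bf.mk 0 1 0 0, Bf.mk 0 X 0 0, Bf.mk 0 0 1 0},
    (((Set.finite_singleton _).insert _).insert _).insert _, ?_⟩
  rw [eq_top_iff]
  rintro u -
  set A := NonUnitalAlgebra.adjoin F
    ({Bf.mk 1 0 0 0, Bf.mk 0 1 0 0, Bf.mk 0 X 0 0, Bf.mk 0 0 1 0} : Set (Bf F))
  have hx : Bf.mk (1 : F[X]) 0 0 0 ∈ A :=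
    NonUnitalAlgebra.subset_adjoin F (Or.inl rfl)
  have he : Bf.mk (0 : F[X]) 1 0 0 ∈ A :=
    NonUnitalAlgebra.subset_adjoin F (Or.inr (Or.inl rfl))
  have hy : Bf.mk (0 : F[X]) X 0 0 ∈ A :=
    NonUnitalAlgebra.subset_adjoin F (Or.inr (Or.inr (Or.inl rfl)))
  have hz : Bf.mk (0 : F[X]) 0 1 0 ∈ A :=
    NonUnitalAlgebra.subset_adjoin F (Or.inr (Or.inr (Or.inr rfl)))
  have hd : ∀ d : F[X], Bf.mk 0 d 0 0 ∈ A := by
    intro d
    induction d using Polynomial.induction_on' with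
    | add p q hp hq =>
      have := add_mem hp hq
      rw [Bf.mk_add] at this
      simpa only [add_zero] using this
    | monomial n a =>
      have h1 : ∀ n : ℕ, Bf.mk (0 : F[X]) (X ^ n) 0 0 ∈ A := by
        intro n
        induction n with
        | zero => rw [pow_zero]; exact he
        | succ n ih =>
          have : Bf.mk (0 : F[X]) (X ^ n) 0 0 * Bf.mk 0 X 0 0 ∈ A := mul_mem ih hy
          rw [Bf.mk_mul] at this
          simpa only [mul_zero, zero_mul, map_zero, ← pow_succ] using this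
      have h2 : a • Bf.mk (0 : F[X]) (X ^ n) 0 0 ∈ A := SMulMemClass.smul_mem a (h1 n)
      rw [Bf.mk_smul, Polynomial.smul_eq_C_mul (p := X ^ n),
        Polynomial.C_mul_X_pow_eq_monomial] at h2
      simpa only [smul_zero] using h2
  have h1 : Bf.mk u.1 0 0 0 ∈ A := by
    have : Bf.mk (1 : F[X]) 0 0 0 * Bf.mk 0 u.1 0 0 ∈ A := mul_mem hx (hd u.1)
    rw [Bf.mk_mul] at this
    simpa only [mul_zero, zero_mul, map_zero, one_mul] using this
  have h3 : ∀ b : F[X], Bf.mk 0 0 b 0 ∈ A := by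
    intro b
    have : Bf.mk 0 b 0 0 * Bf.mk (0 : F[X]) 0 1 0 ∈ A := mul_mem (hd b) hz
    rw [Bf.mk_mul] at this
    simpa only [mul_zero, zero_mul, map_zero, mul_one] using this
  have h4 : Bf.mk 0 0 0 u.2.2.2 ∈ A := by
    have : u.2.2.2 • (Bf.mk (1 : F[X]) 0 0 0 * Bf.mk 0 0 X 0) ∈ A :=
      SMulMemClass.smul_mem _ (mul_mem hx (h3 X))
    have h5 : lac F (1 * X) = 1 := by
      rw [one_mul]
      have := lac_X_pow (F := F) 1
      rw [pow_one] at this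
      rw [this, if_pos ⟨0, rfl⟩]
    rw [Bf.mk_mul, Bf.mk_smul, h5] at this
    simpa only [mul_zero, zero_mul, smul_zero, smul_eq_mul, mul_one] using this
  have hu : u = Bf.mk u.1 0 0 0 + Bf.mk 0 u.2.1 0 0 + Bf.mk 0 0 u.2.2.1 0 +
      Bf.mk 0 0 0 u.2.2.2 := by
    rw [Bf.mk_add, Bf.mk_add, Bf.mk_add]
    simp only [add_zero, zero_add]
    rfl
  rw [hu]
  exact add_mem (add_mem (add_mem h1 (hd _)) (h3 _)) h4

theorem Bf.not_rf [Finite F] : ¬ RF F (Bf F) := by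
  intro hrf
  have hne : Bf.mk (0 : F[X]) 0 0 1 ≠ 0 := by
    intro h
    have : (1 : F) = 0 := congrArg (fun u : F[X] × F[X] × F[X] × F => u.2.2.2) h
    exact one_ne_zero this
  obtain ⟨E, i1, i2, i3, i4, i5, φ, -, hφ⟩ := hrf _ hne
  haveI : Finite E := Module.finite_of_finite F
  obtain ⟨d1, d2, hd12, hdd⟩ := Finite.exists_ne_map_eq_of_infinite
    (fun d : F[X] => φ (Bf.mk 0 d 0 0))
  have hd0 : φ (Bf.mk 0 (d1 - d2) 0 0) = 0 := by
    have h1 : Bf.mk 0 (d1 - d2) 0 0 = Bf.mk 0 d1 0 0 - Bf.mk 0 d2 0 0 := by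
      rw [Bf.mk_sub]
      simp only [sub_zero]
    rw [h1, map_sub]
    exact sub_eq_zero.2 hdd
  obtain ⟨i, hi⟩ := exists_lac (d1 - d2) (sub_ne_zero.2 hd12)
  have h2 : Bf.mk 1 0 0 0 * Bf.mk 0 (d1 - d2) 0 0 * Bf.mk 0 0 (X ^ i) 0 =
      lac F ((d1 - d2) * X ^ i) • Bf.mk 0 0 0 1 := by
    rw [Bf.mk_mul, Bf.mk_mul, Bf.mk_smul]
    simp only [one_mul, mul_zero, zero_mul, smul_zero, smul_eq_mul, mul_one]
  have h3 : φ (Bf.mk 1 0 0 0 * Bf.mk 0 (d1 - d2) 0 0 * Bf.mk 0 0 (X ^ i) 0) =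
      φ (lac F ((d1 - d2) * X ^ i) • Bf.mk 0 0 0 1) := by rw [h2]
  rw [map_mul φ, map_mul φ, hd0, mul_zero, zero_mul, map_smul φ] at h3
  have h4 := smul_eq_zero.1 h3.symm
  rcases h4 with h4 | h4
  · exact hi h4
  · exact hφ h4

/-- the algebra generated by `e₁₂`, `t e₂₂`, `e₂₃` -/
noncomputable def Al (F : Type) [Field F] :
    NonUnitalSubalgebra F (Matrix (Fin 3) (Fin 3) F[X]) :=
  NonUnitalAlgebra.adjoin F {!![0, 1, 0; 0, 0, 0; 0, 0, 0], !![0, 0, 0; 0, X, 0; 0, 0, 0],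
    !![0, 0, 0; 0, 0, 1; 0, 0, 0]}

theorem Al.shape {m : Matrix (Fin 3) (Fin 3) F[X]} (hm : m ∈ Al F) :
    m 0 0 = 0 ∧ m 1 0 = 0 ∧ m 2 0 = 0 ∧ m 2 1 = 0 ∧ m 2 2 = 0 := by
  induction hm using NonUnitalAlgebra.adjoin_induction with
  | mem x hx =>
    rcases hx with rfl | rfl | rfl <;> simp
  | add x y _ _ hx hy =>
    obtain ⟨a1, a2, a3, a4, a5⟩ := hx
    obtain ⟨b1, b2, b3, b4, b5⟩ := hy
    refine ⟨?_, ?_, ?_, ?_, ?_⟩ <;> rw [Matrix.add_apply] <;> simp [*]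
  | zero => exact ⟨rfl, rfl, rfl, rfl, rfl⟩
  | mul x y _ _ hx hy =>
    obtain ⟨a1, a2, a3, a4, a5⟩ := hx
    obtain ⟨b1, b2, b3, b4, b5⟩ := hy
    refine ⟨?_, ?_, ?_, ?_, ?_⟩ <;> rw [Matrix.mul_apply, Fin.sum_univ_three] <;> simp [*]
  | smul r x _ hx =>
    obtain ⟨a1, a2, a3, a4, a5⟩ := hx
    refine ⟨?_, ?_, ?_, ?_, ?_⟩ <;> rw [Matrix.smul_apply] <;> simp [*]

theorem Al.comm (x y z w : Al F) : x * y * z * w = x * z * y * w := by
  apply Subtype.ext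
  change (x : Matrix (Fin 3) (Fin 3) F[X]) * y * z * w = x * z * y * w
  obtain ⟨x, hx⟩ := x
  obtain ⟨y, hy⟩ := y
  obtain ⟨z, hz⟩ := z
  obtain ⟨w, hw⟩ := w
  obtain ⟨a1, a2, a3, a4, a5⟩ := Al.shape hx
  obtain ⟨b1, b2, b3, b4, b5⟩ := Al.shape hy
  obtain ⟨c1, c2, c3, c4, c5⟩ := Al.shape hz
  obtain ⟨d1, d2, d3, d4, d5⟩ := Al.shape hw
  refine Matrix.ext fun i j => ?_
  fin_cases i <;> fin_cases j <;>
    simp [Matrix.mul_apply, Fin.sum_univ_three, -mul_eq_mul_right_iff, -mul_eq_mul_left_iff, *] <;>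
    ring

theorem adj_top {M : Type} [NonUnitalRing M] [Module F M] [IsScalarTower F M M]
    [SMulCommClass F M M] (S : Set M) :
    NonUnitalAlgebra.adjoin F (((↑) : NonUnitalAlgebra.adjoin F S → M) ⁻¹' S) = ⊤ := by
  rw [eq_top_iff]
  rintro ⟨x, hx⟩ -
  induction hx using NonUnitalAlgebra.adjoin_induction with
  | mem x hx => exact NonUnitalAlgebra.subset_adjoin F hx
  | add x y hx hy ihx ihy => exact add_mem ihx ihy
  | zero => exact zero_mem _
  | mul x y hx hy ihx ihy => exact mul_mem ihx ihy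
  | smul r x hx ihx => exact SMulMemClass.smul_mem r ihx

theorem Al.fg : FGen F (Al F) :=
  ⟨_, Set.Finite.preimage Subtype.val_injective.injOn
    (((Set.finite_singleton _).insert _).insert _), adj_top _⟩

theorem Al.e13 (n : ℕ) : (!![0, 0, X ^ n; 0, 0, 0; 0, 0, 0] : Matrix (Fin 3) (Fin 3) F[X]) ∈
    Al F := by
  have hx : (!![0, 1, 0; 0, 0, 0; 0, 0, 0] : Matrix (Fin 3) (Fin 3) F[X]) ∈ Al F :=
    NonUnitalAlgebra.subset_adjoin F (Or.inl rfl)
  have hy : (!![0, 0, 0; 0, X, 0; 0, 0, 0] : Matrix (Fin 3) (Fin 3) F[X]) ∈ Al F :=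
    NonUnitalAlgebra.subset_adjoin F (Or.inr (Or.inl rfl))
  have hz : (!![0, 0, 0; 0, 0, 1; 0, 0, 0] : Matrix (Fin 3) (Fin 3) F[X]) ∈ Al F :=
    NonUnitalAlgebra.subset_adjoin F (Or.inr (Or.inr rfl))
  have h1 : ∀ n : ℕ, (!![0, X ^ n, 0; 0, 0, 0; 0, 0, 0] : Matrix (Fin 3) (Fin 3) F[X]) ∈ Al F := by
    intro n
    induction n with
    | zero => simpa using hx
    | succ n ih =>
      have h2 : (!![0, X ^ (n + 1), 0; 0, 0, 0; 0, 0, 0] : Matrix (Fin 3) (Fin 3) F[X]) =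
          !![0, X ^ n, 0; 0, 0, 0; 0, 0, 0] * !![0, 0, 0; 0, X, 0; 0, 0, 0] := by
        refine Matrix.ext fun i j => ?_
        fin_cases i <;> fin_cases j <;> simp [Matrix.mul_apply, Fin.sum_univ_three, pow_succ]
      rw [h2]
      exact mul_mem ih hy
  have h3 : (!![0, 0, X ^ n; 0, 0, 0; 0, 0, 0] : Matrix (Fin 3) (Fin 3) F[X]) =
      !![0, X ^ n, 0; 0, 0, 0; 0, 0, 0] * !![0, 0, 0; 0, 0, 1; 0, 0, 0] := by
    refine Matrix.ext fun i j => ?_
    fin_cases i <;> fin_cases j <;> simp [Matrix.mul_apply, Fin.sum_univ_three]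
  rw [h3]
  exact mul_mem (h1 n) hz

theorem Al.not_acc : ¬ ACC F (Al F) := by
  intro hacc
  let I : ℕ → Submodule F (Al F) := fun n =>
    { carrier := {a | ((a : Matrix (Fin 3) (Fin 3) F[X]) 0 1 = 0 ∧
        (a : Matrix (Fin 3) (Fin 3) F[X]) 1 1 = 0 ∧ (a : Matrix (Fin 3) (Fin 3) F[X]) 1 2 = 0) ∧
        (a : Matrix (Fin 3) (Fin 3) F[X]) 0 2 ∈ Polynomial.degreeLT F n}
      add_mem' := by
        rintro a b ⟨⟨a1, a2, a3⟩, a4⟩ ⟨⟨b1, b2, b3⟩, b4⟩
        refine ⟨⟨?_, ?_, ?_⟩, ?_⟩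
        · change (a : Matrix (Fin 3) (Fin 3) F[X]) 0 1 + (b : Matrix (Fin 3) (Fin 3) F[X]) 0 1 = 0
          rw [a1, b1, add_zero]
        · change (a : Matrix (Fin 3) (Fin 3) F[X]) 1 1 + (b : Matrix (Fin 3) (Fin 3) F[X]) 1 1 = 0
          rw [a2, b2, add_zero]
        · change (a : Matrix (Fin 3) (Fin 3) F[X]) 1 2 + (b : Matrix (Fin 3) (Fin 3) F[X]) 1 2 = 0
          rw [a3, b3, add_zero]
        · exact add_mem a4 b4
      zero_mem' := ⟨⟨rfl, rfl, rfl⟩, zero_mem _⟩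
      smul_mem' := by
        rintro r a ⟨⟨a1, a2, a3⟩, a4⟩
        refine ⟨⟨?_, ?_, ?_⟩, ?_⟩
        · change r • (a : Matrix (Fin 3) (Fin 3) F[X]) 0 1 = 0
          rw [a1, smul_zero]
        · change r • (a : Matrix (Fin 3) (Fin 3) F[X]) 1 1 = 0
          rw [a2, smul_zero]
        · change r • (a : Matrix (Fin 3) (Fin 3) F[X]) 1 2 = 0
          rw [a3, smul_zero]
        · exact Submodule.smul_mem _ r a4 }
  have hI : ∀ n (a : Al F), a ∈ I n ↔ ((a : Matrix (Fin 3) (Fin 3) F[X]) 0 1 = 0 ∧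
        (a : Matrix (Fin 3) (Fin 3) F[X]) 1 1 = 0 ∧ (a : Matrix (Fin 3) (Fin 3) F[X]) 1 2 = 0) ∧
        (a : Matrix (Fin 3) (Fin 3) F[X]) 0 2 ∈ Polynomial.degreeLT F n := fun n a => Iff.rfl
  obtain ⟨n, hn⟩ := hacc I (by
    intro n a ha
    rw [hI] at ha ⊢
    refine ⟨ha.1, ?_⟩
    rw [Polynomial.mem_degreeLT] at ha ⊢
    exact lt_of_lt_of_le ha.2 (by exact_mod_cast Nat.le_succ n)) (by
    intro n a ha b
    rw [hI] at ha
    obtain ⟨⟨a1, a2, a3⟩, a4⟩ := ha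
    obtain ⟨c1, c2, c3, c4, c5⟩ := Al.shape a.2
    obtain ⟨d1, d2, d3, d4, d5⟩ := Al.shape b.2
    have e1 : a * b = 0 := by
      apply Subtype.ext
      change (a : Matrix (Fin 3) (Fin 3) F[X]) * b = 0
      refine Matrix.ext fun i j => ?_
      fin_cases i <;> fin_cases j <;> simp [Matrix.mul_apply, Fin.sum_univ_three, *]
    have e2 : b * a = 0 := by
      apply Subtype.ext
      change (b : Matrix (Fin 3) (Fin 3) F[X]) * a = 0
      refine Matrix.ext fun i j => ?_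
      fin_cases i <;> fin_cases j <;> simp [Matrix.mul_apply, Fin.sum_univ_three, *]
    rw [e1, e2]
    exact ⟨zero_mem _, zero_mem _⟩)
  have h1 : (⟨_, Al.e13 n⟩ : Al F) ∈ I (n + 1) := by
    rw [hI]
    refine ⟨⟨by simp, by simp, by simp⟩, ?_⟩
    rw [Polynomial.mem_degreeLT]
    simp only [Matrix.of_apply, Matrix.cons_val', Matrix.cons_val_zero, Matrix.cons_val]
    rw [Polynomial.degree_X_pow]
    exact_mod_cast Nat.lt_succ_self n
  rw [hn (n + 1) (Nat.le_succ n), hI] at h1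
  have h2 := h1.2
  rw [Polynomial.mem_degreeLT] at h2
  simp only [Matrix.of_apply, Matrix.cons_val', Matrix.cons_val_zero, Matrix.cons_val] at h2
  rw [Polynomial.degree_X_pow] at h2
  exact lt_irrefl _ h2

end Pool.Agent.T2h8.AL
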