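import Pool.Agent.T2h8.AL.Asm

/-!
# Words modulo the commutation of inner letters
-/

set_option autoImplicit false
set_option linter.style.haveILetI false
set_option linter.unusedSectionVars false

namespace Pool.Agent.T2h8.AL

open Polynomial

section peval

variable {F B B' : Type} [Field F] [NonUnitalRing B] [Module F B] [IsScalarTower F B B]
  [SMulCommClass F B B] [NonUnitalRing B'] [Module F B'] [IsScalarTower F B' B']
  [SMulCommClass F B' B']

/-- the value of a polynomial -/
def peval (a : ℕ → B) (f : FreeSemigroup ℕ →₀ F) : B :=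
  f.sum fun w c => c • FreeSemigroup.lift a w

theorem map_word (φ : B →ₙₐ[F] B') (a : ℕ → B) (w : FreeSemigroup ℕ) :
    φ (FreeSemigroup.lift a w) = FreeSemigroup.lift (fun n => φ (a n)) w := by
  have h1 : (φ : B →ₙ* B').comp (FreeSemigroup.lift a) = FreeSemigroup.lift (fun n => φ (a n)) := by
    apply FreeSemigroup.hom_ext
    funext n
    rfl
  rw [← h1]
  rfl

theorem map_peval (φ : B →ₙₐ[F] B') (a : ℕ → B) (f : FreeSemigroup ℕ →₀ F) :
    φ (peval a f) = peval (fun n => φ (a n)) f := by
  unfold peval
  rw [Finsupp.sum, Finsupp.sum, map_sum]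
  refine Finset.sum_congr rfl fun w _ => ?_
  rw [map_smul, map_word]

/-- first letter, last letter, inner letters up to the order -/
def nf (w : FreeSemigroup ℕ) : ℕ × Option ℕ × Multiset ℕ :=
  (w.head, w.tail.getLast?, (w.tail.dropLast : Multiset ℕ))

theorem nf_concat (h j : ℕ) (l : List ℕ) : nf ⟨h, l ++ [j]⟩ = (h, some j, (l : Multiset ℕ)) := by
  unfold nf
  simp

theorem nf_nil (h : ℕ) : nf ⟨h, []⟩ = (h, none, 0) := rfl

/-- product of a word with at least one letter -/
def rp (a : ℕ → B) (j : ℕ) : List ℕ → B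
  | [] => a j
  | i :: l => a i * rp a j l

theorem foldl_rp (a : ℕ → B) (j : ℕ) (l : List ℕ) (s : B) :
    (l ++ [j]).foldl (fun x i => x * a i) s = s * rp a j l := by
  induction l generalizing s with
  | nil => rfl
  | cons i l ih =>
    rw [List.cons_append, List.foldl_cons, ih, rp, mul_assoc]

theorem rp_perm (hB : ∀ x y z w : B, x * y * z * w = x * z * y * w) (a : ℕ → B) (j : ℕ)
    {l l' : List ℕ} (h : l.Perm l') : ∀ s : B, s * rp a j l = s * rp a j l' := by
  induction h with
  | nil => exact fun s => rfl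
  | cons i _ ih =>
    intro s
    rw [rp, rp, ← mul_assoc, ← mul_assoc, ih]
  | swap x y l =>
    intro s
    have := hB s (a y) (a x) (rp a j l)
    rw [rp, rp, rp, rp]
    simpa only [mul_assoc] using this
  | trans _ _ ih1 ih2 => exact fun s => (ih1 s).trans (ih2 s)

theorem lift_concat (a : ℕ → B) (h j : ℕ) (l : List ℕ) :
    FreeSemigroup.lift a ⟨h, l ++ [j]⟩ = a h * rp a j l := by
  rw [FreeSemigroup.lift_mk_eq_foldl]
  exact foldl_rp a j l (a h)

theorem word_cases (w : FreeSemigroup ℕ) :
    (∃ h, w = ⟨h, []⟩) ∨ ∃ h j l, w = ⟨h, l ++ [j]⟩ := by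
  obtain ⟨h, t⟩ := w
  rcases List.eq_nil_or_concat t with rfl | ⟨l, j, rfl⟩
  · exact Or.inl ⟨h, rfl⟩
  · right
    refine ⟨h, j, l, ?_⟩
    rw [List.concat_eq_append]

theorem lift_eq_of_nf (hB : ∀ x y z w : B, x * y * z * w = x * z * y * w) (a : ℕ → B)
    {w w' : FreeSemigroup ℕ} (h : nf w = nf w') :
    FreeSemigroup.lift a w = FreeSemigroup.lift a w' := by
  rcases word_cases w with ⟨x, rfl⟩ | ⟨x, j, l, rfl⟩
  · rcases word_cases w' with ⟨x', rfl⟩ | ⟨x', j', l', rfl⟩
    · rw [nf_nil, nf_nil, Prod.mk.injEq] at h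
      rw [h.1]
    · rw [nf_nil, nf_concat, Prod.mk.injEq, Prod.mk.injEq] at h
      exact absurd h.2.1 (by simp)
  · rcases word_cases w' with ⟨x', rfl⟩ | ⟨x', j', l', rfl⟩
    · rw [nf_nil, nf_concat, Prod.mk.injEq, Prod.mk.injEq] at h
      exact absurd h.2.1 (by simp)
    · rw [nf_concat, nf_concat, Prod.mk.injEq, Prod.mk.injEq, Option.some.injEq,
        Multiset.coe_eq_coe] at h
      obtain ⟨rfl, rfl, h3⟩ := h
      rw [lift_concat, lift_concat]
      exact rp_perm hB a j h3 _

/-- a polynomial which vanishes when the inner letters commute is an identity of every algebra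
with `x y z w = x z y w` -/
theorem peval_zero (hB : ∀ x y z w : B, x * y * z * w = x * z * y * w)
    (f : FreeSemigroup ℕ →₀ F)
    (hf : ∀ k, ∑ w ∈ f.support with nf w = k, f w = 0) (a : ℕ → B) : peval a f = 0 := by
  classical
  unfold peval
  rw [Finsupp.sum, ← Finset.sum_fiberwise_of_maps_to (s := f.support)
    (t := f.support.image nf) (g := nf) (fun w hw => Finset.mem_image_of_mem _ hw)]
  apply Finset.sum_eq_zero
  intro k hk
  obtain ⟨w0, hw0, hk0⟩ := Finset.mem_image.1 hk
  have h1 : ∑ w ∈ f.support with nf w = k, f w • FreeSemigroup.lift a w =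
      ∑ w ∈ f.support with nf w = k, f w • FreeSemigroup.lift a w0 := by
    refine Finset.sum_congr rfl fun w hw => ?_
    rw [lift_eq_of_nf hB a ((Finset.mem_filter.1 hw).2.trans hk0.symm)]
  rw [h1, ← Finset.sum_smul, hf k, zero_smul]

end peval

section subst

variable {F : Type} [Field F]

/-- polynomials without constant term in three variables -/
def PP (F : Type) [Field F] : NonUnitalSubalgebra F (FreeAlgebra F (Fin 3)) :=
  NonUnitalAlgebra.adjoin F (Set.range (FreeAlgebra.ι F))

theorem ymat (q : F[X]) : Polynomial.aeval (eps F (FreeAlgebra.ι F 1)) (X * q) =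
    !![0, 0, 0; 0, X * q, 0; 0, 0, 0] := by
  have hY : eps F (FreeAlgebra.ι F 1) = !![0, 0, 0; 0, X, 0; 0, 0, 0] := by
    simp [eps]
  have hpow : ∀ n : ℕ, (!![0, 0, 0; 0, X, 0; 0, 0, 0] : Matrix (Fin 3) (Fin 3) F[X]) ^ (n + 1) =
      !![0, 0, 0; 0, X ^ (n + 1), 0; 0, 0, 0] := by
    intro n
    induction n with
    | zero => simp
    | succ n ih =>
      rw [pow_succ, ih]
      refine Matrix.ext fun i j => ?_
      fin_cases i <;> fin_cases j <;>
        simp [Matrix.mul_apply, Fin.sum_univ_three, pow_succ]
  rw [hY]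
  induction q using Polynomial.induction_on' with
  | add p q hp hq =>
    rw [mul_add, map_add, hp, hq]
    refine Matrix.ext fun i j => ?_
    fin_cases i <;> fin_cases j <;> simp
  | monomial n a =>
    have h1 : (X : F[X]) * Polynomial.monomial n a = Polynomial.monomial (n + 1) a := by
      rw [Polynomial.X_mul_monomial]
    rw [h1, Polynomial.aeval_monomial, hpow, ← Algebra.smul_def]
    refine Matrix.ext fun i j => ?_
    fin_cases i <;> fin_cases j <;>
      simp [← Polynomial.C_mul_X_pow_eq_monomial, Polynomial.smul_eq_C_mul]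

theorem foldl_row (m : ℕ → Matrix (Fin 3) (Fin 3) F[X]) (d : ℕ → F[X])
    (h0 : ∀ k, m k 0 0 = 0) (h1 : ∀ k, m k 1 0 = 0) (h2 : ∀ k, m k 2 0 = 0)
    (h11 : ∀ k, m k 1 1 = d k) (h21 : ∀ k, m k 2 1 = 0) (h22 : ∀ k, m k 2 2 = 0) (l : List ℕ) :
    ∀ s : Matrix (Fin 3) (Fin 3) F[X], s 0 0 = 0 →
      (l.foldl (fun x i => x * m i) s) 0 0 = 0 ∧
      (l.foldl (fun x i => x * m i) s) 0 1 = s 0 1 * (l.map d).prod := by
  induction l with
  | nil => intro s hs; exact ⟨hs, by simp⟩
  | cons i l ih =>
    intro s hs
    have e0 : (s * m i) 0 0 = 0 := by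
      rw [Matrix.mul_apply, Fin.sum_univ_three, h0, h1, h2]; ring
    have e1 : (s * m i) 0 1 = s 0 1 * d i := by
      rw [Matrix.mul_apply, Fin.sum_univ_three, hs, h11, h21]; ring
    obtain ⟨a1, a2⟩ := ih (s * m i) e0
    refine ⟨a1, ?_⟩
    rw [List.foldl_cons, a2, e1, List.map_cons, List.prod_cons, mul_assoc]

theorem word_entry (m : ℕ → Matrix (Fin 3) (Fin 3) F[X]) (d : ℕ → F[X]) (i j : ℕ)
    (h0 : ∀ k, m k 0 0 = 0) (h1 : ∀ k, m k 1 0 = 0) (h2 : ∀ k, m k 2 0 = 0)
    (h11 : ∀ k, m k 1 1 = d k) (h21 : ∀ k, m k 2 1 = 0) (h22 : ∀ k, m k 2 2 = 0)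
    (h01 : ∀ k, m k 0 1 = if k = i then 1 else 0) (h02 : ∀ k, m k 0 2 = 0)
    (h12 : ∀ k, m k 1 2 = if k = j then 1 else 0) (w : FreeSemigroup ℕ) :
    (FreeSemigroup.lift m w) 0 2 = if w.head = i ∧ w.tail.getLast? = some j then
      ((w.tail.dropLast : Multiset ℕ).map d).prod else 0 := by
  rcases word_cases w with ⟨h, rfl⟩ | ⟨h, j', l, rfl⟩
  · rw [FreeSemigroup.lift_mk_eq_foldl]
    change m h 0 2 = _
    rw [h02]
    simp
  · have e1 : FreeSemigroup.lift m ⟨h, l ++ [j']⟩ =
        (l.foldl (fun x i => x * m i) (m h)) * m j' := by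
      rw [FreeSemigroup.lift_mk_eq_foldl, List.foldl_append]
      rfl
    obtain ⟨a1, a2⟩ := foldl_row m d h0 h1 h2 h11 h21 h22 l (m h) (h0 h)
    rw [e1, Matrix.mul_apply, Fin.sum_univ_three, a1, a2, h22, h12, h01]
    simp only [List.getLast?_append, List.getLast?_singleton, Option.some_or, Option.some.injEq,
      List.dropLast_concat, Multiset.map_coe, Multiset.prod_coe]
    by_cases hh : h = i <;> by_cases hj : j' = j <;> simp [hh, hj]

theorem xmon (M : Multiset ℕ) : (M.map (MvPolynomial.X : ℕ → MvPolynomial ℕ F)).prod =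
    MvPolynomial.monomial (Multiset.toFinsupp M) 1 := by
  induction M using Multiset.induction with
  | empty => simp
  | cons a M ih =>
    rw [Multiset.map_cons, Multiset.prod_cons, ih, MvPolynomial.X, MvPolynomial.monomial_mul,
      one_mul, ← Multiset.singleton_add, map_add, Multiset.toFinsupp_singleton]

/-- the polynomial in commuting variables -/
noncomputable def fij (f : FreeSemigroup ℕ →₀ F) (i j : ℕ) : MvPolynomial ℕ F :=
  ∑ w ∈ f.support, if w.head = i ∧ w.tail.getLast? = some j then
    f w • ((w.tail.dropLast : Multiset ℕ).map (MvPolynomial.X : ℕ → MvPolynomial ℕ F)).prod else 0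

theorem fij_ne (f : FreeSemigroup ℕ →₀ F) (i j : ℕ) (M : Multiset ℕ)
    (h : ∑ w ∈ f.support with nf w = (i, some j, M), f w ≠ 0) : fij f i j ≠ 0 := by
  classical
  intro h0
  apply h
  have h1 : (fij f i j).coeff (Multiset.toFinsupp M) = 0 := by rw [h0]; simp
  rw [← h1, fij, MvPolynomial.coeff_sum, Finset.sum_filter]
  refine Finset.sum_congr rfl fun w _ => ?_
  by_cases hw : w.head = i ∧ w.tail.getLast? = some j
  · rw [if_pos hw, xmon, MvPolynomial.coeff_smul, MvPolynomial.coeff_monomial]
    by_cases hM : (w.tail.dropLast : Multiset ℕ) = M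
    · have : nf w = (i, some j, M) := by
        unfold nf
        rw [hw.1, hw.2, hM]
      rw [if_pos this, hM, if_pos rfl, smul_eq_mul, mul_one]
    · have : nf w ≠ (i, some j, M) := by
        intro h2
        unfold nf at h2
        rw [Prod.mk.injEq, Prod.mk.injEq] at h2
        exact hM h2.2.2
      rw [if_neg this, if_neg, smul_zero]
      intro h3
      exact hM (Multiset.toFinsupp.injective h3)
  · rw [if_neg hw, MvPolynomial.coeff_zero, if_neg]
    intro h2
    unfold nf at h2
    rw [Prod.mk.injEq, Prod.mk.injEq] at h2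
    exact hw ⟨h2.1, h2.2.1⟩

theorem exists_point (p : MvPolynomial ℕ F) (hp : p ≠ 0) :
    ∃ q : ℕ → F[X], MvPolynomial.aeval (fun k => X * q k) p ≠ 0 := by
  by_contra hcon
  push Not at hcon
  have hinf : ∀ _ : ℕ, (Set.range (fun q : F[X] => X * q)).Infinite := fun _ =>
    Set.infinite_range_of_injective (fun a b hab => mul_left_cancel₀ X_ne_zero hab)
  have h1 : MvPolynomial.map (algebraMap F F[X]) p = 0 := by
    apply MvPolynomial.funext_set (fun _ : ℕ => Set.range (fun q : F[X] => X * q))
      (fun k => hinf k)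
    intro x hx
    have hx' : ∀ k, ∃ q : F[X], X * q = x k := fun k => hx k trivial
    choose q hq using hx'
    have h2 := hcon q
    rw [MvPolynomial.eval_map, map_zero]
    have h3 : (fun k => X * q k) = x := funext hq
    rw [h3] at h2
    exact h2
  apply hp
  apply MvPolynomial.map_injective (algebraMap F F[X]) (FaithfulSMul.algebraMap_injective F F[X])
  rw [h1, map_zero]

theorem aeval_PP {y : FreeAlgebra F (Fin 3)} (hy : y ∈ PP F) (q : F[X]) :
    Polynomial.aeval y (X * q) ∈ PP F := by
  induction q using Polynomial.induction_on' with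
  | add p q hp hq => rw [mul_add, map_add]; exact add_mem hp hq
  | monomial n a =>
    rw [Polynomial.X_mul_monomial, Polynomial.aeval_monomial, ← Algebra.smul_def]
    apply SMulMemClass.smul_mem
    induction n with
    | zero => rw [zero_add, pow_one]; exact hy
    | succ n ih => rw [pow_succ]; exact mul_mem ih hy

theorem map_peval' {B C : Type} [Ring B] [Algebra F B] [Ring C] [Algebra F C] (φ : B →ₐ[F] C)
    (a : ℕ → B) (f : FreeSemigroup ℕ →₀ F) : φ (peval a f) = peval (fun n => φ (a n)) f :=
  map_peval (φ : B →ₙₐ[F] C) a f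

theorem exists_subst (f : FreeSemigroup ℕ →₀ F) (k : ℕ × Option ℕ × Multiset ℕ)
    (h : ∑ w ∈ f.support with nf w = k, f w ≠ 0) :
    ∃ p : ℕ → FreeAlgebra F (Fin 3), (∀ n, p n ∈ PP F) ∧
      (eps F (peval p f) 0 2 ≠ 0 ∨ eps F (peval p f * FreeAlgebra.ι F 2) 0 2 ≠ 0) := by
  classical
  have hι : ∀ i : Fin 3, FreeAlgebra.ι F i ∈ PP F := fun i =>
    NonUnitalAlgebra.subset_adjoin F ⟨i, rfl⟩
  obtain ⟨i, oj, M⟩ := k
  cases oj with
  | none =>
    -- the linear part
    have hs : f ⟨i, []⟩ ≠ 0 := by
      intro h0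
      apply h
      apply Finset.sum_eq_zero
      intro w hw
      have hw' := (Finset.mem_filter.1 hw).2
      rcases word_cases w with ⟨x, rfl⟩ | ⟨x, j, l, rfl⟩
      · rw [nf_nil, Prod.mk.injEq] at hw'
        rw [hw'.1]
        exact h0
      · rw [nf_concat, Prod.mk.injEq, Prod.mk.injEq] at hw'
        exact absurd hw'.2.1 (by simp)
    let p : ℕ → FreeAlgebra F (Fin 3) := fun n => if n = i then FreeAlgebra.ι F 0 else 0
    refine ⟨p, ?_, Or.inr ?_⟩
    · intro n
      by_cases hn : n = i
      · simp only [p, hn, if_true]; exact hι 0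
      · simp only [p, hn, if_false]; exact zero_mem _
    · have hm : ∀ n, eps F (p n) = if n = i then !![0, 1, 0; 0, 0, 0; 0, 0, 0] else 0 := by
        intro n
        by_cases hn : n = i
        · simp only [p, hn, if_true]
          simp [eps]
        · simp only [p, hn, if_false, map_zero]
      have hmm : ∀ n n', eps F (p n) * eps F (p n') = 0 := by
        intro n n'
        rw [hm, hm]
        by_cases hn : n = i
        · by_cases hn' : n' = i
          · rw [if_pos hn, if_pos hn']
            refine Matrix.ext fun a b => ?_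
            fin_cases a <;> fin_cases b <;> simp [Matrix.mul_apply, Fin.sum_univ_three]
          · rw [if_neg hn', mul_zero]
        · rw [if_neg hn, zero_mul]
      have hfold : ∀ l : List ℕ, l.foldl (fun x i => x * eps F (p i)) 0 = 0 := by
        intro l
        induction l with
        | nil => rfl
        | cons a l ih => rw [List.foldl_cons, zero_mul, ih]
      have hword : ∀ w : FreeSemigroup ℕ, FreeSemigroup.lift (fun n => eps F (p n)) w =
          if w = ⟨i, []⟩ then !![0, 1, 0; 0, 0, 0; 0, 0, 0] else 0 := by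
        rintro ⟨x, t⟩
        rw [FreeSemigroup.lift_mk_eq_foldl]
        cases t with
        | nil =>
          rw [List.foldl_nil, hm]
          by_cases hx : x = i
          · rw [if_pos hx, if_pos (by rw [hx])]
          · rw [if_neg hx, if_neg]
            intro hc
            exact hx (congrArg FreeSemigroup.head hc)
        | cons a t =>
          rw [List.foldl_cons, hmm, hfold, if_neg]
          intro hc
          exact List.cons_ne_nil _ _ (congrArg FreeSemigroup.tail hc)
      have hmem : (⟨i, []⟩ : FreeSemigroup ℕ) ∈ f.support := Finsupp.mem_support_iff.2 hs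
      have hval : eps F (peval p f) = f ⟨i, []⟩ • !![0, 1, 0; 0, 0, 0; 0, 0, 0] := by
        rw [map_peval', peval, Finsupp.sum]
        rw [Finset.sum_eq_single_of_mem _ hmem]
        · rw [hword, if_pos rfl]
        · intro w _ hw
          rw [hword, if_neg hw, smul_zero]
      rw [map_mul, hval, Matrix.mul_apply, Fin.sum_univ_three]
      have h2 : eps F (FreeAlgebra.ι F 2) = !![0, 0, 0; 0, 0, 1; 0, 0, 0] := by simp [eps]
      rw [h2]
      simpa using hs
  | some j =>
    obtain ⟨q, hq⟩ := exists_point _ (fij_ne f i j M h)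
    let p : ℕ → FreeAlgebra F (Fin 3) := fun n => Polynomial.aeval (FreeAlgebra.ι F 1) (X * q n) +
      (if n = i then FreeAlgebra.ι F 0 else 0) + (if n = j then FreeAlgebra.ι F 2 else 0)
    refine ⟨p, ?_, Or.inl ?_⟩
    · intro n
      refine add_mem (add_mem (aeval_PP (hι 1) _) ?_) ?_
      · by_cases hn : n = i
        · rw [if_pos hn]; exact hι 0
        · rw [if_neg hn]; exact zero_mem _
      · by_cases hn : n = j
        · rw [if_pos hn]; exact hι 2
        · rw [if_neg hn]; exact zero_mem _
    · have hm : ∀ n, eps F (p n) = !![0, if n = i then 1 else 0, 0; 0, X * q n,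
          if n = j then 1 else 0; 0, 0, 0] := by
        intro n
        have h0 : eps F (FreeAlgebra.ι F 0) = !![0, 1, 0; 0, 0, 0; 0, 0, 0] := by simp [eps]
        have h2 : eps F (FreeAlgebra.ι F 2) = !![0, 0, 0; 0, 0, 1; 0, 0, 0] := by simp [eps]
        have h1 : eps F (Polynomial.aeval (FreeAlgebra.ι F 1) (X * q n)) =
            !![0, 0, 0; 0, X * q n, 0; 0, 0, 0] := by
          rw [← Polynomial.aeval_algHom_apply]
          exact ymat (q n)
        have ei : eps F (if n = i then FreeAlgebra.ι F 0 else 0) =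
            if n = i then !![0, 1, 0; 0, 0, 0; 0, 0, 0] else 0 := by
          split_ifs
          · exact h0
          · exact map_zero _
        have ej : eps F (if n = j then FreeAlgebra.ι F 2 else 0) =
            if n = j then !![0, 0, 0; 0, 0, 1; 0, 0, 0] else 0 := by
          split_ifs
          · exact h2
          · exact map_zero _
        simp only [p, map_add]
        rw [h1, ei, ej]
        by_cases hi : n = i
        · by_cases hj : n = j
          · rw [if_pos hi, if_pos hj, if_pos hi, if_pos hj]
            refine Matrix.ext fun a b => ?_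
            fin_cases a <;> fin_cases b <;> simp
          · rw [if_pos hi, if_neg hj, if_pos hi, if_neg hj]
            refine Matrix.ext fun a b => ?_
            fin_cases a <;> fin_cases b <;> simp
        · by_cases hj : n = j
          · rw [if_neg hi, if_pos hj, if_neg hi, if_pos hj]
            refine Matrix.ext fun a b => ?_
            fin_cases a <;> fin_cases b <;> simp
          · rw [if_neg hi, if_neg hj, if_neg hi, if_neg hj]
            refine Matrix.ext fun a b => ?_
            fin_cases a <;> fin_cases b <;> simp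
      rw [map_peval', peval, Finsupp.sum, Matrix.sum_apply]
      have hgoal : ∑ w ∈ f.support, (f w • FreeSemigroup.lift (fun n => eps F (p n)) w) 0 2 =
          MvPolynomial.aeval (fun k => X * q k) (fij f i j) := by
        rw [fij, map_sum]
        refine Finset.sum_congr rfl fun w _ => ?_
        rw [Matrix.smul_apply, word_entry (fun n => eps F (p n)) (fun k => X * q k) i j]
        · by_cases hw : w.head = i ∧ w.tail.getLast? = some j
          · rw [if_pos hw, if_pos hw, map_smul, map_multiset_prod, Multiset.map_map]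
            congr 3
            funext k
            rw [Function.comp_apply, MvPolynomial.aeval_X]
          · rw [if_neg hw, if_neg hw, smul_zero, map_zero]
        all_goals
          intro k
          rw [hm]
          simp
      rw [hgoal]
      exact hq

end subst

end Pool.Agent.T2h8.AL
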