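import Pool.Agent.T2h8.AL.Noe

/-!
# Ideals of finitely generated algebras: frames and noetherian layers
-/

set_option autoImplicit false
set_option linter.style.haveILetI false

namespace Pool.Agent.T2h8.AL

variable {F C : Type} [Field F] [Ring C] [Algebra F C]

/-- two-sided ideals, as subspaces -/
def TS (I : Submodule F C) : Prop := (∀ x ∈ I, ∀ y, x * y ∈ I) ∧ (∀ x ∈ I, ∀ y, y * x ∈ I)

variable (F) in
/-- the ideal generated by a set -/
def idl (S : Set C) : Submodule F C := ⊤ * Submodule.span F S * ⊤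

theorem TS.mul_top {I : Submodule F C} (h : TS I) : I * ⊤ ≤ I := by
  rw [Submodule.mul_le]
  exact fun x hx y _ => h.1 x hx y

theorem TS.top_mul {I : Submodule F C} (h : TS I) : ⊤ * I ≤ I := by
  rw [Submodule.mul_le]
  exact fun y _ x hx => h.2 x hx y

theorem TS.of_le {I : Submodule F C} (h1 : I * ⊤ ≤ I) (h2 : ⊤ * I ≤ I) : TS I :=
  ⟨fun _ hx _ => h1 (Submodule.mul_mem_mul hx trivial),
    fun _ hx _ => h2 (Submodule.mul_mem_mul trivial hx)⟩

theorem ts_idl (S : Set C) : TS (idl F S) := by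
  apply TS.of_le
  · unfold idl
    rw [mul_assoc]
    exact mul_le_mul' le_rfl le_top
  · unfold idl
    rw [← mul_assoc, ← mul_assoc]
    exact mul_le_mul' (mul_le_mul' le_top le_rfl) le_rfl

theorem span_le_idl (S : Set C) : Submodule.span F S ≤ idl F S := by
  have h1 : (1 : Submodule F C) ≤ ⊤ := le_top
  calc Submodule.span F S = 1 * Submodule.span F S * 1 := by rw [one_mul, mul_one]
    _ ≤ _ := mul_le_mul' (mul_le_mul' h1 le_rfl) h1

theorem subset_idl (S : Set C) : S ⊆ idl F S :=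
  fun _ hx => span_le_idl S (Submodule.subset_span hx)

theorem idl_le {S : Set C} {I : Submodule F C} (h : TS I) (hS : S ⊆ I) : idl F S ≤ I := by
  unfold idl
  calc ⊤ * Submodule.span F S * ⊤ ≤ ⊤ * I * ⊤ :=
        mul_le_mul' (mul_le_mul' le_rfl (Submodule.span_le.2 hS)) le_rfl
    _ ≤ I * ⊤ := mul_le_mul' h.top_mul le_rfl
    _ ≤ I := h.mul_top

theorem TS.sup {I I' : Submodule F C} (h : TS I) (h' : TS I') : TS (I ⊔ I') := by
  apply TS.of_le
  · rw [Submodule.sup_mul]
    exact sup_le_sup h.mul_top h'.mul_top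
  · rw [Submodule.mul_sup]
    exact sup_le_sup h.top_mul h'.top_mul

theorem TS.inf {I I' : Submodule F C} (h : TS I) (h' : TS I') : TS (I ⊓ I') :=
  ⟨fun x hx y => ⟨h.1 x hx.1 y, h'.1 x hx.2 y⟩, fun x hx y => ⟨h.2 x hx.1 y, h'.2 x hx.2 y⟩⟩

theorem TS.mul {I I' : Submodule F C} (h : TS I) (h' : TS I') : TS (I * I') := by
  apply TS.of_le
  · rw [mul_assoc]
    exact mul_le_mul' le_rfl h'.mul_top
  · rw [← mul_assoc]
    exact mul_le_mul' h.top_mul le_rfl

theorem ts_top : TS (⊤ : Submodule F C) := ⟨fun _ _ _ => trivial, fun _ _ _ => trivial⟩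

theorem ts_bot : TS (⊥ : Submodule F C) :=
  ⟨fun x hx y => by
    rw [Submodule.mem_bot] at hx ⊢
    rw [hx, zero_mul], fun x hx y => by
    rw [Submodule.mem_bot] at hx ⊢
    rw [hx, mul_zero]⟩

theorem TS.pow {I : Submodule F C} (h : TS I) (n : ℕ) : TS (I ^ (n + 1)) := by
  induction n with
  | zero => rw [zero_add, pow_one]; exact h
  | succ n ih => rw [pow_succ]; exact ih.mul h

/-- A finite set `T`, central modulo `N0`, and a finite set `V` such that `V` generates the algebra
as a module over the subalgebra generated by `T`, modulo `N0`. -/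
structure Frm (J N0 : Submodule F C) (T V : Set C) : Prop where
  Tfin : T.Finite
  Vfin : V.Finite
  TJ : T ⊆ J
  ts : TS N0
  comm : ∀ c : C, ∀ t ∈ T, c * t - t * c ∈ N0
  gen : (⊤ : Submodule F C) ≤
    Subalgebra.toSubmodule (Algebra.adjoin F T) * Submodule.span F V ⊔ N0

theorem comm_adjoin {N0 : Submodule F C} (hts : TS N0) {T : Set C} {c : C}
    (h : ∀ t ∈ T, c * t - t * c ∈ N0) : ∀ a ∈ Algebra.adjoin F T, c * a - a * c ∈ N0 := by
  intro a ha
  induction ha using Algebra.adjoin_induction with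
  | mem x hx => exact h x hx
  | algebraMap r => rw [Algebra.commutes, sub_self]; exact zero_mem _
  | add x y _ _ hx hy =>
    have : c * (x + y) - (x + y) * c = (c * x - x * c) + (c * y - y * c) := by noncomm_ring
    rw [this]; exact add_mem hx hy
  | mul x y _ _ hx hy =>
    have : c * (x * y) - x * y * c = (c * x - x * c) * y + x * (c * y - y * c) := by noncomm_ring
    rw [this]
    exact add_mem (hts.1 _ hx y) (hts.2 _ hy x)

theorem exists_frame [Finite F] {G0 : Set C} (hG0 : G0.Finite) (hgen : Algebra.adjoin F G0 = ⊤)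
    {J N : Submodule F C} (hJ : Finite (C ⧸ J))
    (hc : ∀ c : C, ∀ j ∈ J, c * j - j * c ∈ N) :
    ∃ (T V D : Set C), D.Finite ∧ D ⊆ N ∧ 1 ∈ V ∧ Frm J (idl F D) T V := by
  classical
  let s : C ⧸ J → C := Function.surjInv J.mkQ_surjective
  have hs : ∀ c : C, c - s (J.mkQ c) ∈ J := by
    intro c
    have := Function.surjInv_eq J.mkQ_surjective (J.mkQ c)
    rw [← Submodule.Quotient.mk_eq_zero]
    change J.mkQ (c - s (J.mkQ c)) = 0
    rw [map_sub, this, sub_self]
  let V : Set C := insert 1 (Set.range s)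
  have hV : V.Finite := (Set.finite_range s).insert 1
  let T : Set C := (fun p : C × C => p.1 * p.2 - s (J.mkQ (p.1 * p.2))) '' (G0 ×ˢ V)
  have hT : T.Finite := (hG0.prod hV).image _
  have hTJ : T ⊆ J := by
    rintro _ ⟨p, -, rfl⟩
    exact hs _
  let D : Set C := (fun p : C × C => p.1 * p.2 - p.2 * p.1) '' (G0 ×ˢ T)
  have hD : D.Finite := (hG0.prod hT).image _
  have hDN : D ⊆ N := by
    rintro _ ⟨p, hp, rfl⟩
    exact hc _ _ (hTJ hp.2)
  have hts := ts_idl (F := F) D
  have hcomm : ∀ c : C, ∀ t ∈ T, c * t - t * c ∈ idl F D := by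
    intro c t ht
    have hcm : c ∈ Algebra.adjoin F G0 := by rw [hgen]; trivial
    induction hcm using Algebra.adjoin_induction with
    | mem x hx => exact subset_idl D ⟨(x, t), ⟨hx, ht⟩, rfl⟩
    | algebraMap r => rw [Algebra.commutes, sub_self]; exact zero_mem _
    | add x y _ _ hx hy =>
      have : (x + y) * t - t * (x + y) = (x * t - t * x) + (y * t - t * y) := by noncomm_ring
      rw [this]; exact add_mem hx hy
    | mul x y _ _ hx hy =>
      have : x * y * t - t * (x * y) = x * (y * t - t * y) + (x * t - t * x) * y := by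
        noncomm_ring
      rw [this]
      exact add_mem (hts.2 _ hy x) (hts.1 _ hx y)
  refine ⟨T, V, D, hD, hDN, Set.mem_insert _ _, hT, hV, hTJ, hts, hcomm, ?_⟩
  set A := Algebra.adjoin F T
  set W := Subalgebra.toSubmodule A * Submodule.span F V ⊔ idl F D with hW
  have hA1 : (1 : C) ∈ A := one_mem _
  have h1V : (1 : C) ∈ Submodule.span F V := Submodule.subset_span (Set.mem_insert _ _)
  have hv1 : ∀ x ∈ G0, ∀ a ∈ A, ∀ v ∈ Submodule.span F V, a * (x * v) ∈ W := by
    intro x hx a ha v hv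
    induction hv using Submodule.span_induction with
    | mem v hv =>
      have e2 : a * (x * v) = a * s (J.mkQ (x * v)) +
          a * (x * v - s (J.mkQ (x * v))) * 1 := by noncomm_ring
      rw [e2]
      apply Submodule.mem_sup_left
      refine add_mem (Submodule.mul_mem_mul ha (Submodule.subset_span
        (Set.mem_insert_of_mem _ ⟨_, rfl⟩))) (Submodule.mul_mem_mul ?_ h1V)
      exact A.mul_mem ha (Algebra.subset_adjoin ⟨(x, v), ⟨hx, hv⟩, rfl⟩)
    | zero => rw [mul_zero, mul_zero]; exact zero_mem _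
    | add v v' _ _ h h' => rw [mul_add, mul_add]; exact add_mem h h'
    | smul r v _ h =>
      rw [mul_smul_comm, mul_smul_comm]; exact Submodule.smul_mem _ r h
  have hstep : ∀ x ∈ G0, ∀ w ∈ W, x * w ∈ W := by
    intro x hx w hw
    obtain ⟨w1, hw1, w2, hw2, rfl⟩ := Submodule.mem_sup.1 hw
    rw [mul_add]
    refine add_mem ?_ (Submodule.mem_sup_right (hts.2 _ hw2 x))
    refine Submodule.mul_induction_on (C := fun w1 => x * w1 ∈ W) hw1 ?_ ?_
    · intro a ha v hv
      have e1 : x * (a * v) = a * (x * v) + (x * a - a * x) * v := by noncomm_ring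
      rw [e1]
      exact add_mem (hv1 x hx a ha v hv)
        (Submodule.mem_sup_right (hts.1 _ (comm_adjoin hts (hcomm x) a ha) v))
    · intro y z hy hz
      rw [mul_add]
      exact add_mem hy hz
  have hall : ∀ c : C, ∀ w ∈ W, c * w ∈ W := by
    intro c
    have hcm : c ∈ Algebra.adjoin F G0 := by rw [hgen]; trivial
    induction hcm using Algebra.adjoin_induction with
    | mem x hx => exact hstep x hx
    | algebraMap r =>
      intro w hw
      rw [← Algebra.smul_def]
      exact Submodule.smul_mem _ r hw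
    | add x y _ _ hx hy => intro w hw; rw [add_mul]; exact add_mem (hx w hw) (hy w hw)
    | mul x y _ _ hx hy => intro w hw; rw [mul_assoc]; exact hx _ (hy w hw)
  intro c _
  have h1W : (1 : C) ∈ W := by
    apply Submodule.mem_sup_left
    have := Submodule.mul_mem_mul (M := Subalgebra.toSubmodule A) hA1 h1V
    rwa [one_mul] at this
  have := hall c 1 h1W
  rwa [mul_one] at this

variable {J N0 : Submodule F C} {T V : Set C}

theorem Frm.gen' (fr : Frm J N0 T V) : (⊤ : Submodule F C) ≤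
    Submodule.span F V * Subalgebra.toSubmodule (Algebra.adjoin F T) ⊔ N0 := by
  refine fr.gen.trans (sup_le ?_ le_sup_right)
  rw [Submodule.mul_le]
  intro a ha v hv
  have e1 : a * v = v * a + -(v * a - a * v) := by noncomm_ring
  rw [e1]
  exact add_mem (Submodule.mem_sup_left (Submodule.mul_mem_mul hv ha))
    (Submodule.mem_sup_right (neg_mem (comm_adjoin fr.ts (fr.comm v) a ha)))

/-- noetherian layers -/
theorem noe_layer (fr : Frm J N0 T V) {X X' : Submodule F C} (hX : TS X) (hX' : TS X')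
    (hle : X' ≤ X) (hN1 : N0 * X ≤ X') (hN2 : X * N0 ≤ X') {S : Set C} (hS : S.Finite)
    (hSX : S ⊆ X) (hXS : X ≤ idl F S ⊔ X') {I : Submodule F C} (hI : TS I)
    (hIX : I ≤ X) : ∃ S' : Set C, S'.Finite ∧ S' ⊆ I ∧ I ≤ idl F S' ⊔ X' := by
  classical
  let K : Submodule F X := X'.comap X.subtype
  let mk : X →ₗ[F] (X ⧸ K) := K.mkQ
  have hmk0 : ∀ x : X, mk x = 0 ↔ (x : C) ∈ X' := by
    intro x
    change Submodule.Quotient.mk x = 0 ↔ _
    rw [Submodule.Quotient.mk_eq_zero]
    rfl
  let Lc : C → (X →ₗ[F] X) := fun c => (LinearMap.mulLeft F c).restrict (fun x hx => hX.2 x hx c)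
  let Rc : C → (X →ₗ[F] X) := fun c => (LinearMap.mulRight F c).restrict (fun x hx => hX.1 x hx c)
  let L : C → Module.End F (X ⧸ K) := fun c => K.mapQ K (Lc c) (fun x hx => hX'.2 _ hx c)
  let R : C → Module.End F (X ⧸ K) := fun c => K.mapQ K (Rc c) (fun x hx => hX'.1 _ hx c)
  have hL : ∀ c x, L c (mk x) = mk (Lc c x) := fun c x => rfl
  have hR : ∀ c x, R c (mk x) = mk (Rc c x) := fun c x => rfl
  have hLc : ∀ c x, ((Lc c x : X) : C) = c * x := fun c x => rfl
  have hRc : ∀ c x, ((Rc c x : X) : C) = x * c := fun c x => rfl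
  have hsurj : Function.Surjective mk := K.mkQ_surjective
  let Φ : Set (Module.End F (X ⧸ K)) := (L '' T) ∪ (R '' T)
  have hΦ : Φ.Finite := (fr.Tfin.image _).union (fr.Tfin.image _)
  have hLL : ∀ c, ∀ t ∈ T, L c * L t = L t * L c := by
    intro c t ht
    ext x
    change L c (L t (mk x)) = L t (L c (mk x))
    rw [hL, hL, hL, hL, ← sub_eq_zero, ← map_sub, hmk0]
    have e1 : ((Lc c (Lc t x) - Lc t (Lc c x) : X) : C) = (c * t - t * c) * x := by
      rw [Submodule.coe_sub, hLc, hLc, hLc, hLc]; noncomm_ring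
    rw [e1]
    exact hN1 (Submodule.mul_mem_mul (fr.comm c t ht) x.2)
  have hRR : ∀ c, ∀ t ∈ T, R c * R t = R t * R c := by
    intro c t ht
    ext x
    change R c (R t (mk x)) = R t (R c (mk x))
    rw [hR, hR, hR, hR, ← sub_eq_zero, ← map_sub, hmk0]
    have e1 : ((Rc c (Rc t x) - Rc t (Rc c x) : X) : C) = -((x : C) * (c * t - t * c)) := by
      rw [Submodule.coe_sub, hRc, hRc, hRc, hRc]; noncomm_ring
    rw [e1]
    exact neg_mem (hN2 (Submodule.mul_mem_mul x.2 (fr.comm c t ht)))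
  have hLR : ∀ c c', L c * R c' = R c' * L c := by
    intro c c'
    ext x
    change L c (R c' (mk x)) = R c' (L c (mk x))
    rw [hR, hL, hL, hR]
    congr 1
    apply Subtype.ext
    rw [hLc, hRc, hRc, hLc, mul_assoc]
  have hcomm : ∀ φ ∈ Φ, ∀ ψ ∈ Φ, φ * ψ = ψ * φ := by
    rintro _ (⟨t, ht, rfl⟩ | ⟨t, ht, rfl⟩) _ (⟨t', ht', rfl⟩ | ⟨t', ht', rfl⟩)
    · exact hLL t t' ht'
    · exact hLR t t'
    · exact (hLR t' t).symm
    · exact hRR t t' ht'
  -- generation
  let S1 : Set C := (fun p : C × C × C => p.1 * p.2.1 * p.2.2) '' (V ×ˢ (S ×ˢ V))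
  have hS1 : S1.Finite := (fr.Vfin.prod (hS.prod fr.Vfin)).image _
  have hS1X : ∀ x ∈ S1, x ∈ X := by
    rintro _ ⟨p, hp, rfl⟩
    exact hX.1 _ (hX.2 _ (hSX hp.2.1) _) _
  let Sb : Set (X ⧸ K) := {m | ∃ (x : C) (hx : x ∈ X), x ∈ S1 ∧ m = mk ⟨x, hx⟩}
  have hSb : Sb.Finite := by
    have : Sb ⊆ (fun x : C => if hx : x ∈ X then mk ⟨x, hx⟩ else 0) '' S1 := by
      rintro _ ⟨x, hx, hxS, rfl⟩
      exact ⟨x, hxS, by simp only [hx, dif_pos]⟩
    exact (hS1.image _).subset this
  have hgen : ∀ W : Submodule F (X ⧸ K), Sb ⊆ W → (∀ φ ∈ Φ, ∀ w ∈ W, φ w ∈ W) → W = ⊤ := by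
    intro W hSW hWst
    let Wc : Submodule F C := (W.comap mk).map X.subtype
    have hWc : ∀ x : C, x ∈ Wc ↔ ∃ hx : x ∈ X, mk ⟨x, hx⟩ ∈ W := by
      intro x
      simp only [Wc, Submodule.mem_map, Submodule.mem_comap]
      constructor
      · rintro ⟨y, hy, rfl⟩
        exact ⟨y.2, hy⟩
      · rintro ⟨hx, h⟩
        exact ⟨⟨x, hx⟩, h, rfl⟩
    have hX'W : X' ≤ Wc := by
      intro x hx
      rw [hWc]
      refine ⟨hle hx, ?_⟩
      have : mk ⟨x, hle hx⟩ = 0 := (hmk0 _).2 hx
      rw [this]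
      exact W.zero_mem
    have hAl : Subalgebra.toSubmodule (Algebra.adjoin F T) * Wc ≤ Wc := by
      rw [Submodule.mul_le]
      intro a ha
      have ha' : a ∈ Algebra.adjoin F T := ha
      induction ha' using Algebra.adjoin_induction with
      | mem t ht =>
        intro w hw
        obtain ⟨hx, h⟩ := (hWc w).1 hw
        rw [hWc]
        exact ⟨hX.2 _ hx t, hWst (L t) (Or.inl ⟨t, ht, rfl⟩) _ h⟩
      | algebraMap r =>
        intro w hw
        rw [← Algebra.smul_def]
        exact Wc.smul_mem r hw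
      | add x y _ _ hx hy =>
        intro w hw
        rw [add_mul]
        exact add_mem (hx (by assumption) w hw) (hy (by assumption) w hw)
      | mul x y _ _ hx hy =>
        intro w hw
        rw [mul_assoc]
        exact hx (by assumption) _ (hy (by assumption) w hw)
    have hAr : Wc * Subalgebra.toSubmodule (Algebra.adjoin F T) ≤ Wc := by
      rw [Submodule.mul_le]
      intro w hw a ha
      have ha' : a ∈ Algebra.adjoin F T := ha
      induction ha' using Algebra.adjoin_induction generalizing w with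
      | mem t ht =>
        obtain ⟨hx, h⟩ := (hWc w).1 hw
        rw [hWc]
        exact ⟨hX.1 _ hx t, hWst (R t) (Or.inr ⟨t, ht, rfl⟩) _ h⟩
      | algebraMap r =>
        rw [← Algebra.commutes, ← Algebra.smul_def]
        exact Wc.smul_mem r hw
      | add x y _ _ hx hy =>
        rw [mul_add]
        exact add_mem (hx w hw (by assumption)) (hy w hw (by assumption))
      | mul x y _ _ hx hy =>
        rw [← mul_assoc]
        exact hy _ (hx w hw (by assumption)) (by assumption)
    have hSs : Submodule.span F S ≤ X := Submodule.span_le.2 hSX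
    have hVSV : Submodule.span F V * Submodule.span F S * Submodule.span F V ≤ Wc := by
      rw [Submodule.span_mul_span, Submodule.span_mul_span, Submodule.span_le]
      rintro _ ⟨_, ⟨v, hv, s, hs, rfl⟩, v', hv', rfl⟩
      have hmem : v * s * v' ∈ S1 := ⟨(v, s, v'), ⟨hv, hs, hv'⟩, rfl⟩
      change v * s * v' ∈ Wc
      rw [hWc]
      exact ⟨hS1X _ hmem, hSW ⟨_, hS1X _ hmem, hmem, rfl⟩⟩
    have hidl : idl F S ≤ Wc := by
      unfold idl
      have h1 : (⊤ : Submodule F C) * Submodule.span F S * ⊤ ≤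
          (Subalgebra.toSubmodule (Algebra.adjoin F T) * Submodule.span F V ⊔ N0) *
            Submodule.span F S *
            (Submodule.span F V * Subalgebra.toSubmodule (Algebra.adjoin F T) ⊔ N0) :=
        mul_le_mul' (mul_le_mul' fr.gen le_rfl) fr.gen'
      refine h1.trans ?_
      rw [Submodule.sup_mul, Submodule.sup_mul, Submodule.mul_sup]
      refine sup_le (sup_le ?_ ?_) ?_
      · calc _ = Subalgebra.toSubmodule (Algebra.adjoin F T) *
              (Submodule.span F V * Submodule.span F S * Submodule.span F V) *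
                Subalgebra.toSubmodule (Algebra.adjoin F T) := by simp only [mul_assoc]
          _ ≤ Subalgebra.toSubmodule (Algebra.adjoin F T) * Wc *
                Subalgebra.toSubmodule (Algebra.adjoin F T) :=
              mul_le_mul' (mul_le_mul' le_rfl hVSV) le_rfl
          _ ≤ Wc * Subalgebra.toSubmodule (Algebra.adjoin F T) := mul_le_mul' hAl le_rfl
          _ ≤ Wc := hAr
      · calc _ ≤ (⊤ * ⊤ * X) * N0 :=
              mul_le_mul' (mul_le_mul' (mul_le_mul' le_top le_top) hSs) le_rfl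
          _ ≤ X * N0 := by
              refine mul_le_mul' ?_ le_rfl
              rw [mul_assoc]
              exact (mul_le_mul' le_rfl hX.top_mul).trans hX.top_mul
          _ ≤ X' := hN2
          _ ≤ Wc := hX'W
      · calc _ ≤ N0 * X * ⊤ := mul_le_mul' (mul_le_mul' le_rfl hSs) le_top
          _ ≤ X' * ⊤ := mul_le_mul' hN1 le_rfl
          _ ≤ X' := hX'.mul_top
          _ ≤ Wc := hX'W
    have hXW : X ≤ Wc := hXS.trans (sup_le hidl hX'W)
    rw [eq_top_iff]
    intro m _
    obtain ⟨x, rfl⟩ := hsurj m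
    obtain ⟨hx, h⟩ := (hWc (x : C)).1 (hXW x.2)
    exact h
  -- the submodule of `I`
  have hst : ∀ I' : Submodule F C, TS I' → ∀ φ ∈ Φ, ∀ w ∈ (I'.comap X.subtype).map mk,
      φ w ∈ (I'.comap X.subtype).map mk := by
    intro I' hI'
    rintro _ (⟨t, ht, rfl⟩ | ⟨t, ht, rfl⟩) _ ⟨x, hx, rfl⟩
    · exact ⟨Lc t x, hI'.2 _ hx t, rfl⟩
    · exact ⟨Rc t x, hI'.1 _ hx t, rfl⟩
  obtain ⟨S2, hS2, hS2W, hS2'⟩ := noeth_ops Φ hΦ hcomm Sb hSb hgen
    ((I.comap X.subtype).map mk) (hst I hI)
  have hch : ∀ m : X ⧸ K, ∃ x : X, m ∈ S2 → ((x : C) ∈ I ∧ mk x = m) := by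
    intro m
    by_cases hm : m ∈ S2
    · obtain ⟨x, hx, hxm⟩ := hS2W hm
      exact ⟨x, fun _ => ⟨hx, hxm⟩⟩
    · exact ⟨0, fun h => absurd h hm⟩
  choose f hf using hch
  refine ⟨(fun m => (f m : C)) '' S2, hS2.image _, ?_, ?_⟩
  · rintro _ ⟨m, hm, rfl⟩
    exact (hf m hm).1
  · set S3 := (fun m => (f m : C)) '' S2 with hS3
    have h1 := hS2' (((idl F S3 ⊔ X').comap X.subtype).map mk) (by
      intro m hm
      refine ⟨f m, ?_, (hf m hm).2⟩
      exact Submodule.mem_sup_left (subset_idl S3 ⟨m, hm, rfl⟩)) (hst _ ((ts_idl S3).sup hX'))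
    intro x hx
    have h2 : mk ⟨x, hIX hx⟩ ∈ (I.comap X.subtype).map mk := ⟨⟨x, hIX hx⟩, hx, rfl⟩
    obtain ⟨y, hy, hyx⟩ := h1 h2
    have h3 : (((⟨x, hIX hx⟩ : X) - y : X) : C) ∈ X' := by
      rw [← hmk0, map_sub, hyx, sub_self]
    have h4 : x = (y : C) + (x - y) := by abel
    rw [h4]
    exact add_mem hy (Submodule.mem_sup_right h3)

end Pool.Agent.T2h8.AL
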