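import Mathlib

/-!
# The generic representations in three by three and two by two matrices
-/

set_option autoImplicit false

namespace Pool.Agent.T2h8.AL

open Polynomial

/-- the first, second and third variable go to `e₁₂`, `t e₂₂`, `e₂₃` -/
noncomputable def eps (F : Type) [Field F] :
    FreeAlgebra F (Fin 3) →ₐ[F] Matrix (Fin 3) (Fin 3) F[X] :=
  FreeAlgebra.lift F ![!![0, 1, 0; 0, 0, 0; 0, 0, 0], !![0, 0, 0; 0, X, 0; 0, 0, 0],
    !![0, 0, 0; 0, 0, 1; 0, 0, 0]]

/-- the first, second and third variable go to `s e₁₂`, `t e₂₂`, `e₂₁` -/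
noncomputable def rho (F : Type) [Field F] :
    FreeAlgebra F (Fin 3) →ₐ[F] Matrix (Fin 2) (Fin 2) (MvPolynomial (Fin 2) F) :=
  FreeAlgebra.lift F ![!![0, MvPolynomial.X 0; 0, 0], !![0, 0; 0, MvPolynomial.X 1],
    !![0, 0; 1, 0]]

/-- `s = 0` -/
noncomputable def phi (F : Type) [Field F] : MvPolynomial (Fin 2) F →ₐ[F] F[X] :=
  MvPolynomial.aeval ![0, X]

theorem rho_eps_aux {F : Type} [Field F] (h : FreeAlgebra F (Fin 3)) :
    ∃ (a b γ δ : MvPolynomial (Fin 2) F) (a0 : F),
      rho F h = !![MvPolynomial.C a0 + MvPolynomial.X 0 * a, MvPolynomial.X 0 * b; γ, δ] ∧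
      eps F h = !![Polynomial.C a0, phi F b, phi F a; 0, phi F δ, phi F γ; 0, 0, Polynomial.C a0] := by
  induction h using FreeAlgebra.induction with
  | grade0 r =>
    refine ⟨0, 0, 0, MvPolynomial.C r, r, ?_, ?_⟩
    · rw [AlgHom.commutes]
      refine Matrix.ext fun i j => ?_
      fin_cases i <;> fin_cases j <;> simp [Matrix.algebraMap_matrix_apply]
    · rw [AlgHom.commutes]
      refine Matrix.ext fun i j => ?_
      fin_cases i <;> fin_cases j <;> simp [Matrix.algebraMap_matrix_apply, phi]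
  | grade1 x =>
    fin_cases x
    · refine ⟨0, 1, 0, 0, 0, ?_, ?_⟩
      · simp [rho]
      · simp [eps]
    · refine ⟨0, 0, 0, MvPolynomial.X 1, 0, ?_, ?_⟩
      · simp [rho]
      · simp [eps, phi]
    · refine ⟨0, 0, 1, 0, 0, ?_, ?_⟩
      · simp [rho]
      · simp [eps]
  | mul h h' ih ih' =>
    obtain ⟨a, b, γ, δ, a0, h1, h2⟩ := ih
    obtain ⟨a', b', γ', δ', a0', h1', h2'⟩ := ih'
    refine ⟨MvPolynomial.C a0 * a' + MvPolynomial.C a0' * a + MvPolynomial.X 0 * a * a' + b * γ',
      MvPolynomial.C a0 * b' + MvPolynomial.X 0 * a * b' + b * δ',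
      γ * (MvPolynomial.C a0' + MvPolynomial.X 0 * a') + δ * γ',
      γ * (MvPolynomial.X 0 * b') + δ * δ', a0 * a0', ?_, ?_⟩
    · rw [map_mul, h1, h1']
      refine Matrix.ext fun i j => ?_
      fin_cases i <;> fin_cases j <;> simp [Matrix.mul_apply, Fin.sum_univ_succ] <;> ring
    · rw [map_mul, h2, h2']
      have e0 : phi F (MvPolynomial.X 0) = 0 := by simp [phi]
      have e1 : ∀ r, phi F (MvPolynomial.C r) = Polynomial.C r := by
        intro r
        simp [phi]
      refine Matrix.ext fun i j => ?_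
      fin_cases i <;> fin_cases j <;>
        simp [Matrix.mul_apply, Fin.sum_univ_succ, e0, e1] <;> ring
  | add h h' ih ih' =>
    obtain ⟨a, b, γ, δ, a0, h1, h2⟩ := ih
    obtain ⟨a', b', γ', δ', a0', h1', h2'⟩ := ih'
    refine ⟨a + a', b + b', γ + γ', δ + δ', a0 + a0', ?_, ?_⟩
    · rw [map_add, h1, h1']
      refine Matrix.ext fun i j => ?_
      fin_cases i <;> fin_cases j <;> simp <;> ring
    · rw [map_add, h2, h2']
      refine Matrix.ext fun i j => ?_
      fin_cases i <;> fin_cases j <;> simp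

theorem rho_ne_zero {F : Type} [Field F] {h : FreeAlgebra F (Fin 3)} (hh : eps F h ≠ 0) :
    rho F h ≠ 0 := by
  intro h0
  apply hh
  obtain ⟨a, b, γ, δ, a0, h1, h2⟩ := rho_eps_aux h
  rw [h0] at h1
  have h00 := congrFun (congrFun h1 0) 0
  have h01 := congrFun (congrFun h1 0) 1
  have h10 := congrFun (congrFun h1 1) 0
  have h11 := congrFun (congrFun h1 1) 1
  simp only [Matrix.zero_apply, Matrix.of_apply, Matrix.cons_val', Matrix.cons_val_zero,
    Matrix.cons_val_one, Matrix.cons_val_fin_one] at h00 h01 h10 h11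
  have hb : b = 0 := by
    rcases mul_eq_zero.1 h01.symm with h | h
    · exact absurd h (MvPolynomial.X_ne_zero 0)
    · exact h
  have ha0 : a0 = 0 := by
    have := congrArg (phi F) h00
    simp only [map_zero, map_add, map_mul] at this
    have e0 : phi F (MvPolynomial.X 0) = 0 := by simp [phi]
    have e1 : phi F (MvPolynomial.C a0) = Polynomial.C a0 := by simp [phi]
    rw [e0, e1, zero_mul, add_zero] at this
    exact Polynomial.C_eq_zero.1 this.symm
  have ha : a = 0 := by
    rw [ha0, map_zero, zero_add] at h00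
    rcases mul_eq_zero.1 h00.symm with h | h
    · exact absurd h (MvPolynomial.X_ne_zero 0)
    · exact h
  rw [h2, ha, hb, ← h10, ← h11, ha0]
  refine Matrix.ext fun i j => ?_
  fin_cases i <;> fin_cases j <;> simp

end Pool.Agent.T2h8.AL
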