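import Pool.Agent.T2h8.AL.L1
import Pool.Agent.T2h8.AL.Gen
import Pool.Agent.T2h8.AL.Rep

/-!
# The bilinear part of a polynomial in three noncommuting variables
-/

set_option autoImplicit false
set_option linter.style.haveILetI false

namespace Pool.Agent.T2h8.AL

open Polynomial

variable {F C : Type} [Field F] [Ring C] [Algebra F C]

/-- `Σ α y^b x y^a z y^c` -/
noncomputable def LL (y x z : C) : MvPolynomial (Fin 3) F →ₗ[F] C :=
  (MvPolynomial.basisMonomials (Fin 3) F).constr F
    (fun m => y ^ (m 1) * x * y ^ (m 0) * z * y ^ (m 2))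

theorem LL_monomial (y x z : C) (m : Fin 3 →₀ ℕ) (a : F) :
    LL y x z (MvPolynomial.monomial m a) = a • (y ^ (m 1) * x * y ^ (m 0) * z * y ^ (m 2)) := by
  have h1 : MvPolynomial.monomial m a = a • (MvPolynomial.basisMonomials (Fin 3) F) m := by
    rw [MvPolynomial.coe_basisMonomials, MvPolynomial.smul_monomial, smul_eq_mul, mul_one]
  rw [h1, map_smul, LL, Module.Basis.constr_basis]

theorem LL_one (y x z : C) : LL (F := F) y x z 1 = x * z := by
  have h1 : (1 : MvPolynomial (Fin 3) F) = MvPolynomial.monomial 0 1 := rfl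
  rw [h1, LL_monomial]
  simp

theorem LL_X1 (y x z : C) (c : MvPolynomial (Fin 3) F) :
    LL y x z (MvPolynomial.X 1 * c) = y * LL y x z c := by
  induction c using MvPolynomial.induction_on' with
  | monomial u a =>
    rw [MvPolynomial.X, MvPolynomial.monomial_mul, LL_monomial, LL_monomial]
    simp [pow_add, mul_assoc]
  | add p q hp hq => rw [mul_add, map_add, map_add, hp, hq, mul_add]

theorem LL_X2 (y x z : C) (c : MvPolynomial (Fin 3) F) :
    LL y x z (MvPolynomial.X 2 * c) = LL y x z c * y := by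
  induction c using MvPolynomial.induction_on' with
  | monomial u a =>
    rw [MvPolynomial.X, MvPolynomial.monomial_mul, LL_monomial, LL_monomial]
    simp [pow_add, mul_assoc, (Commute.self_pow y _).eq]
  | add p q hp hq => rw [mul_add, map_add, map_add, hp, hq, add_mul]

theorem LL_X0 (y x z : C) (c : MvPolynomial (Fin 3) F) :
    LL y x z (MvPolynomial.X 0 * c) = LL y (x * y) z c := by
  induction c using MvPolynomial.induction_on' with
  | monomial u a =>
    rw [MvPolynomial.X, MvPolynomial.monomial_mul, LL_monomial, LL_monomial]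
    simp [pow_add, mul_assoc]
  | add p q hp hq => rw [mul_add, map_add, map_add, hp, hq]

theorem LL_X0' (y x z : C) (c : MvPolynomial (Fin 3) F) :
    LL y x z (MvPolynomial.X 0 * c) = LL y x (y * z) c := by
  induction c using MvPolynomial.induction_on' with
  | monomial u a =>
    rw [MvPolynomial.X, MvPolynomial.monomial_mul, LL_monomial, LL_monomial]
    have : ∀ w : C, y ^ (u 0) * (y * w) = y * (y ^ (u 0) * w) := by
      intro w
      rw [← mul_assoc, ← mul_assoc, ← (Commute.self_pow y _).eq]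
    simp [pow_add, mul_assoc, this]
  | add p q hp hq => rw [mul_add, map_add, map_add, hp, hq]

theorem LL_X1' (y x z : C) (c : MvPolynomial (Fin 3) F) :
    LL y x z (MvPolynomial.X 1 * c) = LL y (y * x) z c := by
  induction c using MvPolynomial.induction_on' with
  | monomial u a =>
    rw [MvPolynomial.X, MvPolynomial.monomial_mul, LL_monomial, LL_monomial]
    have : ∀ w : C, y ^ (u 1) * (y * w) = y * (y ^ (u 1) * w) := by
      intro w
      rw [← mul_assoc, ← mul_assoc, ← (Commute.self_pow y _).eq]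
    simp [pow_add, mul_assoc, this]
  | add p q hp hq => rw [mul_add, map_add, map_add, hp, hq]

theorem LL_X2' (y x z : C) (c : MvPolynomial (Fin 3) F) :
    LL y x z (MvPolynomial.X 2 * c) = LL y x (z * y) c := by
  induction c using MvPolynomial.induction_on' with
  | monomial u a =>
    rw [MvPolynomial.X, MvPolynomial.monomial_mul, LL_monomial, LL_monomial]
    simp [pow_add, mul_assoc]
  | add p q hp hq => rw [mul_add, map_add, map_add, hp, hq]

theorem LL_add_left (y x x' z : C) (c : MvPolynomial (Fin 3) F) :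
    LL y (x + x') z c = LL y x z c + LL y x' z c := by
  induction c using MvPolynomial.induction_on' with
  | monomial u a =>
    rw [LL_monomial, LL_monomial, LL_monomial, ← smul_add]
    congr 1
    noncomm_ring
  | add p q hp hq => rw [map_add, map_add, map_add, hp, hq]; abel

theorem LL_smul_left (y x z : C) (r : F) (c : MvPolynomial (Fin 3) F) :
    LL y (r • x) z c = r • LL y x z c := by
  induction c using MvPolynomial.induction_on' with
  | monomial u a =>
    rw [LL_monomial, LL_monomial, smul_comm r a]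
    congr 1
    simp only [mul_smul_comm, smul_mul_assoc]
  | add p q hp hq => rw [map_add, map_add, hp, hq, smul_add]

theorem LL_p1 (y x z : C) (p : F[X]) (c : MvPolynomial (Fin 3) F) :
    LL y x z (Polynomial.aeval (MvPolynomial.X 1) p * c) =
      Polynomial.aeval y p * LL y x z c := by
  induction p using Polynomial.induction_on' with
  | add p q hp hq => rw [map_add, map_add, add_mul, map_add, hp, hq, add_mul]
  | monomial n a =>
    rw [Polynomial.aeval_monomial, Polynomial.aeval_monomial]
    induction n with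
    | zero =>
      rw [pow_zero, pow_zero, mul_one, mul_one, ← Algebra.smul_def, ← Algebra.smul_def, map_smul]
    | succ n ih =>
      have e1 : algebraMap F (MvPolynomial (Fin 3) F) a * MvPolynomial.X 1 ^ (n + 1) * c =
          MvPolynomial.X 1 * (algebraMap F (MvPolynomial (Fin 3) F) a *
            MvPolynomial.X 1 ^ n * c) := by ring
      rw [e1, LL_X1, ih, ← Algebra.smul_def, ← Algebra.smul_def, pow_succ']
      simp only [mul_smul_comm, smul_mul_assoc, mul_assoc]

theorem LL_p2 (y x z : C) (p : F[X]) (c : MvPolynomial (Fin 3) F) :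
    LL y x z (Polynomial.aeval (MvPolynomial.X 2) p * c) =
      LL y x z c * Polynomial.aeval y p := by
  induction p using Polynomial.induction_on' with
  | add p q hp hq => rw [map_add, map_add, add_mul, map_add, hp, hq, mul_add]
  | monomial n a =>
    rw [Polynomial.aeval_monomial, Polynomial.aeval_monomial]
    induction n with
    | zero =>
      rw [pow_zero, pow_zero, mul_one, mul_one, ← Algebra.smul_def, ← Algebra.commutes,
        ← Algebra.smul_def, map_smul]
    | succ n ih =>
      have e1 : algebraMap F (MvPolynomial (Fin 3) F) a * MvPolynomial.X 2 ^ (n + 1) * c =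
          MvPolynomial.X 2 * (algebraMap F (MvPolynomial (Fin 3) F) a *
            MvPolynomial.X 2 ^ n * c) := by ring
      rw [e1, LL_X2, ih, ← Algebra.smul_def, ← Algebra.smul_def, pow_succ]
      simp only [mul_smul_comm, smul_mul_assoc, mul_assoc]

theorem LL_p0 (y x z : C) (p : F[X]) (c : MvPolynomial (Fin 3) F) :
    LL y x z (Polynomial.aeval (MvPolynomial.X 0) p * c) =
      LL y (x * Polynomial.aeval y p) z c := by
  induction p using Polynomial.induction_on' with
  | add p q hp hq => rw [map_add, map_add, add_mul, map_add, hp, hq, mul_add, LL_add_left]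
  | monomial n a =>
    rw [Polynomial.aeval_monomial, Polynomial.aeval_monomial]
    induction n generalizing x with
    | zero =>
      rw [pow_zero, pow_zero, mul_one, mul_one, ← Algebra.smul_def, ← Algebra.commutes,
        ← Algebra.smul_def, map_smul, LL_smul_left]
    | succ n ih =>
      have e1 : algebraMap F (MvPolynomial (Fin 3) F) a * MvPolynomial.X 0 ^ (n + 1) * c =
          MvPolynomial.X 0 * (algebraMap F (MvPolynomial (Fin 3) F) a *
            MvPolynomial.X 0 ^ n * c) := by ring
      rw [e1, LL_X0, ih, ← Algebra.smul_def, ← Algebra.smul_def, pow_succ']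
      simp only [mul_smul_comm, mul_assoc]

/-- substitution -/
theorem LL_sg (y x z : C) (h : F[X]) (c : MvPolynomial (Fin 3) F) :
    LL y x z (sg h c) = LL (Polynomial.aeval y h) x z c := by
  induction c using MvPolynomial.induction_on' with
  | monomial u a =>
    have e1 : sg h (MvPolynomial.monomial u a) = a • (Polynomial.aeval (MvPolynomial.X 1)
        (h ^ u 1) * (Polynomial.aeval (MvPolynomial.X 0) (h ^ u 0) *
          (Polynomial.aeval (MvPolynomial.X 2) (h ^ u 2) * 1))) := by
      rw [sg, MvPolynomial.aeval_monomial, Finsupp.prod_fintype _ _ (fun i => pow_zero _),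
        Fin.prod_univ_three, Algebra.smul_def]
      simp only [map_pow]
      ring
    rw [e1, map_smul, LL_p1, LL_p0, LL_p2, LL_one, LL_monomial]
    simp only [map_pow, mul_assoc]
  | add p q hp hq => rw [map_add, map_add, map_add, hp, hq]

/-- the first, second and third variable go to `e₁₂`, `diag(t₁, t₀, t₂)`, `e₂₃` -/
noncomputable def eps3 (F : Type) [Field F] :
    FreeAlgebra F (Fin 3) →ₐ[F] Matrix (Fin 3) (Fin 3) (MvPolynomial (Fin 3) F) :=
  FreeAlgebra.lift F ![!![0, 1, 0; 0, 0, 0; 0, 0, 0],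
    !![MvPolynomial.X 1, 0, 0; 0, MvPolynomial.X 0, 0; 0, 0, MvPolynomial.X 2],
    !![0, 0, 0; 0, 0, 1; 0, 0, 0]]

theorem eps_eq_eps3 (g : FreeAlgebra F (Fin 3)) :
    eps F g = (MvPolynomial.aeval ![(X : F[X]), 0, 0]).mapMatrix (eps3 F g) := by
  have h1 : eps F = ((MvPolynomial.aeval ![(X : F[X]), 0, 0]).mapMatrix).comp (eps3 F) := by
    apply FreeAlgebra.hom_ext
    funext i
    fin_cases i
    · simp only [Function.comp, eps, eps3, AlgHom.comp_apply, FreeAlgebra.lift_ι_apply]
      refine Matrix.ext fun i j => ?_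
      fin_cases i <;> fin_cases j <;> simp
    · simp only [Function.comp, eps, eps3, AlgHom.comp_apply, FreeAlgebra.lift_ι_apply]
      refine Matrix.ext fun i j => ?_
      fin_cases i <;> fin_cases j <;> simp
    · simp only [Function.comp, eps, eps3, AlgHom.comp_apply, FreeAlgebra.lift_ι_apply]
      refine Matrix.ext fun i j => ?_
      fin_cases i <;> fin_cases j <;> simp
  rw [h1]
  rfl

theorem eps3_mul0 (h : FreeAlgebra F (Fin 3)) :
    eps3 F (FreeAlgebra.ι F 0 * h) 0 2 = eps3 F h 1 2 ∧
    eps3 F (FreeAlgebra.ι F 0 * h) 1 2 = 0 ∧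
    eps3 F (FreeAlgebra.ι F 0 * h) 2 2 = 0 := by
  rw [map_mul]
  refine ⟨?_, ?_, ?_⟩ <;>
    rw [Matrix.mul_apply, Fin.sum_univ_three] <;> simp [eps3]

theorem eps3_mul1 (h : FreeAlgebra F (Fin 3)) :
    eps3 F (FreeAlgebra.ι F 1 * h) 0 2 = MvPolynomial.X 1 * eps3 F h 0 2 ∧
    eps3 F (FreeAlgebra.ι F 1 * h) 1 2 = MvPolynomial.X 0 * eps3 F h 1 2 ∧
    eps3 F (FreeAlgebra.ι F 1 * h) 2 2 = MvPolynomial.X 2 * eps3 F h 2 2 := by
  rw [map_mul]
  refine ⟨?_, ?_, ?_⟩ <;>
    rw [Matrix.mul_apply, Fin.sum_univ_three] <;> simp [eps3]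

theorem eps3_mul2 (h : FreeAlgebra F (Fin 3)) :
    eps3 F (FreeAlgebra.ι F 2 * h) 0 2 = 0 ∧
    eps3 F (FreeAlgebra.ι F 2 * h) 1 2 = eps3 F h 2 2 ∧
    eps3 F (FreeAlgebra.ι F 2 * h) 2 2 = 0 := by
  rw [map_mul]
  refine ⟨?_, ?_, ?_⟩ <;>
    rw [Matrix.mul_apply, Fin.sum_univ_three] <;> simp [eps3]

/-- evaluation -/
noncomputable def evx (F : Type) [Field F] {C : Type} [Ring C] [Algebra F C] (x y z : C) :
    FreeAlgebra F (Fin 3) →ₐ[F] C := FreeAlgebra.lift F ![x, y, z]

theorem evx0 (x y z : C) (h : FreeAlgebra F (Fin 3)) :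
    evx F x y z (FreeAlgebra.ι F 0 * h) = x * evx F x y z h := by
  rw [map_mul, evx, FreeAlgebra.lift_ι_apply]; rfl

theorem evx1 (x y z : C) (h : FreeAlgebra F (Fin 3)) :
    evx F x y z (FreeAlgebra.ι F 1 * h) = y * evx F x y z h := by
  rw [map_mul, evx, FreeAlgebra.lift_ι_apply]; rfl

theorem evx2 (x y z : C) (h : FreeAlgebra F (Fin 3)) :
    evx F x y z (FreeAlgebra.ι F 2 * h) = z * evx F x y z h := by
  rw [map_mul, evx, FreeAlgebra.lift_ι_apply]; rfl

/-- the exchange of the first and the third variable -/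
noncomputable def swp (F : Type) [Field F] : FreeAlgebra F (Fin 3) →ₐ[F] FreeAlgebra F (Fin 3) :=
  FreeAlgebra.lift F ![FreeAlgebra.ι F 2, FreeAlgebra.ι F 1, FreeAlgebra.ι F 0]

theorem evx_swp (x y z : C) (h : FreeAlgebra F (Fin 3)) :
    evx F z y x (swp F h) = evx F x y z h := by
  have h1 : (evx F z y x).comp (swp F) = evx F x y z := by
    apply FreeAlgebra.hom_ext
    funext i
    fin_cases i <;> simp [evx, swp]
  rw [← h1]
  rfl

theorem swp0 (h : FreeAlgebra F (Fin 3)) :
    swp F (FreeAlgebra.ι F 0 * h) = FreeAlgebra.ι F 2 * swp F h := by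
  rw [map_mul]
  congr 1
  rw [swp, FreeAlgebra.lift_ι_apply]; rfl

theorem swp1 (h : FreeAlgebra F (Fin 3)) :
    swp F (FreeAlgebra.ι F 1 * h) = FreeAlgebra.ι F 1 * swp F h := by
  rw [map_mul]
  congr 1
  rw [swp, FreeAlgebra.lift_ι_apply]; rfl

theorem swp2 (h : FreeAlgebra F (Fin 3)) :
    swp F (FreeAlgebra.ι F 2 * h) = FreeAlgebra.ι F 0 * swp F h := by
  rw [map_mul]
  congr 1
  rw [swp, FreeAlgebra.lift_ι_apply]; rfl

theorem mem3 {X Y Z E : Submodule F C} (h : X * Y * Z ≤ E) {a b c : C} (ha : a ∈ X) (hb : b ∈ Y)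
    (hc : c ∈ Z) : a * b * c ∈ E :=
  h (Submodule.mul_mem_mul (Submodule.mul_mem_mul ha hb) hc)

/-- the statement proved by induction -/
def Q1 (X Z E : Submodule F C) (x y z : C) (g : FreeAlgebra F (Fin 3)) : Prop :=
  (∀ s ∈ X, ∀ r ∈ Z, s * r * evx F x y z g - LL y s r (eps3 F g 2 2) ∈ E) ∧
  (∀ s ∈ X, s * (evx F x y z g - evx F x y 0 g) - LL y s z (eps3 F g 1 2) ∈ E) ∧
  evx F x y z g - evx F x y 0 g ∈ Z

theorem exp1 {X Z E : Submodule F C} (hX : TS X) (hZ : TS Z) (hE : TS E)
    (h1 : X * X * Z ≤ E) (h2 : X * Z * X ≤ E) (h3 : X * Z * Z ≤ E) {x y z : C} (hx : x ∈ X)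
    (hz : z ∈ Z) (g : FreeAlgebra F (Fin 3)) : Q1 X Z E x y z g := by
  have key : ∀ g h : FreeAlgebra F (Fin 3), Q1 X Z E x y z h → Q1 X Z E x y z (g * h) := by
    intro g
    induction g using FreeAlgebra.induction with
    | grade0 r =>
      intro h hh
      obtain ⟨a1, a2, a3⟩ := hh
      rw [← Algebra.smul_def]
      have e1 : ∀ i j, eps3 F (r • h) i j = r • eps3 F h i j := by
        intro i j
        rw [map_smul]
        rfl
      refine ⟨fun s hs r' hr' => ?_, fun s hs => ?_, ?_⟩
      · rw [e1, map_smul, map_smul, mul_smul_comm, ← smul_sub]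
        exact E.smul_mem r (a1 s hs r' hr')
      · rw [e1, map_smul, map_smul, map_smul, ← smul_sub, mul_smul_comm, ← smul_sub]
        exact E.smul_mem r (a2 s hs)
      · rw [map_smul, map_smul, ← smul_sub]
        exact Z.smul_mem r a3
    | grade1 i =>
      intro h hh
      obtain ⟨a1, a2, a3⟩ := hh
      fin_cases i
      · obtain ⟨e1, e2, e3⟩ := eps3_mul0 h
        refine ⟨fun s hs r' hr' => ?_, fun s hs => ?_, ?_⟩
        · change s * r' * evx F x y z (FreeAlgebra.ι F 0 * h) -
            LL y s r' (eps3 F (FreeAlgebra.ι F 0 * h) 2 2) ∈ E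
          rw [e3, map_zero, sub_zero, evx0, ← mul_assoc]
          exact hE.1 _ (mem3 h2 hs hr' hx) _
        · change s * (evx F x y z (FreeAlgebra.ι F 0 * h) - evx F x y 0 (FreeAlgebra.ι F 0 * h)) -
            LL y s z (eps3 F (FreeAlgebra.ι F 0 * h) 1 2) ∈ E
          rw [e2, map_zero, sub_zero, evx0, evx0, ← mul_sub, ← mul_assoc]
          exact mem3 h1 hs hx a3
        · change evx F x y z (FreeAlgebra.ι F 0 * h) - evx F x y 0 (FreeAlgebra.ι F 0 * h) ∈ Z
          rw [evx0, evx0, ← mul_sub]
          exact hZ.2 _ a3 x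
      · obtain ⟨e1, e2, e3⟩ := eps3_mul1 h
        refine ⟨fun s hs r' hr' => ?_, fun s hs => ?_, ?_⟩
        · change s * r' * evx F x y z (FreeAlgebra.ι F 1 * h) -
            LL y s r' (eps3 F (FreeAlgebra.ι F 1 * h) 2 2) ∈ E
          rw [e3, LL_X2', evx1]
          have := a1 s hs (r' * y) (hZ.1 _ hr' y)
          have e : s * r' * (y * evx F x y z h) = s * (r' * y) * evx F x y z h := by noncomm_ring
          rw [e]
          exact this
        · change s * (evx F x y z (FreeAlgebra.ι F 1 * h) - evx F x y 0 (FreeAlgebra.ι F 1 * h)) -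
            LL y s z (eps3 F (FreeAlgebra.ι F 1 * h) 1 2) ∈ E
          rw [e2, LL_X0, evx1, evx1, ← mul_sub, ← mul_assoc]
          exact a2 (s * y) (hX.1 _ hs y)
        · change evx F x y z (FreeAlgebra.ι F 1 * h) - evx F x y 0 (FreeAlgebra.ι F 1 * h) ∈ Z
          rw [evx1, evx1, ← mul_sub]
          exact hZ.2 _ a3 y
      · obtain ⟨e1, e2, e3⟩ := eps3_mul2 h
        refine ⟨fun s hs r' hr' => ?_, fun s hs => ?_, ?_⟩
        · change s * r' * evx F x y z (FreeAlgebra.ι F 2 * h) -
            LL y s r' (eps3 F (FreeAlgebra.ι F 2 * h) 2 2) ∈ E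
          rw [e3, map_zero, sub_zero, evx2, ← mul_assoc]
          exact hE.1 _ (mem3 h3 hs hr' hz) _
        · change s * (evx F x y z (FreeAlgebra.ι F 2 * h) - evx F x y 0 (FreeAlgebra.ι F 2 * h)) -
            LL y s z (eps3 F (FreeAlgebra.ι F 2 * h) 1 2) ∈ E
          rw [e2, evx2, evx2, zero_mul, sub_zero, ← mul_assoc]
          exact a1 s hs z hz
        · change evx F x y z (FreeAlgebra.ι F 2 * h) - evx F x y 0 (FreeAlgebra.ι F 2 * h) ∈ Z
          rw [evx2, evx2, zero_mul, sub_zero]
          exact hZ.1 _ hz _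
    | mul g g' hg hg' =>
      intro h hh
      rw [mul_assoc]
      exact hg _ (hg' h hh)
    | add g g' hg hg' =>
      intro h hh
      obtain ⟨a1, a2, a3⟩ := hg h hh
      obtain ⟨b1, b2, b3⟩ := hg' h hh
      rw [add_mul]
      have e1 : ∀ i j, eps3 F (g * h + g' * h) i j = eps3 F (g * h) i j + eps3 F (g' * h) i j := by
        intro i j
        rw [map_add]
        rfl
      refine ⟨fun s hs r' hr' => ?_, fun s hs => ?_, ?_⟩
      · rw [e1, map_add, map_add]
        have := add_mem (a1 s hs r' hr') (b1 s hs r' hr')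
        convert this using 1
        noncomm_ring
      · rw [e1, map_add, map_add, map_add]
        have := add_mem (a2 s hs) (b2 s hs)
        convert this using 1
        noncomm_ring
      · rw [map_add, map_add]
        have := add_mem a3 b3
        convert this using 1
        noncomm_ring
  have h0 : Q1 X Z E x y z 1 := by
    refine ⟨fun s hs r' hr' => ?_, fun s hs => ?_, ?_⟩
    · rw [map_one, map_one]
      have : (1 : Matrix (Fin 3) (Fin 3) (MvPolynomial (Fin 3) F)) 2 2 = 1 := by simp
      rw [this, LL_one, mul_one, sub_self]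
      exact zero_mem _
    · rw [map_one, map_one, map_one]
      have : (1 : Matrix (Fin 3) (Fin 3) (MvPolynomial (Fin 3) F)) 1 2 = 0 := by simp
      rw [this, map_zero, sub_self, mul_zero, sub_zero]
      exact zero_mem _
    · rw [map_one, map_one, sub_self]
      exact zero_mem _
  have := key g 1 h0
  rwa [mul_one] at this

/-- the bilinear part -/
def Q0 (E : Submodule F C) (x y z : C) (g : FreeAlgebra F (Fin 3)) : Prop :=
  evx F x y z g - evx F x y 0 g - evx F 0 y z g + evx F 0 y 0 g -
    LL y x z (eps3 F g 0 2) - LL y z x (eps3 F (swp F g) 0 2) ∈ E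

theorem exp0 {X Z E : Submodule F C} (hX : TS X) (hZ : TS Z) (hE : TS E)
    (h1 : X * X * Z ≤ E) (h2 : X * Z * X ≤ E) (h3 : X * Z * Z ≤ E)
    (h4 : Z * Z * X ≤ E) (h5 : Z * X * Z ≤ E) (h6 : Z * X * X ≤ E)
    {x y z : C} (hx : x ∈ X)
    (hz : z ∈ Z) (g : FreeAlgebra F (Fin 3)) : Q0 E x y z g := by
  have key : ∀ g h : FreeAlgebra F (Fin 3), Q0 E x y z h → Q0 E x y z (g * h) := by
    intro g
    induction g using FreeAlgebra.induction with
    | grade0 r =>
      intro h hh
      rw [← Algebra.smul_def]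
      have e1 : ∀ (h : FreeAlgebra F (Fin 3)) i j, eps3 F (r • h) i j = r • eps3 F h i j := by
        intro h i j
        rw [map_smul]
        rfl
      have e2 : swp F (r • h) = r • swp F h := map_smul _ _ _
      unfold Q0 at hh ⊢
      rw [e2, e1, e1]
      simp only [map_smul]
      rw [← smul_sub, ← smul_sub, ← smul_add, ← smul_sub, ← smul_sub]
      exact E.smul_mem r hh
    | grade1 i =>
      intro h hh
      unfold Q0 at hh ⊢
      fin_cases i
      · obtain ⟨e1, e2, e3⟩ := eps3_mul0 h
        obtain ⟨f1, f2, f3⟩ := eps3_mul2 (swp F h)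
        change evx F x y z (FreeAlgebra.ι F 0 * h) - evx F x y 0 (FreeAlgebra.ι F 0 * h) -
          evx F 0 y z (FreeAlgebra.ι F 0 * h) + evx F 0 y 0 (FreeAlgebra.ι F 0 * h) -
          LL y x z (eps3 F (FreeAlgebra.ι F 0 * h) 0 2) -
          LL y z x (eps3 F (swp F (FreeAlgebra.ι F 0 * h)) 0 2) ∈ E
        rw [swp0, e1, f1, evx0, evx0, evx0, evx0, zero_mul, zero_mul, map_zero, sub_zero, sub_zero,
          add_zero, ← mul_sub]
        exact (exp1 hX hZ hE h1 h2 h3 hx hz h).2.1 x hx
      · obtain ⟨e1, e2, e3⟩ := eps3_mul1 h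
        obtain ⟨f1, f2, f3⟩ := eps3_mul1 (swp F h)
        change evx F x y z (FreeAlgebra.ι F 1 * h) - evx F x y 0 (FreeAlgebra.ι F 1 * h) -
          evx F 0 y z (FreeAlgebra.ι F 1 * h) + evx F 0 y 0 (FreeAlgebra.ι F 1 * h) -
          LL y x z (eps3 F (FreeAlgebra.ι F 1 * h) 0 2) -
          LL y z x (eps3 F (swp F (FreeAlgebra.ι F 1 * h)) 0 2) ∈ E
        rw [swp1, e1, f1, evx1, evx1, evx1, evx1, LL_X1, LL_X1]
        have := hE.2 _ hh y
        convert this using 1
        noncomm_ring
      · obtain ⟨e1, e2, e3⟩ := eps3_mul2 h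
        obtain ⟨f1, f2, f3⟩ := eps3_mul0 (swp F h)
        change evx F x y z (FreeAlgebra.ι F 2 * h) - evx F x y 0 (FreeAlgebra.ι F 2 * h) -
          evx F 0 y z (FreeAlgebra.ι F 2 * h) + evx F 0 y 0 (FreeAlgebra.ι F 2 * h) -
          LL y x z (eps3 F (FreeAlgebra.ι F 2 * h) 0 2) -
          LL y z x (eps3 F (swp F (FreeAlgebra.ι F 2 * h)) 0 2) ∈ E
        rw [swp2, e1, f1, evx2, evx2, evx2, evx2, zero_mul, zero_mul, map_zero, sub_zero, sub_zero,
          add_zero, ← mul_sub]
        have := (exp1 hZ hX hE h4 h5 h6 (y := y) hz hx (swp F h)).2.1 z hz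
        rwa [evx_swp, evx_swp] at this
    | mul g g' hg hg' =>
      intro h hh
      rw [mul_assoc]
      exact hg _ (hg' h hh)
    | add g g' hg hg' =>
      intro h hh
      have b1 := hg h hh
      have b2 := hg' h hh
      rw [add_mul]
      have e1 : ∀ (g g' : FreeAlgebra F (Fin 3)) i j,
          eps3 F (g + g') i j = eps3 F g i j + eps3 F g' i j := by
        intro g g' i j
        rw [map_add]
        rfl
      unfold Q0 at b1 b2 ⊢
      rw [map_add (swp F), e1, e1]
      simp only [map_add]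
      have := add_mem b1 b2
      convert this using 1
      noncomm_ring
  have h0 : Q0 E x y z 1 := by
    have e1 : (1 : Matrix (Fin 3) (Fin 3) (MvPolynomial (Fin 3) F)) 0 2 = 0 := by simp
    unfold Q0
    rw [map_one (swp F)]
    simp only [map_one]
    rw [e1, map_zero, map_zero]
    simp
  have := key g 1 h0
  rwa [mul_one] at this

end Pool.Agent.T2h8.AL
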