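import Mathlib

/-!
# Ideals of a polynomial ring in three variables which are stable under simultaneous substitutions

Let `F` be a finite field, `I` an ideal of `F[t₀, t₁, t₂]` which is closed under the substitutions
`tᵢ ↦ h(tᵢ)`, `h` a polynomial in one variable without constant term. If `I` contains a polynomial
`c` with `c(t₀, 0, 0) ≠ 0` then it contains a polynomial which is monic in `t₀`.
-/

set_option autoImplicit false
set_option linter.style.haveILetI false

namespace Pool.Agent.T2h8.AL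

open Polynomial

/-- the substitution `tᵢ ↦ h(tᵢ)` -/
noncomputable def sg {F : Type} [Field F] (h : F[X]) :
    MvPolynomial (Fin 3) F →ₐ[F] MvPolynomial (Fin 3) F :=
  MvPolynomial.aeval fun i => Polynomial.aeval (MvPolynomial.X i) h

/-- `F[t₀, t₁, t₂] = F[t₁, t₂][t₀]` -/
noncomputable abbrev fse (F : Type) [Field F] :
    MvPolynomial (Fin 3) F ≃ₐ[F] Polynomial (MvPolynomial (Fin 2) F) :=
  MvPolynomial.finSuccEquiv F 2

section key

variable {F : Type} [Field F] {K : Type} [Field K] [Algebra F K]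
variable (φ : MvPolynomial (Fin 3) F →ₐ[F] K)
variable (hmonic : ∀ c, (fse F c).Monic → φ c ≠ 0)

include hmonic in
theorem tau_ne : φ (MvPolynomial.X 0) ≠ 0 := by
  apply hmonic
  rw [fse, MvPolynomial.finSuccEquiv_X_zero]
  exact monic_X

theorem adj_den (d : K) (hd : d ∈ Algebra.adjoin F ({φ (MvPolynomial.X 1), φ (MvPolynomial.X 2),
      (φ (MvPolynomial.X 0))⁻¹} : Set K)) (hne : φ (MvPolynomial.X 0) ≠ 0) :
    ∃ n : ℕ, ∃ c : MvPolynomial (Fin 3) F, d * φ (MvPolynomial.X 0) ^ n = φ c ∧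
      (fse F c).natDegree ≤ n := by
  have h1 : (1 : Fin 3) = Fin.succ 0 := rfl
  have h2 : (2 : Fin 3) = Fin.succ 1 := rfl
  induction hd using Algebra.adjoin_induction with
  | mem x hx =>
    rcases hx with rfl | rfl | hx
    · refine ⟨0, MvPolynomial.X 1, by simp, ?_⟩
      rw [fse, h1, MvPolynomial.finSuccEquiv_X_succ, natDegree_C]
    · refine ⟨0, MvPolynomial.X 2, by simp, ?_⟩
      rw [fse, h2, MvPolynomial.finSuccEquiv_X_succ, natDegree_C]
    · rw [Set.mem_singleton_iff] at hx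
      subst hx
      refine ⟨1, 1, by simp [hne], ?_⟩
      rw [map_one, natDegree_one]
      omega
  | algebraMap r =>
    refine ⟨0, algebraMap F _ r, by rw [AlgHom.commutes]; simp, ?_⟩
    rw [AlgEquiv.commutes]
    rw [Polynomial.algebraMap_apply, natDegree_C]
  | add x y _ _ hx hy =>
    obtain ⟨n, c, hc, hcn⟩ := hx
    obtain ⟨m, d, hd, hdn⟩ := hy
    refine ⟨n + m, c * MvPolynomial.X 0 ^ m + d * MvPolynomial.X 0 ^ n, ?_, ?_⟩
    · rw [map_add, map_mul, map_mul, map_pow, map_pow, ← hc, ← hd]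
      ring
    · have hX0 : fse F (MvPolynomial.X 0) = X := MvPolynomial.finSuccEquiv_X_zero
      rw [map_add, map_mul, map_mul, map_pow, map_pow, hX0]
      refine (natDegree_add_le _ _).trans (max_le ?_ ?_)
      · refine natDegree_mul_le.trans ?_
        rw [natDegree_X_pow]
        omega
      · refine natDegree_mul_le.trans ?_
        rw [natDegree_X_pow]
        omega
  | mul x y _ _ hx hy =>
    obtain ⟨n, c, hc, hcn⟩ := hx
    obtain ⟨m, d, hd, hdn⟩ := hy
    refine ⟨n + m, c * d, ?_, ?_⟩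
    · rw [map_mul, ← hc, ← hd]
      ring
    · rw [map_mul]
      exact natDegree_mul_le.trans (by omega)

include hmonic in
theorem tau_not_mem : φ (MvPolynomial.X 0) ∉ Algebra.adjoin F ({φ (MvPolynomial.X 1),
      φ (MvPolynomial.X 2), (φ (MvPolynomial.X 0))⁻¹} : Set K) := by
  intro h
  obtain ⟨n, c, hc, hn⟩ := adj_den φ _ h (tau_ne φ hmonic)
  apply hmonic (MvPolynomial.X 0 ^ (n + 1) - c)
  · have hX0 : fse F (MvPolynomial.X 0) = X := MvPolynomial.finSuccEquiv_X_zero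
    rw [map_sub, map_pow, hX0]
    refine (Polynomial.monic_X_pow (n + 1)).sub_of_left ?_
    rw [Polynomial.degree_X_pow]
    refine lt_of_le_of_lt (Polynomial.degree_le_natDegree) ?_
    exact_mod_cast Nat.lt_succ_of_le hn
  · rw [map_sub, map_pow, ← hc, pow_succ]
    ring

/-- the monomial characters -/
noncomputable def chi (μ : Fin 3 →₀ ℕ) : F[X] →* K where
  toFun h := ∏ i, (Polynomial.aeval (φ (MvPolynomial.X i)) h) ^ μ i
  map_one' := by simp
  map_mul' h k := by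
    rw [← Finset.prod_mul_distrib]
    refine Finset.prod_congr rfl fun i _ => ?_
    rw [map_mul, mul_pow]

theorem phi_sg (h : F[X]) (c : MvPolynomial (Fin 3) F) : φ (sg h c) =
    ∑ μ ∈ c.support, algebraMap F K (c.coeff μ) *
      ∏ i, (Polynomial.aeval (φ (MvPolynomial.X i)) h) ^ μ i := by
  have h1 : φ (sg h c) = MvPolynomial.aeval
      (fun i => Polynomial.aeval (φ (MvPolynomial.X i)) h) c := by
    have : φ.comp (sg h) = MvPolynomial.aeval
      (fun i => Polynomial.aeval (φ (MvPolynomial.X i)) h) := by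
      apply MvPolynomial.algHom_ext
      intro i
      rw [AlgHom.comp_apply, sg, MvPolynomial.aeval_X, MvPolynomial.aeval_X,
        ← Polynomial.aeval_algHom_apply]
    rw [← this]
    rfl
  rw [h1, MvPolynomial.aeval_def, MvPolynomial.eval₂_eq']

include hmonic in
theorem chi_key [Finite F] : ∃ θ : F[X], θ.coeff 0 = 0 ∧
    Polynomial.aeval (φ (MvPolynomial.X 0)) θ ≠ 0 ∧
    ∀ (e : ℕ) (μ : Fin 3 →₀ ℕ), chi φ μ = chi φ (Finsupp.single 0 e) → μ = Finsupp.single 0 e := by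
  classical
  set τ : Fin 3 → K := fun i => φ (MvPolynomial.X i) with hτ
  have hne : τ 0 ≠ 0 := tau_ne φ hmonic
  set D : Subalgebra F K := Algebra.adjoin F ({τ 1, τ 2, (τ 0)⁻¹} : Set K) with hD
  have hnm : τ 0 ∉ D := tau_not_mem φ hmonic
  have hm1 : τ 1 ∈ D := Algebra.subset_adjoin (by simp)
  have hm2 : τ 2 ∈ D := Algebra.subset_adjoin (by simp)
  have hmu : (τ 0)⁻¹ ∈ D := Algebra.subset_adjoin (by simp)
  let u : D := ⟨(τ 0)⁻¹, hmu⟩
  have hu : ¬ IsUnit u := by
    rintro ⟨v, hv⟩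
    have h1 : (u : K) * ((v⁻¹ : Dˣ) : D) = 1 := by
      have : u * ((v⁻¹ : Dˣ) : D) = 1 := by rw [← hv]; exact v.mul_inv
      have h2 := congrArg (Subtype.val) this
      exact h2
    have h2 : (((v⁻¹ : Dˣ) : D) : K) = τ 0 := by
      have h3 : (u : K) = (τ 0)⁻¹ := rfl
      rw [h3] at h1
      field_simp at h1
      exact h1
    apply hnm
    rw [← h2]
    exact Subtype.property _
  obtain ⟨𝔮, h𝔮, hu𝔮⟩ := exists_max_ideal_of_mem_nonunits hu
  haveI := h𝔮
  haveI hft : Algebra.FiniteType F D := by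
    rw [← Subalgebra.fg_iff_finiteType]
    rw [hD]
    have : ({τ 1, τ 2, (τ 0)⁻¹} : Set K) = (({τ 1, τ 2, (τ 0)⁻¹} : Finset K) : Set K) := by simp
    rw [this]
    exact Subalgebra.fg_adjoin_finset _
  letI : Field (D ⧸ 𝔮) := Ideal.Quotient.field 𝔮
  haveI : Algebra.FiniteType F (D ⧸ 𝔮) :=
    Algebra.FiniteType.of_surjective (Ideal.Quotient.mkₐ F 𝔮) (Ideal.Quotient.mkₐ_surjective F 𝔮)
  haveI : Module.Finite F (D ⧸ 𝔮) := finite_of_finite_type_of_isJacobsonRing F (D ⧸ 𝔮)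
  haveI : Finite (D ⧸ 𝔮) := Module.finite_of_finite F
  haveI : Fintype (D ⧸ 𝔮) := Fintype.ofFinite _
  set Q := Fintype.card (D ⧸ 𝔮) with hQ
  have hQ2 : 2 ≤ Q := Fintype.one_lt_card
  have hfr : ∀ d : D, d ^ Q - d ∈ 𝔮 := by
    intro d
    rw [← Ideal.Quotient.eq_zero_iff_mem, map_sub, map_pow, FiniteField.pow_card, sub_self]
  have hone : (1 : D) ∉ 𝔮 := (Ideal.ne_top_iff_one 𝔮).1 h𝔮.ne_top
  -- `θ`
  let θ : F[X] := X ^ Q - X
  have hθ : ∀ x : K, Polynomial.aeval x θ = x ^ Q - x := by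
    intro x
    simp [θ]
  have hθD : ∀ d : D, ∃ q ∈ 𝔮, (d : K) ^ Q - d = (q : K) := by
    intro d
    refine ⟨d ^ Q - d, hfr d, ?_⟩
    push_cast
    ring
  obtain ⟨q1, hq1, hq1'⟩ := hθD ⟨τ 1, hm1⟩
  obtain ⟨q2, hq2, hq2'⟩ := hθD ⟨τ 2, hm2⟩
  change τ 1 ^ Q - τ 1 = _ at hq1'
  change τ 2 ^ Q - τ 2 = _ at hq2'
  -- `ω`
  let ω : D := 1 - u ^ (Q - 1) + u ^ Q
  have hω1 : (τ 0) ^ Q - τ 0 + 1 = τ 0 ^ Q * (ω : K) := by
    have h1 : (ω : K) = 1 - (τ 0)⁻¹ ^ (Q - 1) + (τ 0)⁻¹ ^ Q := by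
      simp [ω, u]
    rw [h1]
    obtain ⟨k, hk⟩ : ∃ k, Q = k + 1 := ⟨Q - 1, by omega⟩
    rw [hk, Nat.add_sub_cancel]
    have h2 : τ 0 * (τ 0)⁻¹ = 1 := mul_inv_cancel₀ hne
    have h3 : τ 0 ^ k * (τ 0)⁻¹ ^ k = 1 := by rw [← mul_pow, h2, one_pow]
    have h4 : τ 0 ^ (k + 1) * (τ 0)⁻¹ ^ (k + 1) = 1 := by rw [← mul_pow, h2, one_pow]
    calc τ 0 ^ (k + 1) - τ 0 + 1 = τ 0 ^ (k + 1) - τ 0 * (τ 0 ^ k * (τ 0)⁻¹ ^ k)
          + τ 0 ^ (k + 1) * (τ 0)⁻¹ ^ (k + 1) := by rw [h3, h4, mul_one]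
      _ = _ := by ring
  -- congruences
  have hmk : ∀ d : D, d ∈ 𝔮 ↔ Ideal.Quotient.mk 𝔮 d = 0 := fun d =>
    (Ideal.Quotient.eq_zero_iff_mem).symm
  have hmku : Ideal.Quotient.mk 𝔮 u = 0 := (hmk u).1 hu𝔮
  have hmkω : Ideal.Quotient.mk 𝔮 ω = 1 := by
    simp only [ω, map_add, map_sub, map_pow, map_one, hmku]
    rw [zero_pow (by omega), zero_pow (by omega)]
    ring
  have hmk1 : Ideal.Quotient.mk 𝔮 (1 + q1) = 1 := by rw [map_add, map_one, (hmk q1).1 hq1, add_zero]
  have hmk2 : Ideal.Quotient.mk 𝔮 (1 + q2) = 1 := by rw [map_add, map_one, (hmk q2).1 hq2, add_zero]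
  have hωne : (ω : K) ≠ 0 := by
    intro h
    have h1 : ω = 0 := Subtype.ext h
    rw [h1, map_zero] at hmkω
    exact zero_ne_one hmkω
  have hθ0 : Polynomial.aeval (τ 0) θ ≠ 0 := by
    rw [hθ]
    intro h
    -- then `τ ^ Q = τ`, so `u ^ Q = u`, `u ^ (Q-1) = 1`
    have h1 : (τ 0)⁻¹ ^ (Q - 1) = 1 := by
      obtain ⟨k, hk⟩ : ∃ k, Q = k + 1 := ⟨Q - 1, by omega⟩
      rw [hk, Nat.add_sub_cancel]
      rw [hk, sub_eq_zero, pow_succ] at h
      have h2 : τ 0 ^ k = 1 := by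
        apply mul_right_cancel₀ hne
        rw [h, one_mul]
      rw [inv_pow, h2, inv_one]
    have h2 : u ^ (Q - 1) = 1 := Subtype.ext h1
    have h3 : (Ideal.Quotient.mk 𝔮 u) ^ (Q - 1) = 1 := by rw [← map_pow, h2, map_one]
    rw [hmku, zero_pow (by omega)] at h3
    exact zero_ne_one h3
  refine ⟨θ, ?_, hθ0, ?_⟩
  · simp only [θ, coeff_sub, coeff_X_zero, sub_zero, coeff_X_pow]
    rw [if_neg (by omega)]
  · intro e μ hμ
    have hchi : ∀ (ν : Fin 3 →₀ ℕ) (h : F[X]), chi φ ν h = (Polynomial.aeval (τ 0) h) ^ ν 0 *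
        (Polynomial.aeval (τ 1) h) ^ ν 1 * (Polynomial.aeval (τ 2) h) ^ ν 2 := by
      intro ν h
      change ∏ i, (Polynomial.aeval (τ i) h) ^ ν i = _
      rw [Fin.prod_univ_three]
    have ht : ∀ h : F[X], (Polynomial.aeval (τ 0) h) ^ μ 0 *
        (Polynomial.aeval (τ 1) h) ^ μ 1 * (Polynomial.aeval (τ 2) h) ^ μ 2 =
        (Polynomial.aeval (τ 0) h) ^ e := by
      intro h
      rw [← hchi, hμ, hchi]
      simp
    -- first test
    have t1 := ht (θ + 1)
    simp only [map_add, map_one, hθ] at t1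
    rw [hω1, hq1', hq2'] at t1
    -- `(τ^Q ω)^{μ0} (q1+1)^{μ1} (q2+1)^{μ2} = (τ^Q ω)^e`
    have hτQ : τ 0 ^ Q * (u : K) ^ Q = 1 := by
      have : (u : K) = (τ 0)⁻¹ := rfl
      rw [this, ← mul_pow, mul_inv_cancel₀ hne, one_pow]
    have h0 : μ 0 = e := by
      by_contra hne'
      rcases lt_or_gt_of_ne hne' with hlt | hlt
      · obtain ⟨k, hk⟩ : ∃ k, e = μ 0 + (k + 1) := ⟨e - μ 0 - 1, by omega⟩
        rw [hk, pow_add, mul_assoc] at t1
        have t2 := mul_left_cancel₀ (pow_ne_zero _ (mul_ne_zero (pow_ne_zero _ hne) hωne)) t1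
        -- multiply by `u^(Q(k+1))`
        have t3 : (((q1 + 1) ^ μ 1 * (q2 + 1) ^ μ 2 * (u ^ Q) ^ (k + 1) : D) : K) =
            ((ω ^ (k + 1) : D) : K) := by
          push_cast
          rw [t2]
          calc (τ 0 ^ Q * (ω : K)) ^ (k + 1) * ((u : K) ^ Q) ^ (k + 1)
              = (τ 0 ^ Q * (u : K) ^ Q) ^ (k + 1) * (ω : K) ^ (k + 1) := by ring
            _ = _ := by rw [hτQ, one_pow, one_mul]
        have t4 := Subtype.ext t3
        have t5 := congrArg (Ideal.Quotient.mk 𝔮) t4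
        simp only [map_mul, map_pow, hmku, hmkω] at t5
        rw [zero_pow (by omega : Q ≠ 0), zero_pow (Nat.succ_ne_zero k), mul_zero, one_pow] at t5
        exact zero_ne_one t5
      · obtain ⟨k, hk⟩ : ∃ k, μ 0 = e + (k + 1) := ⟨μ 0 - e - 1, by omega⟩
        rw [hk, pow_add, mul_assoc, mul_assoc] at t1
        have t2 : (τ 0 ^ Q * (ω : K)) ^ (k + 1) * (((q1 : K) + 1) ^ μ 1 * ((q2 : K) + 1) ^ μ 2)
            = 1 := by
          apply mul_left_cancel₀ (pow_ne_zero e (mul_ne_zero (pow_ne_zero Q hne) hωne))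
          rw [mul_one]
          exact t1
        have t3 : ((ω ^ (k + 1) * ((q1 + 1) ^ μ 1 * (q2 + 1) ^ μ 2) : D) : K) =
            (((u ^ Q) ^ (k + 1) : D) : K) := by
          push_cast
          calc (ω : K) ^ (k + 1) * (((q1 : K) + 1) ^ μ 1 * ((q2 : K) + 1) ^ μ 2)
              = (τ 0 ^ Q * (u : K) ^ Q) ^ (k + 1) * ((ω : K) ^ (k + 1) *
                (((q1 : K) + 1) ^ μ 1 * ((q2 : K) + 1) ^ μ 2)) := by rw [hτQ, one_pow, one_mul]
            _ = ((τ 0 ^ Q * (ω : K)) ^ (k + 1) * (((q1 : K) + 1) ^ μ 1 * ((q2 : K) + 1) ^ μ 2)) *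
                ((u : K) ^ Q) ^ (k + 1) := by ring
            _ = _ := by rw [t2, one_mul]
        have t4 := Subtype.ext t3
        have t5 := congrArg (Ideal.Quotient.mk 𝔮) t4
        have hmk1' : Ideal.Quotient.mk 𝔮 q1 + 1 = 1 := by rw [(hmk q1).1 hq1, zero_add]
        have hmk2' : Ideal.Quotient.mk 𝔮 q2 + 1 = 1 := by rw [(hmk q2).1 hq2, zero_add]
        simp only [map_mul, map_pow, hmku, hmkω, map_add, map_one, hmk1', hmk2'] at t5
        rw [zero_pow (by omega : Q ≠ 0), zero_pow (Nat.succ_ne_zero k), one_pow, one_pow,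
          one_pow, mul_one, mul_one] at t5
        exact one_ne_zero t5
    -- second test
    have t1' := ht θ
    rw [h0, mul_assoc] at t1'
    have t2 : (Polynomial.aeval (τ 1) θ) ^ μ 1 * (Polynomial.aeval (τ 2) θ) ^ μ 2 = 1 := by
      apply mul_left_cancel₀ (pow_ne_zero e hθ0)
      rw [mul_one]
      exact t1'
    rw [hθ, hθ, hq1', hq2'] at t2
    have t3 : ((q1 ^ μ 1 * q2 ^ μ 2 : D) : K) = ((1 : D) : K) := by
      push_cast
      exact t2
    have t4 := congrArg (Ideal.Quotient.mk 𝔮) (Subtype.ext t3)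
    rw [map_mul, map_pow, map_pow, (hmk q1).1 hq1, (hmk q2).1 hq2,
      map_one (Ideal.Quotient.mk 𝔮)] at t4
    have h1 : μ 1 = 0 := by
      by_contra h
      rw [zero_pow h, zero_mul] at t4
      exact zero_ne_one t4
    have h2 : μ 2 = 0 := by
      by_contra h
      rw [zero_pow h, mul_zero] at t4
      exact zero_ne_one t4
    ext i
    fin_cases i
    · simpa using h0
    · simpa using h1
    · simpa using h2

end key

theorem exists_field {F : Type} [Field F] (D : Type) [CommRing D] [IsDomain D] [Algebra F D]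
    (ψ : MvPolynomial (Fin 3) F →ₐ[F] D) : ∃ (K : Type) (_ : Field K) (_ : Algebra F K)
      (φ : MvPolynomial (Fin 3) F →ₐ[F] K), ∀ c, φ c = 0 ↔ ψ c = 0 := by
  refine ⟨FractionRing D, inferInstance, inferInstance,
    (IsScalarTower.toAlgHom F D (FractionRing D)).comp ψ, fun c => ?_⟩
  have h1 : (IsScalarTower.toAlgHom F D (FractionRing D)).comp ψ c =
    algebraMap D (FractionRing D) (ψ c) := rfl
  rw [h1, ← map_zero (algebraMap D (FractionRing D)), (IsFractionRing.injective D _).eq_iff]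

theorem exists_monic {F : Type} [Field F] [Finite F] (I : Ideal (MvPolynomial (Fin 3) F))
    (hI : ∀ h : F[X], h.coeff 0 = 0 → ∀ c ∈ I, sg h c ∈ I)
    (c0 : MvPolynomial (Fin 3) F) (hc0 : c0 ∈ I)
    (hc0' : MvPolynomial.aeval ![(X : F[X]), 0, 0] c0 ≠ 0) :
    ∃ c ∈ I, (fse F c).Monic := by
  classical
  by_contra hcon
  push Not at hcon
  let J : Ideal (Polynomial (MvPolynomial (Fin 2) F)) := I.comap (fse F).symm.toRingEquiv.toRingHom
  have hJ : ∀ q : Polynomial (MvPolynomial (Fin 2) F), q ∈ J ↔ (fse F).symm q ∈ I := fun q => Iff.rfl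
  let Mo : Submonoid (Polynomial (MvPolynomial (Fin 2) F)) :=
    { carrier := {q | q.Monic}
      mul_mem' := fun ha hb => ha.mul hb
      one_mem' := Polynomial.monic_one }
  have hdisj : Disjoint (J : Set (Polynomial (MvPolynomial (Fin 2) F)))
      (Mo : Set (Polynomial (MvPolynomial (Fin 2) F))) := by
    rw [Set.disjoint_left]
    intro q hq hq'
    apply hcon ((fse F).symm q) ((hJ q).1 hq)
    rw [AlgEquiv.apply_symm_apply]
    exact hq'
  obtain ⟨𝔭, h𝔭, hJ𝔭, hdis⟩ := Ideal.exists_le_prime_disjoint J Mo hdisj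
  haveI := h𝔭
  obtain ⟨K, _, _, φ, hφ1⟩ := exists_field (F := F) (Polynomial (MvPolynomial (Fin 2) F) ⧸ 𝔭)
    ((Ideal.Quotient.mkₐ F 𝔭).comp (fse F).toAlgHom)
  have hφ : ∀ c, φ c = 0 ↔ fse F c ∈ 𝔭 := by
    intro c
    rw [hφ1]
    exact Ideal.Quotient.eq_zero_iff_mem
  have hmonic : ∀ c, (fse F c).Monic → φ c ≠ 0 := by
    intro c hc h
    exact Set.disjoint_left.1 hdis ((hφ c).1 h) hc
  have hφI : ∀ c ∈ I, φ c = 0 := by
    intro c hc
    rw [hφ]
    apply hJ𝔭
    rw [hJ, AlgEquiv.symm_apply_apply]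
    exact hc
  obtain ⟨θ, hθ0, hθne, hkey⟩ := chi_key φ hmonic
  -- a monomial `t₀ ^ e` of `c0`
  obtain ⟨e, he⟩ : ∃ e : ℕ, c0.coeff (Finsupp.single 0 e) ≠ 0 := by
    by_contra hall
    push Not at hall
    apply hc0'
    rw [MvPolynomial.aeval_def, MvPolynomial.eval₂_eq']
    apply Finset.sum_eq_zero
    intro μ _
    rw [Fin.prod_univ_three]
    by_cases h1 : μ 1 = 0
    · by_cases h2 : μ 2 = 0
      · have : μ = Finsupp.single 0 (μ 0) := by
          ext i
          fin_cases i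
          · simp
          · simpa using h1
          · simpa using h2
        rw [this, hall, map_zero, zero_mul]
      · have : (![(X : F[X]), 0, 0] 2) ^ μ 2 = 0 := by
          simp [h2]
        rw [this, mul_zero, mul_zero]
    · have : (![(X : F[X]), 0, 0] 1) ^ μ 1 = 0 := by
        simp [h1]
      rw [this, mul_zero, zero_mul, mul_zero]
  -- Dedekind
  have hrel : ∀ h : F[X], ∑ μ ∈ c0.support, (algebraMap F K (c0.coeff μ) *
      ∏ i, (Polynomial.aeval (φ (MvPolynomial.X i)) θ) ^ μ i) * chi φ μ h = 0 := by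
    intro h
    have h1 : φ (sg (θ * h) c0) = 0 := by
      apply hφI
      apply hI _ _ _ hc0
      rw [Polynomial.mul_coeff_zero, hθ0, zero_mul]
    rw [phi_sg] at h1
    rw [← h1]
    refine Finset.sum_congr rfl fun μ _ => ?_
    have hchi : chi φ μ h = ∏ i, (Polynomial.aeval (φ (MvPolynomial.X i)) h) ^ μ i := rfl
    rw [hchi, mul_assoc, ← Finset.prod_mul_distrib]
    congr 1
    refine Finset.prod_congr rfl fun i _ => ?_
    rw [map_mul, mul_pow]
  have hli := linearIndependent_monoidHom F[X]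
    K
  rw [linearIndependent_iff'] at hli
  set a : (Fin 3 →₀ ℕ) → K := fun μ =>
    algebraMap F K (c0.coeff μ) *
      ∏ i, (Polynomial.aeval (φ (MvPolynomial.X i)) θ) ^ μ i with ha
  have h2 := hli (c0.support.image (chi φ))
    (fun f => ∑ μ ∈ c0.support with chi φ μ = f, a μ) (by
      funext h
      simp only [Finset.sum_apply, Pi.smul_apply, smul_eq_mul, Pi.zero_apply]
      rw [← hrel h, ← Finset.sum_fiberwise_of_maps_to (s := c0.support)
        (t := c0.support.image (chi φ)) (g := chi φ)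
        (fun μ hμ => Finset.mem_image_of_mem _ hμ)]
      refine Finset.sum_congr rfl fun f _ => ?_
      rw [Finset.sum_mul]
      refine Finset.sum_congr rfl fun μ hμ => ?_
      rw [(Finset.mem_filter.1 hμ).2])
  have hmem : Finsupp.single 0 e ∈ c0.support := MvPolynomial.mem_support_iff.2 he
  have h3 := h2 (chi φ (Finsupp.single 0 e)) (Finset.mem_image_of_mem _ hmem)
  have h4 : c0.support.filter (fun μ => chi φ μ = chi φ (Finsupp.single 0 e)) =
      {Finsupp.single 0 e} := by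
    ext μ
    rw [Finset.mem_filter, Finset.mem_singleton]
    constructor
    · rintro ⟨_, h⟩
      exact hkey e μ h
    · rintro rfl
      exact ⟨hmem, rfl⟩
  rw [h4, Finset.sum_singleton, ha] at h3
  rcases mul_eq_zero.1 h3 with h5 | h5
  · apply he
    exact (algebraMap F K).injective
      (by rw [h5, map_zero])
  · rw [Fin.prod_univ_three] at h5
    simp only [Finsupp.single_eq_same] at h5
    have h6 : (Finsupp.single (0 : Fin 3) e) 1 = 0 := by simp
    have h7 : (Finsupp.single (0 : Fin 3) e) 2 = 0 := by simp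
    rw [h6, h7, pow_zero, pow_zero, mul_one, mul_one] at h5
    exact pow_ne_zero e hθne h5

end Pool.Agent.T2h8.AL
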