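import Pool.Agent.T2h8.AL.PI3
import Pool.Agent.T2h8.AL.Gen

/-!
# The radical of a finitely generated algebra with a good identity
-/

set_option autoImplicit false
set_option linter.style.haveILetI false

namespace Pool.Agent.T2h8.AL

variable {F C : Type} [Field F] [Ring C] [Algebra F C]

theorem finite_quot_ker {Y : Type} [AddCommGroup Y] [Module F Y] [Finite Y] (f : C →ₗ[F] Y) :
    Finite (C ⧸ LinearMap.ker f) :=
  Finite.of_equiv _ (f.quotKerEquivRange).symm.toEquiv

theorem finite_quot_mono {I I' : Submodule F C} (h : I ≤ I') (hI : Finite (C ⧸ I)) :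
    Finite (C ⧸ I') :=
  Finite.of_surjective (Submodule.factor h) (Submodule.factor_surjective h)

theorem finite_quot_inf {I I' : Submodule F C} (hI : Finite (C ⧸ I)) (hI' : Finite (C ⧸ I')) :
    Finite (C ⧸ (I ⊓ I')) := by
  have h1 := finite_quot_ker (I.mkQ.prod I'.mkQ)
  rwa [LinearMap.ker_prod, Submodule.ker_mkQ, Submodule.ker_mkQ] at h1

theorem finite_quot_cod [Finite F] {B : Submodule F C}
    (hcod : ∀ c : C, ∃ r : F, c - algebraMap F C r ∈ B) : Finite (C ⧸ B) := by
  refine Finite.of_surjective (fun r : F => B.mkQ (algebraMap F C r)) ?_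
  intro x
  obtain ⟨c, rfl⟩ := B.mkQ_surjective x
  obtain ⟨r, hr⟩ := hcod c
  refine ⟨r, ?_⟩
  have : B.mkQ (c - algebraMap F C r) = 0 := by
    change Submodule.Quotient.mk (c - algebraMap F C r) = 0
    rwa [Submodule.Quotient.mk_eq_zero]
  rw [map_sub, sub_eq_zero] at this
  exact this.symm

theorem finite_algHom {G0 : Set C} (hG0 : G0.Finite) (hgen : Algebra.adjoin F G0 = ⊤)
    (R' : Type) [Ring R'] [Algebra F R'] [Finite R'] : Finite (C →ₐ[F] R') := by
  haveI : Finite G0 := hG0
  refine Finite.of_injective (fun (ρ : C →ₐ[F] R') (x : G0) => ρ x) ?_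
  intro ρ ρ' h
  exact AlgHom.ext_of_adjoin_eq_top hgen (fun x hx => congrFun h ⟨x, hx⟩)

theorem exists_rad [Finite F] {G0 : Set C} (hG0 : G0.Finite) (hgen : Algebra.adjoin F G0 = ⊤)
    (B : Submodule F C) (hB : TS B) (hcod : ∀ c : C, ∃ r : F, c - algebraMap F C r ∈ B)
    (g : FreeAlgebra F (Fin 3)) (hg : eps F g ≠ 0)
    (hsat : ∀ a : Fin 3 → C, (∀ i, a i ∈ B) → FreeAlgebra.lift F a g = 0)
    {m : ℕ} (cf : Equiv.Perm (Fin m) → F) (hc1 : cf 1 = 1)
    (hid : ∀ a : Fin m → C, (∀ i, a i ∈ B) →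
      ∑ τ, cf τ • (List.ofFn fun k => a (τ k)).prod = 0) :
    ∃ N J : Submodule F C, TS N ∧ TS J ∧ N ≤ B ∧ J ≤ B ∧ Finite (C ⧸ J) ∧
      (∀ c : C, ∀ j ∈ J, c * j - j * c ∈ N) ∧ ∀ a ∈ N, ∃ n, a ^ n = 0 := by
  classical
  obtain ⟨N1, hN1⟩ := simple_bound B hB.1 hB.2 hcod g hg hsat cf hc1 hid
  let N : Submodule F C :=
    { carrier := {b | b ∈ B ∧ ∀ (M : Type) [AddCommGroup M] [Module C M] [Finite M],
        IsSimpleModule C M → ∀ v : M, b • v = 0}
      add_mem' := by
        rintro a b ⟨ha, ha'⟩ ⟨hb, hb'⟩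
        refine ⟨add_mem ha hb, ?_⟩
        intro M _ _ _ hM v
        rw [add_smul, ha' M hM, hb' M hM, add_zero]
      zero_mem' := ⟨zero_mem _, fun M _ _ _ _ v => zero_smul _ _⟩
      smul_mem' := by
        rintro r a ⟨ha, ha'⟩
        refine ⟨B.smul_mem r ha, ?_⟩
        intro M _ _ _ hM v
        rw [Algebra.smul_def, mul_smul, ha' M hM, smul_zero] }
  have hNts : TS N := by
    constructor
    · rintro x ⟨hx, hx'⟩ y
      refine ⟨hB.1 x hx y, ?_⟩
      intro M _ _ _ hM v
      rw [mul_smul, hx' M hM]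
    · rintro x ⟨hx, hx'⟩ y
      refine ⟨hB.2 x hx y, ?_⟩
      intro M _ _ _ hM v
      rw [mul_smul, hx' M hM, smul_zero]
  -- the ideal `J`
  let Mt : Fin (N1 + 1) → Type := fun r => Matrix (Fin r) (Fin r) F
  haveI hMt : ∀ r : Fin (N1 + 1), Finite (Matrix (Fin r) (Fin r) F) := by
    intro r
    unfold Matrix
    infer_instance
  haveI hfinH : ∀ r : Fin (N1 + 1), Finite (C →ₐ[F] Matrix (Fin r) (Fin r) F) :=
    fun r => finite_algHom hG0 hgen _
  let f : C →ₗ[F] ((r : Fin (N1 + 1)) → (C →ₐ[F] Matrix (Fin r) (Fin r) F) →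
      Matrix (Fin r) (Fin r) F) :=
    LinearMap.pi fun r => LinearMap.pi fun ρ => ρ.toLinearMap
  have hfin1 : Finite (C ⧸ LinearMap.ker f) := finite_quot_ker f
  have hker : ∀ c, c ∈ LinearMap.ker f ↔ ∀ (r : Fin (N1 + 1))
      (ρ : C →ₐ[F] Matrix (Fin r) (Fin r) F), ρ c = 0 := by
    intro c
    rw [LinearMap.mem_ker]
    constructor
    · intro h r ρ
      exact congrFun (congrFun h r) ρ
    · intro h
      funext r ρ
      exact h r ρ
  have hkts : TS (LinearMap.ker f) := by
    constructor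
    · intro x hx y
      rw [hker] at hx ⊢
      intro r ρ
      rw [map_mul, hx, zero_mul]
    · intro x hx y
      rw [hker] at hx ⊢
      intro r ρ
      rw [map_mul, hx, mul_zero]
  refine ⟨N, B ⊓ LinearMap.ker f, hNts, hB.inf hkts, fun x hx => hx.1, inf_le_left,
    finite_quot_inf (finite_quot_cod hcod) hfin1, ?_, ?_⟩
  · rintro c j ⟨hjB, hj⟩
    refine ⟨sub_mem (hB.2 j hjB c) (hB.1 j hjB c), ?_⟩
    intro M _ _ _ hM v
    rcases hN1 M hM with h | h
    · rw [sub_smul, h, sub_self]
    · -- `j` kills `M`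
      letI : Module F M := Module.compHom M (algebraMap F C)
      haveI : IsScalarTower F C M := ⟨fun r c v => by
        rw [Algebra.smul_def, mul_smul]; rfl⟩
      haveI : SMulCommClass C F M := ⟨fun c r v => by
        change c • (algebraMap F C r • v) = algebraMap F C r • (c • v)
        rw [← mul_smul, ← mul_smul, Algebra.commutes]⟩
      haveI : Module.Finite F M := Module.Finite.of_finite
      have hcard := Module.natCard_eq_pow_finrank (K := F) (V := M)
      have hq : 2 ≤ Nat.card F := Finite.one_lt_card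
      have hlt : Module.finrank F M < N1 + 1 := by
        have h1 : Module.finrank F M < 2 ^ Module.finrank F M := Nat.lt_two_pow_self
        have h2 : 2 ^ Module.finrank F M ≤ Nat.card F ^ Module.finrank F M :=
          Nat.pow_le_pow_left hq _
        omega
      let e := LinearMap.toMatrixAlgEquiv (Module.finBasis F M)
      let ρ : C →ₐ[F] Matrix (Fin (Module.finrank F M)) (Fin (Module.finrank F M)) F :=
        (e : Module.End F M →ₐ[F] _).comp (Algebra.lsmul F F M)
      have h1 : ρ j = 0 := (hker j).1 hj ⟨Module.finrank F M, hlt⟩ ρ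
      have h2 : (Algebra.lsmul F F M) j = 0 := by
        apply e.injective
        rw [map_zero]
        exact h1
      have h3 : ∀ w : M, j • w = 0 := fun w => congrArg (fun φ : Module.End F M => φ w) h2
      rw [sub_smul, mul_smul, mul_smul, h3, h3, smul_zero, sub_zero]
  · rintro a ⟨ha, ha'⟩
    have hcl : Subring.closure (Set.range (algebraMap F C) ∪ G0) = ⊤ := by
      rw [← Algebra.adjoin_eq_ring_closure, hgen]
      rfl
    refine nil_of_simple ((Set.finite_range _).union hG0) hcl (B : Set C) hB.1 hB.2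
      (fun π => algebraMap F C (cf π)) 1 (by rw [hc1, map_one]) ?_ ha ha'
    intro a ha
    rw [← hid a ha]
    apply Finset.sum_congr rfl
    intro π _
    rw [Algebra.smul_def]

end Pool.Agent.T2h8.AL
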