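import Pool.Agent.T2h8.AL.Sh2

/-!
# Shirshov's theorem: a nil ideal which is generated by finitely many elements, in a finitely
generated algebra with a polynomial identity, is nilpotent
-/

set_option autoImplicit false

namespace Pool.Agent.T2h8.AL

/-- the value of a word in base `k` -/
def val (k : ℕ) : List (Fin k) → ℕ
  | [] => 0
  | a :: l => a * k ^ l.length + val k l

theorem val_lt (k : ℕ) (l : List (Fin k)) : val k l < k ^ l.length := by
  induction l with
  | nil => simp [val]
  | cons a l ih =>
    have ha : (a : ℕ) + 1 ≤ k := a.2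
    rw [val, List.length_cons, pow_succ']
    calc (a : ℕ) * k ^ l.length + val k l < a * k ^ l.length + k ^ l.length := by omega
      _ = (a + 1) * k ^ l.length := by ring
      _ ≤ k * k ^ l.length := Nat.mul_le_mul_right _ ha

theorem val_append (k : ℕ) (l l' : List (Fin k)) :
    val k (l ++ l') = val k l * k ^ l'.length + val k l' := by
  induction l with
  | nil => simp [val]
  | cons a l ih =>
    rw [List.cons_append, val, ih, val, List.length_append, pow_add]
    ring

theorem val_inj (k : ℕ) : ∀ l l' : List (Fin k), l.length = l'.length → val k l = val k l' →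
    l = l' := by
  intro l
  induction l with
  | nil =>
    intro l' h _
    exact (List.length_eq_zero_iff.1 h.symm).symm
  | cons a l ih =>
    intro l' h hv
    cases l' with
    | nil => simp at h
    | cons b l' =>
      have hl : l.length = l'.length := by simpa using h
      rw [val, val, ← hl] at hv
      have h1 := val_lt k l
      have h2 := val_lt k l'
      rw [← hl] at h2
      have hk : 0 < k ^ l.length := by omega
      have e1 : (a : ℕ) = (a * k ^ l.length + val k l) / k ^ l.length := by
        rw [Nat.mul_comm, Nat.mul_add_div hk, Nat.div_eq_of_lt h1, add_zero]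
      have e2 : (b : ℕ) = (b * k ^ l.length + val k l') / k ^ l.length := by
        rw [Nat.mul_comm, Nat.mul_add_div hk, Nat.div_eq_of_lt h2, add_zero]
      have hab : (a : ℕ) = b := by rw [e1, hv, ← e2]
      rw [Fin.ext hab, ih l' hl (by rw [hab] at hv; omega)]

theorem val_cmp (k : ℕ) (P a b r s : List (Fin k)) (hab : a.length = b.length)
    (hrs : r.length = s.length) (h : val k a < val k b) :
    val k (P ++ (a ++ r)) < val k (P ++ (b ++ s)) := by
  rw [val_append k P, val_append k P, val_append k a, val_append k b, List.length_append,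
    List.length_append, hab, hrs]
  have h1 := val_lt k r
  rw [hrs] at h1
  have h2 : (val k a + 1) * k ^ s.length ≤ val k b * k ^ s.length := Nat.mul_le_mul_right _ h
  nlinarith

section

variable {F C : Type} [Field F] [Ring C] [Algebra F C] {k : ℕ}

/-- the value of a word at elements of the algebra -/
def ev (e : Fin k → C) (w : List (Fin k)) : C := (w.map e).prod

theorem ev_append (e : Fin k → C) (w w' : List (Fin k)) : ev e (w ++ w') = ev e w * ev e w' := by
  simp [ev]

theorem ev_flatten (e : Fin k → C) (L : List (List (Fin k))) :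
    ev e L.flatten = (L.map (ev e)).prod := by
  induction L with
  | nil => simp [ev]
  | cons w L ih => rw [List.flatten_cons, ev_append, ih, List.map_cons, List.prod_cons]

theorem ev_mem (B : Submodule F C) (hBB : B * B ≤ B) (e : Fin k → C) (he : ∀ i, e i ∈ B) :
    ∀ w : List (Fin k), w ≠ [] → ev e w ∈ B := by
  intro w
  induction w with
  | nil => intro h; exact absurd rfl h
  | cons a w ih =>
    intro _
    by_cases h : w = []
    · subst h; simpa [ev] using he a
    · have : ev e (a :: w) = e a * ev e w := by simp [ev]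
      rw [this]
      exact hBB (Submodule.mul_mem_mul (he a) (ih h))

/-- divisible words -/
def Dv (m : ℕ) (v : List (Fin k)) : Prop :=
  ∃ (P : List (Fin k)) (W : Fin m → List (Fin k)) (s : List (Fin k)),
    v = P ++ ((List.ofFn W).flatten ++ s) ∧ (∀ i, W i ≠ []) ∧
    ∀ τ : Equiv.Perm (Fin m), τ ≠ 1 →
      val k (List.ofFn fun i => W (τ i)).flatten < val k (List.ofFn W).flatten

theorem flatten_perm {m : ℕ} (W : Fin m → List (Fin k)) (τ : Equiv.Perm (Fin m)) :
    (List.ofFn fun i => W (τ i)).flatten.Perm (List.ofFn W).flatten :=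
  List.Perm.flatten (Equiv.Perm.ofFn_comp_perm τ W)

theorem mem_span_notDv {m : ℕ} (B : Submodule F C) (hBB : B * B ≤ B)
    (c : Equiv.Perm (Fin m) → F) (hc1 : c 1 = 1)
    (hid : ∀ a : Fin m → C, (∀ i, a i ∈ B) →
      ∑ τ, c τ • (List.ofFn fun k => a (τ k)).prod = 0)
    (e : Fin k → C) (he : ∀ i, e i ∈ B) : ∀ (n : ℕ) (w : List (Fin k)), val k w < n →
    ev e w ∈ Submodule.span F {x | ∃ v : List (Fin k), v.Perm w ∧ ¬ Dv m v ∧ x = ev e v} := by
  classical
  intro n
  induction n with
  | zero => intro w hw; omega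
  | succ n ih =>
    intro w hw
    by_cases hD : Dv m w
    · obtain ⟨P, W, s, rfl, hW, hlt⟩ := hD
      have h1 := hid (fun i => ev e (W i)) (fun i => ev_mem B hBB e he _ (hW i))
      have h2 : ∀ τ : Equiv.Perm (Fin m), (List.ofFn fun i => ev e (W (τ i))).prod =
          ev e (List.ofFn fun i => W (τ i)).flatten := by
        intro τ
        rw [ev_flatten, List.map_ofFn]
        rfl
      simp only [h2] at h1
      rw [← Finset.add_sum_erase _ _ (Finset.mem_univ (1 : Equiv.Perm (Fin m))), hc1, one_smul] at h1
      have h3 : ev e (List.ofFn W).flatten = - ∑ τ ∈ Finset.univ.erase (1 : Equiv.Perm (Fin m)),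
          c τ • ev e (List.ofFn fun i => W (τ i)).flatten := eq_neg_of_add_eq_zero_left h1
      rw [ev_append, ev_append, h3, neg_mul, mul_neg, Finset.sum_mul, Finset.mul_sum]
      apply Submodule.neg_mem
      apply Submodule.sum_mem
      intro τ hτ
      have hτ1 : τ ≠ 1 := (Finset.mem_erase.1 hτ).1
      rw [smul_mul_assoc, mul_smul_comm, ← ev_append, ← ev_append]
      apply Submodule.smul_mem
      have hperm := flatten_perm W τ
      have hval : val k (P ++ ((List.ofFn fun i => W (τ i)).flatten ++ s)) <
          val k (P ++ ((List.ofFn W).flatten ++ s)) :=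
        val_cmp k P _ _ s s hperm.length_eq rfl (hlt τ hτ1)
      have h4 := ih (P ++ ((List.ofFn fun i => W (τ i)).flatten ++ s)) (by omega)
      refine Submodule.span_mono ?_ h4
      rintro x ⟨v, hv1, hv2, hv3⟩
      exact ⟨v, hv1.trans ((hperm.append_right s).append_left P), hv2, hv3⟩
    · exact Submodule.subset_span ⟨w, List.Perm.refl _, hD, rfl⟩

/-- a word which contains `m` common subwords in `m` disjoint factors is divisible -/
theorem dv_of_hasU {m : ℕ} (hm : 0 < m) {v : List (Fin k)} (U : Finset (List.Vector (Fin k) m))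
    (hU : U.card = m) (h : HasU {l | ∃ u ∈ U, l = u.toList} m v) : Dv m v := by
  classical
  -- decreasing enumeration
  let f : List.Vector (Fin k) m → ℕ := fun u => val k u.toList
  have hf : Function.Injective f := by
    intro u u' huu
    apply Subtype.ext
    exact val_inj k _ _ (by rw [u.2, u'.2]) huu
  have hcard : (U.image f).card = m := by rw [Finset.card_image_of_injective _ hf, hU]
  let emb := (U.image f).orderEmbOfFin hcard
  have hemb : ∀ i : Fin m, ∃ u ∈ U, f u = emb i := by
    intro i
    have := Finset.orderEmbOfFin_mem (U.image f) hcard i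
    obtain ⟨u, hu, hfu⟩ := Finset.mem_image.1 this
    exact ⟨u, hu, hfu⟩
  choose g hg1 hg2 using hemb
  let u : Fin m → List.Vector (Fin k) m := fun i => g (Fin.rev i)
  have hu1 : ∀ i, u i ∈ U := fun i => hg1 _
  have hu2 : ∀ i j, i < j → val k (u j).toList < val k (u i).toList := by
    intro i j hij
    have : f (u j) < f (u i) := by
      simp only [u, hg2]
      exact emb.strictMono (Fin.rev_lt_rev.2 hij)
    exact this
  have hseq : ∀ w ∈ List.ofFn fun i => (u i).toList,
      w ∈ {l : List (Fin k) | ∃ u ∈ U, l = u.toList} := by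
    intro w hw
    obtain ⟨i, rfl⟩ := List.mem_ofFn.1 hw
    exact ⟨u i, hu1 i, rfl⟩
  obtain ⟨x, xs, hxs, hv⟩ := HasU.seq (List.ofFn fun i => (u i).toList) v hseq
    (by rw [List.length_ofFn]; exact h)
  rw [List.length_ofFn] at hxs
  let W : Fin m → List (Fin k) := fun i => (u i).toList ++ xs[(i : ℕ)]'(by rw [hxs]; exact i.2)
  have hzip : List.zipWith (· ++ ·) (List.ofFn fun i => (u i).toList) xs = List.ofFn W := by
    apply List.ext_getElem
    · simp [hxs]
    · intro i h1 h2
      simp [W]
  refine ⟨x, W, [], by rw [hv, hzip]; simp, ?_, ?_⟩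
  · intro i hi
    have h1 : (u i).toList = [] := (List.append_eq_nil_iff.1 hi).1
    have h2 := (u i).2
    have h3 : (u i).toList.length = m := h2
    rw [h1] at h3
    simp at h3
    omega
  · intro τ hτ
    -- the first moved index
    have hex : ∃ i : ℕ, ∃ hi : i < m, τ ⟨i, hi⟩ ≠ ⟨i, hi⟩ := by
      by_contra hcon
      push Not at hcon
      apply hτ
      ext i
      rw [hcon i i.2]
      rfl
    obtain ⟨hi, hne⟩ := Nat.find_spec hex
    set i := Nat.find hex with hidef
    have hfix : ∀ j (hj : j < m), j < i → τ ⟨j, hj⟩ = ⟨j, hj⟩ := by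
      intro j hj hji
      by_contra hcon
      exact Nat.find_min hex hji ⟨hj, hcon⟩
    have hgt : (⟨i, hi⟩ : Fin m) < τ ⟨i, hi⟩ := by
      rcases lt_trichotomy (⟨i, hi⟩ : Fin m) (τ ⟨i, hi⟩) with h | h | h
      · exact h
      · exact absurd h.symm hne
      · exfalso
        have h1 : ((τ ⟨i, hi⟩ : Fin m) : ℕ) < i := h
        have h2 := hfix _ (τ ⟨i, hi⟩).2 h1
        have h3 : τ ⟨i, hi⟩ = ⟨i, hi⟩ := τ.injective h2
        exact hne h3
    have hsplit : ∀ G : Fin m → List (Fin k), (List.ofFn G).flatten =
        ((List.ofFn G).take i).flatten ++ (G ⟨i, hi⟩ ++ ((List.ofFn G).drop (i + 1)).flatten) := by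
      intro G
      conv_lhs => rw [← List.take_append_drop i (List.ofFn G)]
      rw [List.flatten_append, List.drop_eq_getElem_cons (by simpa using hi), List.flatten_cons]
      simp
    have htake : (List.ofFn fun j => W (τ j)).take i = (List.ofFn W).take i := by
      apply List.ext_getElem
      · simp
      · intro j h1 h2
        have hj : j < i := by
          rw [List.length_take] at h1
          omega
        simp only [List.getElem_take, List.getElem_ofFn]
        rw [hfix j (by omega) hj]
    have hlen := (flatten_perm W τ).length_eq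
    rw [hsplit W, hsplit fun j => W (τ j), htake]
    rw [hsplit W, hsplit fun j => W (τ j), htake] at hlen
    have hW1 : ∀ j, W j = (u j).toList ++ xs[(j : ℕ)]'(by rw [hxs]; exact j.2) := fun j => rfl
    rw [hW1 (τ ⟨i, hi⟩), hW1 ⟨i, hi⟩, List.append_assoc, List.append_assoc]
    rw [hW1 (τ ⟨i, hi⟩), hW1 ⟨i, hi⟩] at hlen
    have hul : ∀ j, (u j).toList.length = m := fun j => (u j).2
    apply val_cmp
    · rw [hul, hul]
    · simp only [List.length_append, hul] at hlen ⊢
      omega
    · exact hu2 _ _ hgt

/-- words with many letters in `S` vanish -/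
theorem word_zero {m : ℕ} (hm : 0 < m) (B : Submodule F C) (hBB : B * B ≤ B)
    (c : Equiv.Perm (Fin m) → F) (hc1 : c 1 = 1)
    (hid : ∀ a : Fin m → C, (∀ i, a i ∈ B) →
      ∑ τ, c τ • (List.ofFn fun k => a (τ k)).prod = 0)
    (e : Fin k → C) (he : ∀ i, e i ∈ B) (S : Fin k → Bool)
    (hS : ∀ u : List (Fin k), (∃ a ∈ u, S a = true) → ∃ n, ev e u ^ n = 0) :
    ∃ K, ∀ w : List (Fin k), K ≤ w.countP S → ev e w = 0 := by
  classical
  -- a common exponent
  obtain ⟨e0, he0⟩ : ∃ e0, ∀ u : List (Fin k), u.length < m → (∃ a ∈ u, S a = true) →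
      ev e u ^ e0 = 0 := by
    have hfin : {u : List (Fin k) | u.length < m}.Finite := List.finite_length_lt _ _
    choose! n hn using hS
    refine ⟨hfin.toFinset.sup n, fun u hu hSu => ?_⟩
    have h1 : n u ≤ hfin.toFinset.sup n := Finset.le_sup (f := n) (by simpa using hu)
    obtain ⟨t, ht⟩ := Nat.exists_eq_add_of_le h1
    rw [ht, pow_add, hn u hSu, zero_mul]
  set T := Fintype.card (Finset (List.Vector (Fin k) m)) * m with hT
  set q := 2 * m + m * e0 + 1 with hq
  refine ⟨(2 * T + 1) * q + 1, fun w hw => ?_⟩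
  have hspan := mem_span_notDv B hBB c hc1 hid e he (val k w + 1) w (Nat.lt_succ_self _)
  have hzero : {x | ∃ v : List (Fin k), v.Perm w ∧ ¬ Dv m v ∧ x = ev e v} ⊆ {0} := by
    rintro x ⟨v, hv1, hv2, rfl⟩
    rw [Set.mem_singleton_iff]
    have hcv : (2 * T + 1) * q + 1 ≤ v.countP S := by
      rw [hv1.countP_eq]; exact hw
    rcases decomp m T v with h | ⟨L, h1, h2, h3⟩
    · exfalso
      obtain ⟨U, hU, hUv⟩ := rich_common (by rw [← hT]; omega) h
      exact hv2 (dv_of_hasU hm U hU hUv)
    · -- a piece with many letters in `S`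
      obtain ⟨u, huL, hu⟩ : ∃ u ∈ L, q ≤ u.countP S := by
        by_contra hcon
        push Not at hcon
        have h4 : v.countP S = (L.map (List.countP S)).sum := by
          rw [h2, List.countP_flatten]
        have h5 : (L.map (List.countP S)).sum ≤ L.length * q := by
          have := List.sum_le_card_nsmul (L.map (List.countP S)) q (by
            intro x hx
            obtain ⟨u, hu, rfl⟩ := List.mem_map.1 hx
            exact (hcon u hu).le)
          simpa using this
        have h6 : L.length * q ≤ (2 * T + 1) * q := Nat.mul_le_mul_right _ h1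
        omega
      rcases h3 u huL with h4 | h4
      · obtain ⟨u', hu1, hu2, p, s, hps⟩ := poor_pow h4 S e0 hu
        have h5 : ev e u = 0 := by
          rw [← hps, ev_append, ev_append, ev_flatten]
          simp only [List.map_replicate, List.prod_replicate]
          rw [he0 u' hu1 hu2]
          simp
        obtain ⟨L1, L2, hL⟩ := List.append_of_mem huL
        rw [h2, hL, List.flatten_append, List.flatten_cons, ev_append, ev_append, h5]
        simp
      · exfalso
        have := List.countP_le_length (p := S) (l := u)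
        omega
  have h1 := Submodule.span_mono hzero hspan
  simpa using h1

/-- a nil ideal generated by finitely many elements is nilpotent -/
theorem ideal_nilpotent {m : ℕ} (hm : 0 < m) (B : Submodule F C) (hBB : B * B ≤ B)
    (c : Equiv.Perm (Fin m) → F) (hc1 : c 1 = 1)
    (hid : ∀ a : Fin m → C, (∀ i, a i ∈ B) →
      ∑ τ, c τ • (List.ofFn fun k => a (τ k)).prod = 0)
    (G T : Set C) (hG : G.Finite) (hT : T.Finite) (hGB : G ⊆ B) (hTB : T ⊆ B)
    (hgen : Algebra.adjoin F G = ⊤)
    (hnil : ∀ a ∈ (⊤ * Submodule.span F T * ⊤ : Submodule F C), ∃ n, a ^ n = 0) :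
    ∃ K, (⊤ * Submodule.span F T * ⊤ : Submodule F C) ^ K = ⊥ := by
  classical
  set N : Submodule F C := ⊤ * Submodule.span F T * ⊤ with hNdef
  have hN1 : N * ⊤ ≤ N := by
    rw [hNdef, mul_assoc]
    exact mul_le_mul' le_rfl le_top
  have hN2 : ⊤ * N ≤ N := by
    rw [hNdef, ← mul_assoc, ← mul_assoc]
    exact mul_le_mul' (mul_le_mul' le_top le_rfl) le_rfl
  have hTN : Submodule.span F T ≤ N := by
    have h1 : (1 : Submodule F C) ≤ ⊤ := le_top
    calc Submodule.span F T = 1 * Submodule.span F T * 1 := by rw [one_mul, mul_one]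
      _ ≤ N := mul_le_mul' (mul_le_mul' h1 le_rfl) h1
  obtain ⟨k, e, hrange⟩ : ∃ (k : ℕ) (e : Fin k → C), Set.range e = G ∪ T := by
    have hf := (hG.union hT)
    refine ⟨hf.toFinset.card, fun i => (hf.toFinset.equivFin.symm i : C), ?_⟩
    ext x
    constructor
    · rintro ⟨i, rfl⟩
      exact (Set.Finite.mem_toFinset hf).1 (hf.toFinset.equivFin.symm i).2
    · intro hx
      refine ⟨hf.toFinset.equivFin ⟨x, by simpa using hx⟩, by simp⟩
  have he : ∀ i, e i ∈ B := by
    intro i
    have : e i ∈ G ∪ T := by rw [← hrange]; exact ⟨i, rfl⟩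
    rcases this with h | h
    · exact hGB h
    · exact hTB h
  let S : Fin k → Bool := fun i => decide (e i ∈ N)
  have hSN : ∀ u : List (Fin k), (∃ a ∈ u, S a = true) → ev e u ∈ N := by
    rintro u ⟨a, ha, hSa⟩
    obtain ⟨u1, u2, rfl⟩ := List.append_of_mem ha
    have h1 : e a ∈ N := by simpa [S] using hSa
    have h2 : ev e (u1 ++ a :: u2) = ev e u1 * (e a * ev e u2) := by
      simp [ev]
    rw [h2]
    exact hN2 (Submodule.mul_mem_mul trivial (hN1 (Submodule.mul_mem_mul h1 trivial)))
  obtain ⟨K, hK⟩ := word_zero hm B hBB c hc1 hid e he S (fun u hu => hnil _ (hSN u hu))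
  let Wd : ℕ → Submodule F C := fun t => Submodule.span F {x | ∃ w, t ≤ w.countP S ∧ x = ev e w}
  have hmul : ∀ s t, Wd s * Wd t ≤ Wd (s + t) := by
    intro s t
    rw [Submodule.span_mul_span, Submodule.span_le]
    rintro _ ⟨_, ⟨w, hw, rfl⟩, _, ⟨w', hw', rfl⟩, rfl⟩
    refine Submodule.subset_span ⟨w ++ w', ?_, (ev_append _ _ _).symm⟩
    rw [List.countP_append]
    omega
  have htop : (⊤ : Submodule F C) ≤ Wd 0 := by
    intro x _
    have hx : x ∈ Algebra.adjoin F G := by rw [hgen]; trivial
    induction hx using Algebra.adjoin_induction with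
    | mem x hx =>
      have : x ∈ Set.range e := by rw [hrange]; exact Or.inl hx
      obtain ⟨i, rfl⟩ := this
      exact Submodule.subset_span ⟨[i], by simp, by simp [ev]⟩
    | algebraMap r =>
      rw [Algebra.algebraMap_eq_smul_one]
      exact Submodule.smul_mem _ _ (Submodule.subset_span ⟨[], by simp, by simp [ev]⟩)
    | add x y _ _ hx hy => exact Submodule.add_mem _ (hx trivial) (hy trivial)
    | mul x y _ _ hx hy => exact hmul 0 0 (Submodule.mul_mem_mul (hx trivial) (hy trivial))
  have hT1 : Submodule.span F T ≤ Wd 1 := by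
    rw [Submodule.span_le]
    intro x hx
    have : x ∈ Set.range e := by rw [hrange]; exact Or.inr hx
    obtain ⟨i, rfl⟩ := this
    refine Submodule.subset_span ⟨[i], ?_, by simp [ev]⟩
    have : e i ∈ N := hTN (Submodule.subset_span hx)
    simp [S, this]
  have hNW : N ≤ Wd 1 := by
    calc N ≤ Wd 0 * Wd 1 * Wd 0 := mul_le_mul' (mul_le_mul' htop hT1) htop
      _ ≤ Wd (0 + 1) * Wd 0 := mul_le_mul' (hmul 0 1) le_rfl
      _ ≤ Wd (0 + 1 + 0) := hmul _ _
  have hpow : ∀ t, N ^ t ≤ Wd t := by
    intro t
    induction t with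
    | zero => rw [pow_zero]; exact le_trans le_top htop
    | succ t ih =>
      rw [pow_succ]
      exact (mul_le_mul' ih hNW).trans (hmul _ _)
  refine ⟨K, ?_⟩
  rw [eq_bot_iff]
  refine (hpow K).trans ?_
  rw [Submodule.span_le]
  rintro _ ⟨w, hw, rfl⟩
  rw [hK w hw]
  exact Submodule.zero_mem _

end

end Pool.Agent.T2h8.AL
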