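import Pool.Agent.T2h8.AL.Mon
import Pool.Agent.T2h8.AL.Rad
import Pool.Agent.T2h8.AL.Sh3

/-!
# All ideals are finitely generated
-/

set_option autoImplicit false
set_option linter.style.haveILetI false

namespace Pool.Agent.T2h8.AL

open Polynomial

variable {F C : Type} [Field F] [Ring C] [Algebra F C]

theorem idl_union (S S' : Set C) : idl F (S ∪ S') = idl F S ⊔ idl F S' := by
  apply le_antisymm
  · apply idl_le ((ts_idl S).sup (ts_idl S'))
    rintro x (hx | hx)
    · exact Submodule.mem_sup_left (subset_idl S hx)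
    · exact Submodule.mem_sup_right (subset_idl S' hx)
  · apply sup_le
    · exact idl_le (ts_idl _) (fun x hx => subset_idl _ (Or.inl hx))
    · exact idl_le (ts_idl _) (fun x hx => subset_idl _ (Or.inr hx))

theorem LL_coeff_mem {E : Submodule F C} (hE : TS E) (y x z : C) (a : MvPolynomial (Fin 2) F) :
    ∀ d : MvPolynomial (Fin 3) F, LL y x z d ∈ E →
      LL y x z ((fse F).symm (Polynomial.C a) * d) ∈ E := by
  induction a using MvPolynomial.induction_on with
  | C r =>
    intro d hd
    have h1 : (fse F).symm (Polynomial.C (MvPolynomial.C r)) = MvPolynomial.C r := by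
      rw [AlgEquiv.symm_apply_eq]
      exact ((fse F).commutes r).symm
    rw [h1, MvPolynomial.C_mul', map_smul]
    exact E.smul_mem r hd
  | add p q hp hq =>
    intro d hd
    rw [map_add, map_add, add_mul, map_add]
    exact add_mem (hp d hd) (hq d hd)
  | mul_X p i hp =>
    intro d hd
    have h1 : (fse F).symm (Polynomial.C (MvPolynomial.X i)) = MvPolynomial.X (Fin.succ i) := by
      rw [AlgEquiv.symm_apply_eq]
      exact MvPolynomial.finSuccEquiv_X_succ.symm
    rw [Polynomial.C_mul, map_mul (fse F).symm, h1, mul_assoc]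
    apply hp
    fin_cases i
    · change LL y x z (MvPolynomial.X 1 * d) ∈ E
      rw [LL_X1]
      exact hE.2 _ hd y
    · change LL y x z (MvPolynomial.X 2 * d) ∈ E
      rw [LL_X2]
      exact hE.1 _ hd y

theorem LL_X0_pow (y x z : C) (k : ℕ) :
    LL (F := F) y x z (MvPolynomial.X 0 ^ k) = x * y ^ k * z := by
  have h1 : (MvPolynomial.X 0 ^ k : MvPolynomial (Fin 3) F) =
      MvPolynomial.monomial (Finsupp.single 0 k) 1 := by
    rw [MvPolynomial.X_pow_eq_monomial]
  rw [h1, LL_monomial]
  simp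

theorem lead_mem {E : Submodule F C} (hE : TS E) (y x z : C) (c : MvPolynomial (Fin 3) F)
    (hc : (fse F c).Monic) (hL : LL y x z c ∈ E)
    (hlow : ∀ j < (fse F c).natDegree, x * y ^ j * z ∈ E) :
    x * y ^ (fse F c).natDegree * z ∈ E := by
  set q := fse F c with hq
  have h1 : c = MvPolynomial.X 0 ^ q.natDegree + ∑ i ∈ Finset.range q.natDegree,
      (fse F).symm (Polynomial.C (q.coeff i)) * MvPolynomial.X 0 ^ i := by
    have hX : (fse F).symm (X : Polynomial (MvPolynomial (Fin 2) F)) = MvPolynomial.X 0 := by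
      rw [AlgEquiv.symm_apply_eq]
      exact MvPolynomial.finSuccEquiv_X_zero.symm
    have h2 : c = (fse F).symm q := by rw [hq, AlgEquiv.symm_apply_apply]
    rw [h2]
    conv_lhs => rw [hc.as_sum]
    rw [map_add, map_sum, map_pow, hX]
    congr 1
    refine Finset.sum_congr rfl fun i _ => ?_
    rw [map_mul, map_pow, hX]
  have h3 : LL y x z c = x * y ^ q.natDegree * z + ∑ i ∈ Finset.range q.natDegree,
      LL y x z ((fse F).symm (Polynomial.C (q.coeff i)) * MvPolynomial.X 0 ^ i) := by
    conv_lhs => rw [h1]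
    rw [map_add, map_sum, LL_X0_pow]
  have h4 : ∑ i ∈ Finset.range q.natDegree,
      LL y x z ((fse F).symm (Polynomial.C (q.coeff i)) * MvPolynomial.X 0 ^ i) ∈ E := by
    apply Submodule.sum_mem
    intro i hi
    apply LL_coeff_mem hE
    rw [LL_X0_pow]
    exact hlow i (Finset.mem_range.1 hi)
  have h5 := sub_mem hL h4
  rw [h3, add_sub_cancel_right] at h5
  exact h5

/-- the hypothesis obtained from the identity -/
def MM (F : Type) [Field F] {C : Type} [Ring C] [Algebra F C] (B : Submodule F C)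
    (c : MvPolynomial (Fin 3) F) : Prop :=
  ∀ X Z E : Submodule F C, Cnd X Z E →
      ∀ x ∈ X, x ∈ B → ∀ z ∈ Z, z ∈ B → ∀ y ∈ B, LL y x z c ∈ E

theorem all_pow {B : Submodule F C} {c : MvPolynomial (Fin 3) F} (hc : (fse F c).Monic)
    (hM : MM F B c) {X Z E E' : Submodule F C} (hcnd : Cnd X Z E) (hEE : E ≤ E') (hE' : TS E')
    {x y z : C} (hx : x ∈ X) (hxB : x ∈ B) (hz : z ∈ Z) (hzB : z ∈ B) (hy : y ∈ B) (hB : TS B)
    (hlow : ∀ j < (fse F c).natDegree, x * y ^ j * z ∈ E') : ∀ k, x * y ^ k * z ∈ E' := by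
  intro k
  induction k using Nat.strong_induction_on with
  | _ k ih =>
    rcases Nat.lt_or_ge k (fse F c).natDegree with h | h
    · exact hlow k h
    · obtain ⟨i, rfl⟩ := Nat.exists_eq_add_of_le h
      have hm : (fse F (MvPolynomial.X 0 ^ i * c)).Monic := by
        have hX0 : fse F (MvPolynomial.X 0) = Polynomial.X := MvPolynomial.finSuccEquiv_X_zero
        rw [map_mul, map_pow, hX0]
        exact (monic_X_pow i).mul hc
      have hd : (fse F (MvPolynomial.X 0 ^ i * c)).natDegree = (fse F c).natDegree + i := by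
        have hX0 : fse F (MvPolynomial.X 0) = Polynomial.X := MvPolynomial.finSuccEquiv_X_zero
        rw [map_mul, map_pow, hX0, (monic_X_pow i).natDegree_mul hc, natDegree_X_pow, add_comm]
      have hL : LL y x z (MvPolynomial.X 0 ^ i * c) ∈ E' := by
        apply hEE
        have hgen : ∀ (i : ℕ) (x : C), x ∈ X → x ∈ B →
            LL y x z (MvPolynomial.X 0 ^ i * c) ∈ E := by
          intro i
          induction i with
          | zero =>
            intro x hx hxB
            rw [pow_zero, one_mul]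
            exact hM X Z E hcnd x hx hxB z hz hzB y hy
          | succ i ih =>
            intro x hx hxB
            rw [pow_succ', mul_assoc, LL_X0]
            exact ih _ (hcnd.tX.1 _ hx y) (hB.1 _ hxB y)
        exact hgen i x hx hxB
      have := lead_mem hE' y x z _ hm hL (by rw [hd]; exact fun j hj => ih j hj)
      rwa [hd] at this

/-- products of polynomials in the members of a list -/
noncomputable def PL (F : Type) [Field F] {C : Type} [Ring C] [Algebra F C] :
    List C → Submodule F C
  | [] => 1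
  | g :: l => Subalgebra.toSubmodule (Algebra.adjoin F {g}) * PL F l

theorem one_le_PL (l : List C) : (1 : Submodule F C) ≤ PL F l := by
  induction l with
  | nil => exact le_rfl
  | cons g l ih =>
    have h1 : (1 : Submodule F C) ≤ Subalgebra.toSubmodule (Algebra.adjoin F {g}) := by
      rw [Submodule.one_le]
      exact (Algebra.adjoin F {g}).one_mem
    calc (1 : Submodule F C) = 1 * 1 := (one_mul _).symm
      _ ≤ _ := mul_le_mul' h1 ih

theorem PL_left {N : Submodule F C} (hN : TS N) (l : List C)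
    (hl : ∀ g ∈ l, ∀ h ∈ l, g * h - h * g ∈ N) :
    ∀ g ∈ l, ∀ w ∈ PL F l, g * w ∈ PL F l ⊔ N := by
  induction l with
  | nil => intro g hg; simp at hg
  | cons h l ih =>
    have ih' := ih (fun g hg h hh => hl g (List.mem_cons_of_mem _ hg) h
      (List.mem_cons_of_mem _ hh))
    intro g hg w hw
    change w ∈ Subalgebra.toSubmodule (Algebra.adjoin F {h}) * PL F l at hw
    refine Submodule.mul_induction_on (C := fun w => g * w ∈ PL F (h :: l) ⊔ N) hw ?_ ?_
    · intro a ha b hb
      rcases List.mem_cons.1 hg with rfl | hg'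
      · apply Submodule.mem_sup_left
        rw [← mul_assoc]
        exact Submodule.mul_mem_mul ((Algebra.adjoin F {g}).mul_mem
          (Algebra.subset_adjoin rfl) ha) hb
      · have h1 : g * a - a * g ∈ N := comm_adjoin hN (c := g) (T := {h}) (by
          intro t ht
          rw [Set.mem_singleton_iff] at ht
          subst ht
          exact hl g hg _ List.mem_cons_self) a ha
        have e1 : g * (a * b) = a * (g * b) + (g * a - a * g) * b := by noncomm_ring
        rw [e1]
        refine add_mem ?_ (Submodule.mem_sup_right (hN.1 _ h1 b))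
        obtain ⟨u, hu, v, hv, huv⟩ := Submodule.mem_sup.1 (ih' g hg' b hb)
        rw [← huv, mul_add]
        exact add_mem (Submodule.mem_sup_left (Submodule.mul_mem_mul ha hu))
          (Submodule.mem_sup_right (hN.2 _ hv a))
    · intro a b ha hb
      rw [mul_add]
      exact add_mem ha hb

theorem adjoin_le_PL {N : Submodule F C} (hN : TS N) (l : List C)
    (hl : ∀ g ∈ l, ∀ h ∈ l, g * h - h * g ∈ N) :
    Subalgebra.toSubmodule (Algebra.adjoin F {x | x ∈ l}) ≤ PL F l ⊔ N := by
  have hall : ∀ a ∈ Algebra.adjoin F {x | x ∈ l}, ∀ w ∈ PL F l ⊔ N, a * w ∈ PL F l ⊔ N := by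
    intro a ha
    induction ha using Algebra.adjoin_induction with
    | mem g hg =>
      intro w hw
      obtain ⟨u, hu, v, hv, rfl⟩ := Submodule.mem_sup.1 hw
      rw [mul_add]
      exact add_mem (PL_left hN l hl g hg u hu) (Submodule.mem_sup_right (hN.2 _ hv g))
    | algebraMap r =>
      intro w hw
      rw [← Algebra.smul_def]
      exact Submodule.smul_mem _ r hw
    | add x y _ _ hx hy => intro w hw; rw [add_mul]; exact add_mem (hx w hw) (hy w hw)
    | mul x y _ _ hx hy => intro w hw; rw [mul_assoc]; exact hx _ (hy w hw)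
  intro a ha
  have h1 : (1 : C) ∈ PL F l ⊔ N := by
    apply Submodule.mem_sup_left
    exact Submodule.one_le.1 (one_le_PL l)
  have := hall a ha 1 h1
  rwa [mul_one] at this

theorem list_layer {B : Submodule F C} (hB : TS B) {c : MvPolynomial (Fin 3) F}
    (hc : (fse F c).Monic)
    (hM : MM F B c) {X Z E : Submodule F C} (hcnd : Cnd X Z E) (hXB : X ≤ B) (hZB : Z ≤ B)
    (l : List C) (hl : ∀ g ∈ l, g ∈ B) :
    ∀ X0 Z0 : Set C, X0.Finite → Z0.Finite → X0 ⊆ X → Z0 ⊆ Z → ∃ S : Set C, S.Finite ∧
      S ⊆ (X * Z : Submodule F C) ∧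
      Submodule.span F X0 * PL F l * Submodule.span F Z0 ≤ idl F S ⊔ E := by
  induction l with
  | nil =>
    intro X0 Z0 hX0 hZ0 hX0X hZ0Z
    refine ⟨(fun p : C × C => p.1 * p.2) '' (X0 ×ˢ Z0), (hX0.prod hZ0).image _, ?_, ?_⟩
    · rintro _ ⟨p, hp, rfl⟩
      exact Submodule.mul_mem_mul (hX0X hp.1) (hZ0Z hp.2)
    · change Submodule.span F X0 * 1 * Submodule.span F Z0 ≤ _
      rw [mul_one, Submodule.span_mul_span, Submodule.span_le]
      rintro _ ⟨x, hx, z, hz, rfl⟩
      exact Submodule.mem_sup_left (subset_idl _ ⟨(x, z), ⟨hx, hz⟩, rfl⟩)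
  | cons g l ih =>
    intro X0 Z0 hX0 hZ0 hX0X hZ0Z
    set n0 := (fse F c).natDegree with hn0
    let X1 : Set C := (fun p : C × ℕ => p.1 * g ^ p.2) '' (X0 ×ˢ (Set.Iio n0))
    have hX1 : X1.Finite := (hX0.prod (Set.finite_Iio n0)).image _
    have hX1X : X1 ⊆ X := by
      rintro _ ⟨p, hp, rfl⟩
      exact hcnd.tX.1 _ (hX0X hp.1) _
    obtain ⟨S, hS, hSX, hSE⟩ := ih (fun h hh => hl h (List.mem_cons_of_mem _ hh)) X1 Z0 hX1 hZ0
      hX1X hZ0Z
    refine ⟨S, hS, hSX, ?_⟩
    have hE' : TS (idl F S ⊔ E) := (ts_idl S).sup hcnd.tE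
    have hkey : ∀ x ∈ X0, ∀ w ∈ PL F l, ∀ z ∈ Z0, ∀ k : ℕ, x * g ^ k * (w * z) ∈ idl F S ⊔ E := by
      intro x hx w hw z hz
      have hwz : w * z ∈ Z := hcnd.tZ.2 _ (hZ0Z hz) w
      apply all_pow hc hM hcnd le_sup_right hE' (hX0X hx) (hXB (hX0X hx)) hwz (hZB hwz)
        (hl g List.mem_cons_self) hB
      intro j hj
      apply hSE
      rw [← mul_assoc]
      exact Submodule.mul_mem_mul (Submodule.mul_mem_mul (Submodule.subset_span
        ⟨(x, j), ⟨hx, hj⟩, rfl⟩) hw) (Submodule.subset_span hz)
    change Submodule.span F X0 * (Subalgebra.toSubmodule (Algebra.adjoin F {g}) * PL F l) *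
      Submodule.span F Z0 ≤ _
    have hadj : Subalgebra.toSubmodule (Algebra.adjoin F {g}) =
        Submodule.span F (Set.range fun k : ℕ => g ^ k) := by
      rw [Algebra.adjoin_eq_span]
      congr 1
      ext x
      rw [SetLike.mem_coe, Submonoid.mem_closure_singleton]
      rfl
    have hPL : PL F l = Submodule.span F (PL F l : Set C) := (Submodule.span_eq _).symm
    rw [hadj, hPL, ← mul_assoc, Submodule.span_mul_span, Submodule.span_mul_span,
      Submodule.span_mul_span, Submodule.span_le]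
    rintro _ ⟨_, ⟨_, ⟨x, hx, _, ⟨k, rfl⟩, rfl⟩, w, hw, rfl⟩, z, hz, rfl⟩
    have := hkey x hx w hw z hz k
    change x * g ^ k * w * z ∈ _
    rwa [mul_assoc (x * g ^ k) w z]

end Pool.Agent.T2h8.AL
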