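import Pool.Agent.T2h8.AL.Lay

/-!
# All ideals are finitely generated, continued
-/

set_option autoImplicit false
set_option linter.style.haveILetI false

namespace Pool.Agent.T2h8.AL

open Polynomial

variable {F C : Type} [Field F] [Ring C] [Algebra F C]

theorem top_le_idl_one : (⊤ : Submodule F C) ≤ idl F ({1} : Set C) := by
  intro c _
  have := (ts_idl (F := F) ({1} : Set C)).2 1 (subset_idl _ rfl) c
  rwa [mul_one] at this

theorem N_fg [Finite F] {G0 : Set C} (hG0 : G0.Finite) (hgen : Algebra.adjoin F G0 = ⊤)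
    {J N : Submodule F C} (hN : TS N) (hJ : Finite (C ⧸ J))
    (hc : ∀ c : C, ∀ j ∈ J, c * j - j * c ∈ N) :
    ∃ S : Set C, S.Finite ∧ S ⊆ N ∧ N = idl F S := by
  obtain ⟨T, V, D, hD, hDN, h1V, fr⟩ := exists_frame hG0 hgen hJ hc
  obtain ⟨S', hS', hS'N, hS⟩ := noe_layer fr (X := ⊤) (X' := idl F D) ts_top (ts_idl D) le_top
    (ts_idl D).mul_top (ts_idl D).top_mul (S := {1}) (Set.finite_singleton _)
    (fun _ _ => trivial) (top_le_idl_one.trans le_sup_left) (I := N) hN le_top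
  refine ⟨S' ∪ D, hS'.union hD, ?_, ?_⟩
  · rintro x (hx | hx)
    · exact hS'N hx
    · exact hDN hx
  · apply le_antisymm
    · rw [idl_union]
      exact hS
    · apply idl_le hN
      rintro x (hx | hx)
      · exact hS'N hx
      · exact hDN hx

theorem N_nil [Finite F] {G0 : Set C} (hG0 : G0.Finite) (hgen : Algebra.adjoin F G0 = ⊤)
    {B J N : Submodule F C} (hB : TS B) (hcod : ∀ c : C, ∃ r : F, c - algebraMap F C r ∈ B)
    (hN : TS N) (hNB : N ≤ B) (hJ : Finite (C ⧸ J))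
    (hc : ∀ c : C, ∀ j ∈ J, c * j - j * c ∈ N) {m : ℕ} (hm : 0 < m)
    (cf : Equiv.Perm (Fin m) → F) (hc1 : cf 1 = 1)
    (hid : ∀ a : Fin m → C, (∀ i, a i ∈ B) →
      ∑ τ, cf τ • (List.ofFn fun k => a (τ k)).prod = 0)
    (hnil : ∀ a ∈ N, ∃ n, a ^ n = 0) : ∃ K, N ^ (K + 1) = ⊥ := by
  classical
  obtain ⟨S, hS, hSN, hNS⟩ := N_fg hG0 hgen hN hJ hc
  choose r hr using hcod
  let G : Set C := (fun g => g - algebraMap F C (r g)) '' G0
  have hG : G.Finite := hG0.image _
  have hGB : G ⊆ B := by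
    rintro _ ⟨g, _, rfl⟩
    exact hr g
  have hgenG : Algebra.adjoin F G = ⊤ := by
    rw [eq_top_iff, ← hgen]
    apply Algebra.adjoin_le
    intro g hg
    have h1 : g = (g - algebraMap F C (r g)) + algebraMap F C (r g) := by abel
    rw [h1]
    exact add_mem (Algebra.subset_adjoin ⟨g, hg, rfl⟩) ((Algebra.adjoin F G).algebraMap_mem _)
  obtain ⟨K, hK⟩ := ideal_nilpotent hm B (by
    rw [Submodule.mul_le]
    exact fun x hx y _ => hB.1 x hx y) cf hc1 hid G S hG hS hGB (fun x hx => hNB (hSN hx)) hgenG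
    (by
      intro a ha
      apply hnil
      rw [hNS]
      exact ha)
  refine ⟨K, ?_⟩
  have h1 : N ^ K = ⊥ := by
    rw [hNS]
    exact hK
  rw [pow_succ, h1, Submodule.bot_mul]

theorem pow_le_left {N : Submodule F C} (hN : TS N) (i k : ℕ) :
    N ^ (i + 1 + k) ≤ N ^ (i + 1) := by
  induction k with
  | zero => exact le_rfl
  | succ k ih =>
    rw [← add_assoc, pow_succ]
    exact (mul_le_mul' ih le_top).trans (hN.pow i).mul_top

theorem cnd_pow {N : Submodule F C} (hN : TS N) (i : ℕ) :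
    Cnd (N ^ (i + 1)) N (N ^ (i + 3)) := by
  have hle : ∀ k, N ^ (i + 3 + k) ≤ N ^ (i + 3) := fun k => pow_le_left hN (i + 2) k
  refine ⟨hN.pow i, hN, hN.pow (i + 2), ?_, ?_, ?_, ?_, ?_, ?_⟩
  · have : N ^ (i + 1) * N ^ (i + 1) * N = N ^ (i + 3 + i) := by
      rw [← pow_add, ← pow_succ]; congr 1; omega
    rw [this]; exact hle _
  · have : N ^ (i + 1) * N * N ^ (i + 1) = N ^ (i + 3 + i) := by
      rw [← pow_succ, ← pow_add]; congr 1; omega
    rw [this]; exact hle _
  · rw [← pow_succ, ← pow_succ]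
  · have : N * N * N ^ (i + 1) = N ^ (i + 3) := by
      rw [← pow_two, ← pow_add]; congr 1; omega
    rw [this]
  · have : N * N ^ (i + 1) * N = N ^ (i + 3) := by
      rw [← pow_succ', ← pow_succ]
    rw [this]
  · have : N * N ^ (i + 1) * N ^ (i + 1) = N ^ (i + 3 + i) := by
      rw [← pow_succ', ← pow_add]; congr 1; omega
    rw [this]; exact hle _

theorem layers [Finite F] {G0 : Set C} (hG0 : G0.Finite) (hgen : Algebra.adjoin F G0 = ⊤)
    {B J N : Submodule F C} (hB : TS B) (hJB : J ≤ B)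
    (hN : TS N) (hNB : N ≤ B) (hJ : Finite (C ⧸ J))
    (hc : ∀ c : C, ∀ j ∈ J, c * j - j * c ∈ N) {c : MvPolynomial (Fin 3) F}
    (hcm : (fse F c).Monic) (hM : MM F B c) (i : ℕ) :
    ∃ S : Set C, S.Finite ∧ S ⊆ (N ^ (i + 1) : Submodule F C) ∧
      N ^ (i + 1) ≤ idl F S ⊔ N ^ (i + 2) := by
  classical
  obtain ⟨S0, hS0, hS0N, hNS0⟩ := N_fg hG0 hgen hN hJ hc
  obtain ⟨T, V, D, hD, hDN, h1V, fr⟩ := exists_frame hG0 hgen hJ hc
  have hN0 : idl F D ≤ N := idl_le hN hDN
  induction i with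
  | zero =>
    refine ⟨S0, hS0, by rw [zero_add, pow_one]; exact hS0N, ?_⟩
    rw [zero_add, pow_one]
    exact hNS0.le.trans le_sup_left
  | succ i ih =>
    obtain ⟨S, hS, hSN, hSS⟩ := ih
    let l := fr.Tfin.toFinset.toList
    have hl : ∀ x, x ∈ l ↔ x ∈ T := by
      intro x
      rw [Finset.mem_toList, Set.Finite.mem_toFinset]
    have hlT : {x | x ∈ l} = T := by
      ext x
      exact hl x
    let Z0 : Set C := (fun p : C × C => p.1 * p.2) '' (V ×ˢ S0)
    have hZ0 : Z0.Finite := (fr.Vfin.prod hS0).image _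
    have hXB : N ^ (i + 1) ≤ B := (by
      have := pow_le_left hN 0 i
      rw [zero_add, pow_one, add_comm] at this
      exact this.trans hNB)
    obtain ⟨S1, hS1, hS1N, hS1E⟩ := list_layer hB hcm hM (cnd_pow hN i) hXB hNB l
      (fun g hg => hJB (fr.TJ ((hl g).1 hg))) S Z0 hS hZ0 hSN (by
        rintro _ ⟨p, hp, rfl⟩
        exact hN.2 _ (hS0N hp.2) _)
    refine ⟨S1, hS1, by rw [pow_succ]; exact hS1N, ?_⟩
    have hE' : TS (idl F S1 ⊔ N ^ (i + 3)) := (ts_idl S1).sup (hN.pow (i + 2))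
    have hNN : N ^ (i + 1) * N * N ≤ idl F S1 ⊔ N ^ (i + 3) := by
      rw [← pow_succ, ← pow_succ]
      exact le_sup_right
    have hmid : Submodule.span F S * ⊤ * Submodule.span F S0 ≤ idl F S1 ⊔ N ^ (i + 3) := by
      have hsS : Submodule.span F S ≤ N ^ (i + 1) := Submodule.span_le.2 hSN
      have hsS0 : Submodule.span F S0 ≤ N := Submodule.span_le.2 hS0N
      have hT1 : Subalgebra.toSubmodule (Algebra.adjoin F T) ≤ PL F l ⊔ N := by
        have := adjoin_le_PL hN l (by
          intro g hg h hh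
          exact hN0 (fr.comm g h ((hl h).1 hh)))
        rwa [hlT] at this
      have hstep : (⊤ : Submodule F C) ≤ PL F l * Submodule.span F V ⊔ N := by
        refine fr.gen.trans (sup_le ?_ (hN0.trans le_sup_right))
        refine (mul_le_mul' hT1 le_rfl).trans ?_
        rw [Submodule.sup_mul]
        refine sup_le le_sup_left ?_
        exact ((mul_le_mul' le_rfl le_top).trans hN.mul_top).trans le_sup_right
      refine (mul_le_mul' (mul_le_mul' le_rfl hstep) le_rfl).trans ?_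
      rw [Submodule.mul_sup, Submodule.sup_mul]
      refine sup_le ?_ ?_
      · have e1 : Submodule.span F V * Submodule.span F S0 = Submodule.span F Z0 := by
          rw [Submodule.span_mul_span]
          congr 1
          ext x
          constructor
          · rintro ⟨v, hv, s, hs, rfl⟩
            exact ⟨(v, s), ⟨hv, hs⟩, rfl⟩
          · rintro ⟨p, hp, rfl⟩
            exact ⟨p.1, hp.1, p.2, hp.2, rfl⟩
        calc Submodule.span F S * (PL F l * Submodule.span F V) * Submodule.span F S0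
            = Submodule.span F S * PL F l * (Submodule.span F V * Submodule.span F S0) := by
              simp only [mul_assoc]
          _ = Submodule.span F S * PL F l * Submodule.span F Z0 := by rw [e1]
          _ ≤ _ := hS1E
      · exact (mul_le_mul' (mul_le_mul' hsS le_rfl) hsS0).trans hNN
    have h1 : N ^ (i + 1 + 1) = N ^ (i + 1) * N := pow_succ _ _
    rw [h1]
    have h2 : N ^ (i + 1) * N ≤ (idl F S ⊔ N ^ (i + 2)) * idl F S0 := by
      refine mul_le_mul' hSS ?_
      rw [← hNS0]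
    refine h2.trans ?_
    rw [Submodule.sup_mul]
    refine sup_le ?_ ?_
    · unfold idl at hE' ⊢
      calc ⊤ * Submodule.span F S * ⊤ * (⊤ * Submodule.span F S0 * ⊤)
          = ⊤ * (Submodule.span F S * (⊤ * ⊤) * Submodule.span F S0) * ⊤ := by
            simp only [mul_assoc]
        _ ≤ ⊤ * (Submodule.span F S * ⊤ * Submodule.span F S0) * ⊤ :=
            mul_le_mul' (mul_le_mul' le_rfl (mul_le_mul' (mul_le_mul' le_rfl le_top) le_rfl))
              le_rfl
        _ ≤ ⊤ * (⊤ * Submodule.span F S1 * ⊤ ⊔ N ^ (i + 3)) * ⊤ :=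
            mul_le_mul' (mul_le_mul' le_rfl hmid) le_rfl
        _ ≤ (⊤ * Submodule.span F S1 * ⊤ ⊔ N ^ (i + 3)) * ⊤ := mul_le_mul' hE'.top_mul le_rfl
        _ ≤ _ := hE'.mul_top
    · rw [← hNS0, ← pow_succ]
      exact le_sup_right

theorem all_fg [Finite F] {G0 : Set C} (hG0 : G0.Finite) (hgen : Algebra.adjoin F G0 = ⊤)
    {B J N : Submodule F C} (hB : TS B) (hJB : J ≤ B)
    (hN : TS N) (hNB : N ≤ B) (hJ : Finite (C ⧸ J))
    (hc : ∀ c : C, ∀ j ∈ J, c * j - j * c ∈ N) {c : MvPolynomial (Fin 3) F}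
    (hcm : (fse F c).Monic) (hM : MM F B c) {K : ℕ} (hK : N ^ (K + 1) = ⊥)
    {I : Submodule F C} (hI : TS I) : ∃ S : Set C, S.Finite ∧ S ⊆ I ∧ I = idl F S := by
  classical
  obtain ⟨T, V, D, hD, hDN, h1V, fr⟩ := exists_frame hG0 hgen hJ hc
  have hN0 : idl F D ≤ N := idl_le hN hDN
  have hglue : ∀ {I X' : Submodule F C}, TS I → TS X' → ∀ S' : Set C, S'.Finite → S' ⊆ I →
      I ≤ idl F S' ⊔ X' → (∃ S : Set C, S.Finite ∧ S ⊆ (I ⊓ X' : Submodule F C) ∧
        I ⊓ X' = idl F S) → ∃ S : Set C, S.Finite ∧ S ⊆ I ∧ I = idl F S := by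
    intro I X' hI hX' S' hS' hS'I hle ⟨S, hS, hSI, hIS⟩
    have hsub : S' ∪ S ⊆ I := by
      rintro x (hx | hx)
      · exact hS'I hx
      · exact (hSI hx).1
    refine ⟨S' ∪ S, hS'.union hS, hsub, le_antisymm ?_ (idl_le hI hsub)⟩
    rw [idl_union]
    intro x hx
    obtain ⟨a, ha, b, hb, rfl⟩ := Submodule.mem_sup.1 (hle hx)
    refine add_mem (Submodule.mem_sup_left ha) (Submodule.mem_sup_right ?_)
    rw [← hIS]
    refine ⟨?_, hb⟩
    have haI : a ∈ I := idl_le hI hS'I ha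
    have := sub_mem hx haI
    rwa [add_sub_cancel_left] at this
  have key : ∀ d i : ℕ, N ^ (i + 1 + d) = ⊥ → ∀ I : Submodule F C, TS I → I ≤ N ^ (i + 1) →
      ∃ S : Set C, S.Finite ∧ S ⊆ I ∧ I = idl F S := by
    intro d
    induction d with
    | zero =>
      intro i hi I hI hIN
      rw [add_zero] at hi
      rw [hi, le_bot_iff] at hIN
      refine ⟨∅, Set.finite_empty, Set.empty_subset _, ?_⟩
      rw [hIN]
      exact (le_bot_iff.1 (idl_le ts_bot (Set.empty_subset _))).symm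
    | succ d ih =>
      intro i hi I hI hIN
      obtain ⟨S, hS, hSN, hSS⟩ := layers hG0 hgen hB hJB hN hNB hJ hc hcm hM i
      obtain ⟨S', hS', hS'I, hle⟩ := noe_layer fr (hN.pow i) (hN.pow (i + 1))
        (pow_le_left hN i 1)
        ((mul_le_mul' hN0 le_rfl).trans (by rw [← pow_succ']))
        ((mul_le_mul' le_rfl hN0).trans (by rw [← pow_succ])) hS hSN hSS hI hIN
      apply hglue hI (hN.pow (i + 1)) S' hS' hS'I hle
      exact ih (i + 1) (by rw [← hi]; congr 1; omega) _ (hI.inf (hN.pow (i + 1))) inf_le_right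
  obtain ⟨S', hS', hS'I, hle⟩ := noe_layer fr (X := ⊤) (X' := N) ts_top hN le_top
    ((mul_le_mul' hN0 le_rfl).trans hN.mul_top) ((mul_le_mul' le_rfl hN0).trans hN.top_mul)
    (S := {1}) (Set.finite_singleton _)
    (fun _ _ => trivial) (top_le_idl_one.trans le_sup_left) (I := I) hI le_top
  apply hglue hI hN S' hS' hS'I hle
  apply key K 0 (by rw [zero_add, add_comm]; exact hK) _ (hI.inf hN)
  rw [zero_add, pow_one]
  exact inf_le_right

end Pool.Agent.T2h8.AL
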