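import Pool.Agent.T2h8.AL.Exp

/-!
# Monic bilinear identities
-/

set_option autoImplicit false
set_option linter.style.haveILetI false

namespace Pool.Agent.T2h8.AL

open Polynomial

variable {F C : Type} [Field F] [Ring C] [Algebra F C]

/-- ideals `X`, `Z`, and an ideal `E` which contains the products of three factors from `X` and
`Z`, not all from the same ideal -/
structure Cnd (X Z E : Submodule F C) : Prop where
  tX : TS X
  tZ : TS Z
  tE : TS E
  h1 : X * X * Z ≤ E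
  h2 : X * Z * X ≤ E
  h3 : X * Z * Z ≤ E
  h4 : Z * Z * X ≤ E
  h5 : Z * X * Z ≤ E
  h6 : Z * X * X ≤ E

/-- the polynomials `c` for which there is an identity `L_c(x, z) + L_c'(z, x)` -/
def mI (B : Submodule F C) (hB : TS B) : Ideal (MvPolynomial (Fin 3) F) where
  carrier := {c | ∃ c' : MvPolynomial (Fin 3) F, ∀ X Z E : Submodule F C, Cnd X Z E →
    ∀ x ∈ X, x ∈ B → ∀ z ∈ Z, z ∈ B → ∀ y ∈ B, LL y x z c + LL y z x c' ∈ E}
  add_mem' := by
    rintro a b ⟨a', ha⟩ ⟨b', hb⟩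
    refine ⟨a' + b', fun X Z E hc x hx hxB z hz hzB y hy => ?_⟩
    have := add_mem (ha X Z E hc x hx hxB z hz hzB y hy) (hb X Z E hc x hx hxB z hz hzB y hy)
    rw [map_add, map_add]
    convert this using 1
    abel
  zero_mem' := by
    refine ⟨0, fun X Z E hc x hx hxB z hz hzB y hy => ?_⟩
    rw [map_zero, map_zero, add_zero]
    exact zero_mem _
  smul_mem' := by
    intro p
    induction p using MvPolynomial.induction_on with
    | C a =>
      rintro c ⟨c', hc'⟩
      refine ⟨a • c', fun X Z E hc x hx hxB z hz hzB y hy => ?_⟩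
      rw [smul_eq_mul, MvPolynomial.C_mul', map_smul, map_smul, ← smul_add]
      exact E.smul_mem a (hc' X Z E hc x hx hxB z hz hzB y hy)
    | add p q hp hq =>
      rintro c hc
      obtain ⟨a', ha⟩ := hp hc
      obtain ⟨b', hb⟩ := hq hc
      refine ⟨a' + b', fun X Z E hc x hx hxB z hz hzB y hy => ?_⟩
      have := add_mem (ha X Z E hc x hx hxB z hz hzB y hy) (hb X Z E hc x hx hxB z hz hzB y hy)
      rw [add_smul, map_add, map_add]
      convert this using 1
      abel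
    | mul_X p i hp =>
      rintro c hc
      rw [mul_smul]
      apply hp
      obtain ⟨c', hc'⟩ := hc
      fin_cases i
      · refine ⟨MvPolynomial.X 2 * c', fun X Z E hc x hx hxB z hz hzB y hy => ?_⟩
        have := hc' X Z E hc (x * y) (hc.tX.1 _ hx y) (hB.1 _ hxB y) z hz hzB y hy
        rw [← LL_X0, ← LL_X2'] at this
        exact this
      · refine ⟨MvPolynomial.X 1 * c', fun X Z E hc x hx hxB z hz hzB y hy => ?_⟩
        have := hc.tE.2 _ (hc' X Z E hc x hx hxB z hz hzB y hy) y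
        rw [mul_add, ← LL_X1, ← LL_X1] at this
        exact this
      · refine ⟨MvPolynomial.X 2 * c', fun X Z E hc x hx hxB z hz hzB y hy => ?_⟩
        have := hc.tE.1 _ (hc' X Z E hc x hx hxB z hz hzB y hy) y
        rw [add_mul, ← LL_X2, ← LL_X2] at this
        exact this

theorem aeval_mem {B : Submodule F C} (hB : TS B) {y : C} (hy : y ∈ B) (h : F[X])
    (h0 : h.coeff 0 = 0) : Polynomial.aeval y h ∈ B := by
  obtain ⟨q, hq⟩ := Polynomial.X_dvd_iff.2 h0
  rw [hq, map_mul, Polynomial.aeval_X]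
  exact hB.1 _ hy _

theorem exists_monic_law [Finite F] {B : Submodule F C} (hB : TS B) (g : FreeAlgebra F (Fin 3))
    (hlaw : ∀ x ∈ B, ∀ y ∈ B, ∀ z ∈ B, evx F x y z g = 0) (hg : eps F g 0 2 ≠ 0) :
    ∃ c : MvPolynomial (Fin 3) F, (fse F c).Monic ∧ ∀ X Z E : Submodule F C, Cnd X Z E →
      ∀ x ∈ X, x ∈ B → ∀ z ∈ Z, z ∈ B → ∀ y ∈ B, LL y x z c ∈ E := by
  have hmem : eps3 F g 0 2 ∈ mI B hB := by
    refine ⟨eps3 F (swp F g) 0 2, fun X Z E hc x hx hxB z hz hzB y hy => ?_⟩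
    have := exp0 hc.tX hc.tZ hc.tE hc.h1 hc.h2 hc.h3 hc.h4 hc.h5 hc.h6 (y := y) hx hz g
    unfold Q0 at this
    rw [hlaw x hxB y hy z hzB, hlaw x hxB y hy 0 (zero_mem _), hlaw 0 (zero_mem _) y hy z hzB,
      hlaw 0 (zero_mem _) y hy 0 (zero_mem _)] at this
    have := neg_mem this
    convert this using 1
    abel
  have hsg : ∀ h : F[X], h.coeff 0 = 0 → ∀ c ∈ mI B hB, sg h c ∈ mI B hB := by
    rintro h h0 c ⟨c', hc'⟩
    refine ⟨sg h c', fun X Z E hc x hx hxB z hz hzB y hy => ?_⟩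
    rw [LL_sg, LL_sg]
    exact hc' X Z E hc x hx hxB z hz hzB _ (aeval_mem hB hy h h0)
  obtain ⟨c, hc, hcm⟩ := exists_monic (mI B hB) hsg _ hmem (by
    rw [eps_eq_eps3] at hg
    exact hg)
  obtain ⟨c', hc'⟩ := hc
  refine ⟨(MvPolynomial.X 0 - MvPolynomial.X 1) * c, ?_, fun X Z E hc x hx hxB z hz hzB y hy => ?_⟩
  · rw [map_mul]
    refine Polynomial.Monic.mul ?_ hcm
    have hX0 : fse F (MvPolynomial.X 0) = X := MvPolynomial.finSuccEquiv_X_zero
    have hX1 : fse F (MvPolynomial.X 1) = Polynomial.C (MvPolynomial.X 0) :=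
      MvPolynomial.finSuccEquiv_X_succ (j := 0)
    rw [map_sub, hX0, hX1]
    exact monic_X_sub_C _
  · have h1 := hc' X Z E hc x hx hxB (y * z) (hc.tZ.2 _ hz y) (hB.2 _ hzB y) y hy
    have h2 := hc.tE.2 _ (hc' X Z E hc x hx hxB z hz hzB y hy) y
    rw [← LL_X0', ← LL_X1'] at h1
    rw [mul_add, ← LL_X1, ← LL_X1] at h2
    have := sub_mem h1 h2
    rw [sub_mul, map_sub]
    convert this using 1
    abel

end Pool.Agent.T2h8.AL
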