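import Pool.Agent.T2h8.AL.Lay2

/-!
# Monolithic algebras are finite
-/

set_option autoImplicit false
set_option linter.style.haveILetI false

namespace Pool.Agent.T2h8.AL

open Polynomial

open scoped Pointwise

variable {F C : Type} [Field F] [Ring C] [Algebra F C]

/-- an ideal which is killed on both sides by `N3`, with `[C, J3] ≤ N3`, is finite -/
theorem fit [Finite F] {G0 : Set C} (hG0 : G0.Finite) (hgen : Algebra.adjoin F G0 = ⊤)
    {h : C} (hh : ∀ I : Submodule F C, TS I → I ≠ ⊥ → h ∈ I) (hh0 : h ≠ 0)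
    {J3 N3 : Submodule F C} (hN3 : TS N3) (hJ3 : Finite (C ⧸ J3))
    (hc : ∀ c : C, ∀ j ∈ J3, c * j - j * c ∈ N3) {Y : Submodule F C} (hY : TS Y)
    (hNY : N3 * Y ≤ ⊥) (hYN : Y * N3 ≤ ⊥) {S : Set C} (hS : S.Finite) (hSY : S ⊆ Y)
    (hYS : Y ≤ idl F S) : Finite Y := by
  classical
  by_cases hY0 : Y = ⊥
  · rw [hY0]
    infer_instance
  have hhY : h ∈ Y := hh Y hY hY0
  obtain ⟨T, V, D, hD, hDN, h1V, fr⟩ := exists_frame hG0 hgen hJ3 hc
  have hN0 : idl F D ≤ N3 := idl_le hN3 hDN
  have hkl : ∀ n ∈ N3, ∀ y ∈ Y, n * y = 0 := fun n hn y hy =>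
    (Submodule.mem_bot F).1 (hNY (Submodule.mul_mem_mul hn hy))
  have hkr : ∀ n ∈ N3, ∀ y ∈ Y, y * n = 0 := fun n hn y hy =>
    (Submodule.mem_bot F).1 (hYN (Submodule.mul_mem_mul hy hn))
  let L : C → Module.End F Y := fun c => (LinearMap.mulLeft F c).restrict
    (fun x hx => hY.2 x hx c)
  let R : C → Module.End F Y := fun c => (LinearMap.mulRight F c).restrict
    (fun x hx => hY.1 x hx c)
  have hL : ∀ c (x : Y), ((L c x : Y) : C) = c * x := fun c x => rfl
  have hR : ∀ c (x : Y), ((R c x : Y) : C) = x * c := fun c x => rfl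
  let Φ : Set (Module.End F Y) := (L '' T) ∪ (R '' T)
  have hΦ : Φ.Finite := (fr.Tfin.image _).union (fr.Tfin.image _)
  have hLL : ∀ c, ∀ t ∈ T, L c * L t = L t * L c := by
    intro c t ht
    ext x
    change ((L c (L t x) : Y) : C) = ((L t (L c x) : Y) : C)
    rw [hL, hL, hL, hL, ← sub_eq_zero]
    have e1 : c * (t * (x : C)) - t * (c * x) = (c * t - t * c) * x := by noncomm_ring
    rw [e1]
    exact hkl _ (hN0 (fr.comm c t ht)) _ x.2
  have hRR : ∀ c, ∀ t ∈ T, R c * R t = R t * R c := by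
    intro c t ht
    ext x
    change ((R c (R t x) : Y) : C) = ((R t (R c x) : Y) : C)
    rw [hR, hR, hR, hR, ← sub_eq_zero]
    have e1 : (x : C) * t * c - x * c * t = -(x * (c * t - t * c)) := by noncomm_ring
    rw [e1, hkr _ (hN0 (fr.comm c t ht)) _ x.2, neg_zero]
  have hLR : ∀ c c', L c * R c' = R c' * L c := by
    intro c c'
    ext x
    change ((L c (R c' x) : Y) : C) = ((R c' (L c x) : Y) : C)
    rw [hR, hL, hL, hR, mul_assoc]
  have hcomm : ∀ φ ∈ Φ, ∀ ψ ∈ Φ, φ * ψ = ψ * φ := by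
    rintro _ (⟨t, ht, rfl⟩ | ⟨t, ht, rfl⟩) _ (⟨t', ht', rfl⟩ | ⟨t', ht', rfl⟩)
    · exact hLL t t' ht'
    · exact hLR t t'
    · exact (hLR t' t).symm
    · exact hRR t t' ht'
  let S1 : Set C := (fun p : C × C × C => p.1 * p.2.1 * p.2.2) '' (V ×ˢ (S ×ˢ V))
  have hS1 : S1.Finite := (fr.Vfin.prod (hS.prod fr.Vfin)).image _
  have hS1Y : ∀ x ∈ S1, x ∈ Y := by
    rintro _ ⟨p, hp, rfl⟩
    exact hY.1 _ (hY.2 _ (hSY hp.2.1) _) _
  let Sb : Set Y := {m | (m : C) ∈ S1}
  have hSb : Sb.Finite := hS1.preimage Subtype.val_injective.injOn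
  refine finite_ops Φ hΦ hcomm Sb hSb ?_ ⟨h, hhY⟩ ?_ ?_
  · intro W hSW hWst
    let Wc : Submodule F C := W.map Y.subtype
    have hWc : ∀ x : C, x ∈ Wc ↔ ∃ hx : x ∈ Y, (⟨x, hx⟩ : Y) ∈ W := by
      intro x
      simp only [Wc, Submodule.mem_map]
      constructor
      · rintro ⟨y, hy, rfl⟩
        exact ⟨y.2, hy⟩
      · rintro ⟨hx, h⟩
        exact ⟨⟨x, hx⟩, h, rfl⟩
    have hAl : Subalgebra.toSubmodule (Algebra.adjoin F T) * Wc ≤ Wc := by
      rw [Submodule.mul_le]
      intro a ha
      have ha' : a ∈ Algebra.adjoin F T := ha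
      induction ha' using Algebra.adjoin_induction with
      | mem t ht =>
        intro w hw
        obtain ⟨hx, h⟩ := (hWc w).1 hw
        rw [hWc]
        exact ⟨hY.2 _ hx t, hWst (L t) (Or.inl ⟨t, ht, rfl⟩) _ h⟩
      | algebraMap r =>
        intro w hw
        rw [← Algebra.smul_def]
        exact Wc.smul_mem r hw
      | add x y _ _ hx hy =>
        intro w hw
        rw [add_mul]
        exact add_mem (hx (by assumption) w hw) (hy (by assumption) w hw)
      | mul x y _ _ hx hy =>
        intro w hw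
        rw [mul_assoc]
        exact hx (by assumption) _ (hy (by assumption) w hw)
    have hAr : Wc * Subalgebra.toSubmodule (Algebra.adjoin F T) ≤ Wc := by
      rw [Submodule.mul_le]
      intro w hw a ha
      have ha' : a ∈ Algebra.adjoin F T := ha
      induction ha' using Algebra.adjoin_induction generalizing w with
      | mem t ht =>
        obtain ⟨hx, h⟩ := (hWc w).1 hw
        rw [hWc]
        exact ⟨hY.1 _ hx t, hWst (R t) (Or.inr ⟨t, ht, rfl⟩) _ h⟩
      | algebraMap r =>
        rw [← Algebra.commutes, ← Algebra.smul_def]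
        exact Wc.smul_mem r hw
      | add x y _ _ hx hy =>
        rw [mul_add]
        exact add_mem (hx w hw (by assumption)) (hy w hw (by assumption))
      | mul x y _ _ hx hy =>
        rw [← mul_assoc]
        exact hy _ (hx w hw (by assumption)) (by assumption)
    have hSs : Submodule.span F S ≤ Y := Submodule.span_le.2 hSY
    have hVSV : Submodule.span F V * Submodule.span F S * Submodule.span F V ≤ Wc := by
      rw [Submodule.span_mul_span, Submodule.span_mul_span, Submodule.span_le]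
      rintro _ ⟨_, ⟨v, hv, s, hs, rfl⟩, v', hv', rfl⟩
      have hmem : v * s * v' ∈ S1 := ⟨(v, s, v'), ⟨hv, hs, hv'⟩, rfl⟩
      change v * s * v' ∈ Wc
      rw [hWc]
      exact ⟨hS1Y _ hmem, hSW hmem⟩
    have hidl : idl F S ≤ Wc := by
      unfold idl
      have h1 : (⊤ : Submodule F C) * Submodule.span F S * ⊤ ≤
          (Subalgebra.toSubmodule (Algebra.adjoin F T) * Submodule.span F V ⊔ idl F D) *
            Submodule.span F S *
            (Submodule.span F V * Subalgebra.toSubmodule (Algebra.adjoin F T) ⊔ idl F D) :=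
        mul_le_mul' (mul_le_mul' fr.gen le_rfl) fr.gen'
      refine h1.trans ?_
      rw [Submodule.sup_mul, Submodule.sup_mul, Submodule.mul_sup]
      refine sup_le (sup_le ?_ ?_) ?_
      · calc _ = Subalgebra.toSubmodule (Algebra.adjoin F T) *
              (Submodule.span F V * Submodule.span F S * Submodule.span F V) *
                Subalgebra.toSubmodule (Algebra.adjoin F T) := by simp only [mul_assoc]
          _ ≤ Subalgebra.toSubmodule (Algebra.adjoin F T) * Wc *
                Subalgebra.toSubmodule (Algebra.adjoin F T) :=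
              mul_le_mul' (mul_le_mul' le_rfl hVSV) le_rfl
          _ ≤ Wc * Subalgebra.toSubmodule (Algebra.adjoin F T) := mul_le_mul' hAl le_rfl
          _ ≤ Wc := hAr
      · calc _ ≤ (⊤ * ⊤ * Y) * N3 :=
              mul_le_mul' (mul_le_mul' (mul_le_mul' le_top le_top) hSs) hN0
          _ ≤ Y * N3 := by
              refine mul_le_mul' ?_ le_rfl
              rw [mul_assoc]
              exact (mul_le_mul' le_rfl hY.top_mul).trans hY.top_mul
          _ ≤ ⊥ := hYN
          _ ≤ Wc := bot_le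
      · calc _ ≤ N3 * Y * ⊤ := mul_le_mul' (mul_le_mul' hN0 hSs) le_top
          _ ≤ ⊥ * ⊤ := mul_le_mul' hNY le_rfl
          _ = ⊥ := Submodule.bot_mul _
          _ ≤ Wc := bot_le
    rw [eq_top_iff]
    intro m _
    obtain ⟨hx, h⟩ := (hWc (m : C)).1 (hidl (hYS m.2))
    exact h
  · intro h0
    exact hh0 (congrArg Subtype.val h0)
  · intro W hW1 hW2 hWne
    let Wc : Submodule F C := W.map Y.subtype
    have hWcts : TS Wc := by
      constructor
      · rintro _ ⟨x, hx, rfl⟩ c
        refine ⟨R c x, hW2 (R c) ?_ x hx, rfl⟩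
        rintro _ (⟨t, ht, rfl⟩ | ⟨t, ht, rfl⟩) m
        · exact (congrArg (fun φ : Module.End F Y => φ m) (hLR t c)).symm
        · exact congrArg (fun φ : Module.End F Y => φ m) (hRR c t ht)
      · rintro _ ⟨x, hx, rfl⟩ c
        refine ⟨L c x, hW2 (L c) ?_ x hx, rfl⟩
        rintro _ (⟨t, ht, rfl⟩ | ⟨t, ht, rfl⟩) m
        · exact congrArg (fun φ : Module.End F Y => φ m) (hLL c t ht)
        · exact congrArg (fun φ : Module.End F Y => φ m) (hLR c t)
    have hWcne : Wc ≠ ⊥ := by
      intro h0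
      apply hWne
      rw [eq_bot_iff]
      intro x hx
      have : (x : C) ∈ Wc := ⟨x, hx, rfl⟩
      rw [h0, Submodule.mem_bot] at this
      rw [Submodule.mem_bot]
      exact Subtype.ext this
    obtain ⟨x, hx, hxh⟩ := hh Wc hWcts hWcne
    have : x = ⟨h, hhY⟩ := Subtype.ext hxh
    rwa [← this]

/-- finite index, with representatives -/
def Fi (I : Submodule F C) : Prop := ∃ P : Set C, P.Finite ∧ ⊤ ≤ Submodule.span F P ⊔ I

theorem fi_of_finite {I : Submodule F C} (hI : Finite (C ⧸ I)) : Fi I := by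
  let s : C ⧸ I → C := Function.surjInv I.mkQ_surjective
  refine ⟨Set.range s, Set.finite_range s, ?_⟩
  intro c _
  have h1 : c - s (I.mkQ c) ∈ I := by
    have := Function.surjInv_eq I.mkQ_surjective (I.mkQ c)
    rw [← Submodule.Quotient.mk_eq_zero]
    change I.mkQ (c - s (I.mkQ c)) = 0
    rw [map_sub, this, sub_self]
  have h2 : c = s (I.mkQ c) + (c - s (I.mkQ c)) := by abel
  rw [h2]
  exact add_mem (Submodule.mem_sup_left (Submodule.subset_span ⟨_, rfl⟩))
    (Submodule.mem_sup_right h1)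

theorem finite_span [Finite F] {P : Set C} (hP : P.Finite) : Finite (Submodule.span F P) := by
  haveI : Module.Finite F (Submodule.span F P) := Module.Finite.span_of_finite F hP
  exact Module.finite_of_finite F

theorem finite_of_fi [Finite F] {I : Submodule F C} (hI : Fi I) : Finite (C ⧸ I) := by
  obtain ⟨P, hP, hPI⟩ := hI
  haveI := finite_span (F := F) hP
  refine Finite.of_surjective (fun x : Submodule.span F P => I.mkQ (x : C)) ?_
  intro q
  obtain ⟨c, rfl⟩ := I.mkQ_surjective q
  have hcm : c ∈ Submodule.span F P ⊔ I := hPI trivial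
  obtain ⟨a, ha, b, hb, hab⟩ := Submodule.mem_sup.1 hcm
  refine ⟨⟨a, ha⟩, ?_⟩
  change I.mkQ a = I.mkQ c
  rw [← hab, map_add]
  have : I.mkQ b = 0 := by
    change Submodule.Quotient.mk b = 0
    rwa [Submodule.Quotient.mk_eq_zero]
  rw [this, add_zero]

/-- a finitely generated bimodule over finite algebras is finite -/
theorem fin_bim {Y Y0 I1 I2 : Submodule F C} (hY : TS Y)
    {S : Set C} (hS : S.Finite) (hSY : S ⊆ Y) (hYS : Y ≤ idl F S) (h1 : Fi I1) (h2 : Fi I2)
    (hI1 : I1 * Y ≤ Y0) (hI2 : Y * I2 ≤ Y0) :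
    ∃ P : Set C, P.Finite ∧ Y ≤ Submodule.span F P ⊔ Y0 := by
  obtain ⟨V1, hV1, hV1'⟩ := h1
  obtain ⟨V2, hV2, hV2'⟩ := h2
  refine ⟨V1 * S * V2, (hV1.mul hS).mul hV2, ?_⟩
  refine hYS.trans ?_
  have hSs : Submodule.span F S ≤ Y := Submodule.span_le.2 hSY
  unfold idl
  calc ⊤ * Submodule.span F S * ⊤ ≤
        (Submodule.span F V1 ⊔ I1) * Submodule.span F S * (Submodule.span F V2 ⊔ I2) :=
        mul_le_mul' (mul_le_mul' hV1' le_rfl) hV2'
    _ ≤ _ := by
        rw [Submodule.mul_sup, Submodule.sup_mul, Submodule.sup_mul]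
        refine sup_le (sup_le ?_ ?_) ?_
        · rw [Submodule.span_mul_span, Submodule.span_mul_span]
          exact le_sup_left
        · have e1 : I1 * Submodule.span F S * Submodule.span F V2 ≤ I1 * Y * ⊤ :=
            mul_le_mul' (mul_le_mul' le_rfl hSs) le_top
          have e2 : I1 * Y * ⊤ ≤ Y0 := by
            rw [mul_assoc]
            exact (mul_le_mul' le_rfl hY.mul_top).trans hI1
          exact (e1.trans e2).trans le_sup_right
        · refine le_trans ?_ le_sup_right
          refine le_trans ?_ hI2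
          refine mul_le_mul' ?_ le_rfl
          rw [← Submodule.sup_mul]
          exact (mul_le_mul' le_top hSs).trans hY.top_mul

theorem finite_of_span_sup [Finite F] {Y Y0 : Submodule F C} {P : Set C} (hP : P.Finite)
    (hY : Y ≤ Submodule.span F P ⊔ Y0) (hY0 : Finite Y0) : Finite Y := by
  haveI := finite_span (F := F) hP
  have h1 : Finite (Submodule.span F P ⊔ Y0 : Submodule F C) := by
    refine Finite.of_surjective (fun p : Submodule.span F P × Y0 =>
      (⟨(p.1 : C) + p.2, add_mem (Submodule.mem_sup_left p.1.2)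
        (Submodule.mem_sup_right p.2.2)⟩ : (Submodule.span F P ⊔ Y0 : Submodule F C))) ?_
    rintro ⟨x, hx⟩
    obtain ⟨a, ha, b, hb, hab⟩ := Submodule.mem_sup.1 hx
    exact ⟨(⟨a, ha⟩, ⟨b, hb⟩), Subtype.ext hab⟩
  exact Finite.of_injective (Submodule.inclusion hY) (Submodule.inclusion_injective hY)

theorem finite_of_inf [Finite F] {Y I : Submodule F C} (hI : Finite (C ⧸ I))
    (h : Finite (Y ⊓ I : Submodule F C)) : Finite Y := by
  let f : Y →ₗ[F] (C ⧸ I) := I.mkQ.comp Y.subtype
  have hker : Finite (LinearMap.ker f) := by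
    refine Finite.of_injective (fun x : LinearMap.ker f =>
      (⟨(x : Y), ⟨(x : Y).2, ?_⟩⟩ : (Y ⊓ I : Submodule F C))) ?_
    · have := x.2
      rw [LinearMap.mem_ker] at this
      change Submodule.Quotient.mk ((x : Y) : C) = 0 at this
      rwa [Submodule.Quotient.mk_eq_zero] at this
    · intro x y hxy
      have h1 : ((x : Y) : C) = ((y : Y) : C) :=
        congrArg (fun z : (Y ⊓ I : Submodule F C) => (z : C)) hxy
      exact Subtype.ext (Subtype.ext h1)
  haveI : Finite (Y ⧸ LinearMap.ker f) :=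
    Finite.of_equiv _ (f.quotKerEquivRange).symm.toEquiv
  haveI : Module.Finite F Y := Module.Finite.of_submodule_quotient (LinearMap.ker f)
  exact Module.finite_of_finite F

end Pool.Agent.T2h8.AL
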