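import Pool.Agent.T2h8.AL.Mono

/-!
# Monolithic algebras are finite, continued
-/

set_option autoImplicit false
set_option linter.style.haveILetI false

namespace Pool.Agent.T2h8.AL

open Polynomial

open scoped Pointwise

variable {F C : Type} [Field F] [Ring C] [Algebra F C]

/-- powers of an element integral modulo an ideal -/
theorem adjoin_int {K : Submodule F C} (hK : TS K) (w : F[X]) (hw : w.Monic) (t : C)
    (ht : Polynomial.aeval t w ∈ K) : Subalgebra.toSubmodule (Algebra.adjoin F {t}) ≤
      Submodule.span F ((fun k : ℕ => t ^ k) '' Set.Iio w.natDegree) ⊔ K := by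
  intro a ha
  have ha' : a ∈ Algebra.adjoin F {t} := ha
  rw [Algebra.adjoin_singleton_eq_range_aeval] at ha'
  obtain ⟨p, rfl⟩ := ha'
  have h1 := Polynomial.modByMonic_add_div p w
  have h2 : Polynomial.aeval t p = Polynomial.aeval t (p %ₘ w) +
      Polynomial.aeval t w * Polynomial.aeval t (p /ₘ w) := by
    rw [← map_mul, ← map_add, h1]
  change Polynomial.aeval t p ∈ _
  rw [h2]
  refine add_mem (Submodule.mem_sup_left ?_) (Submodule.mem_sup_right (hK.1 _ ht _))
  by_cases hw1 : w = 1
  · rw [hw1, Polynomial.modByMonic_one, map_zero]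
    exact zero_mem _
  rw [Polynomial.aeval_eq_sum_range' (Polynomial.natDegree_modByMonic_lt p hw hw1)]
  apply Submodule.sum_mem
  intro i hi
  apply Submodule.smul_mem
  exact Submodule.subset_span ⟨i, Finset.mem_range.1 hi, rfl⟩

theorem PL_int {K : Submodule F C} (hK : TS K) (w : F[X]) (hw : w.Monic) (l : List C)
    (hl : ∀ t ∈ l, Polynomial.aeval t w ∈ K) :
    ∃ P : Set C, P.Finite ∧ PL F l ≤ Submodule.span F P ⊔ K := by
  induction l with
  | nil =>
    refine ⟨{1}, Set.finite_singleton _, ?_⟩
    change (1 : Submodule F C) ≤ _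
    rw [Submodule.one_eq_span]
    exact le_sup_left
  | cons g l ih =>
    obtain ⟨P, hP, hPK⟩ := ih (fun t ht => hl t (List.mem_cons_of_mem _ ht))
    refine ⟨((fun k : ℕ => g ^ k) '' Set.Iio w.natDegree) * P,
      ((Set.finite_Iio _).image _).mul hP, ?_⟩
    have h1 := adjoin_int hK w hw g (hl g List.mem_cons_self)
    have h2 : PL F (g :: l) ≤ (Submodule.span F ((fun k : ℕ => g ^ k) '' Set.Iio w.natDegree) ⊔ K) *
      (Submodule.span F P ⊔ K) := mul_le_mul' h1 hPK
    refine h2.trans ?_
    rw [Submodule.sup_mul, Submodule.mul_sup, Submodule.span_mul_span]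
    refine sup_le (sup_le le_sup_left ?_) ?_
    · exact ((mul_le_mul' le_top le_rfl).trans hK.top_mul).trans le_sup_right
    · exact ((mul_le_mul' le_rfl le_top).trans hK.mul_top).trans le_sup_right

/-- an ideal `K` modulo which `J3` is central and integral of bounded degree has finite index -/
theorem fi_K [Finite F] {G0 : Set C} (hG0 : G0.Finite) (hgen : Algebra.adjoin F G0 = ⊤)
    {J3 N3 K : Submodule F C} (hN3 : TS N3) (hK : TS K) (hJ3 : Finite (C ⧸ J3))
    (hc : ∀ c : C, ∀ j ∈ J3, c * j - j * c ∈ N3) (hNK : N3 ≤ K) (w : F[X]) (hw : w.Monic)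
    (hwK : ∀ j ∈ J3, Polynomial.aeval j w ∈ K) : Fi K := by
  classical
  obtain ⟨T, V, D, hD, hDN, h1V, fr⟩ := exists_frame hG0 hgen hJ3 hc
  have hN0 : idl F D ≤ N3 := idl_le hN3 hDN
  let l := fr.Tfin.toFinset.toList
  have hl : ∀ x, x ∈ l ↔ x ∈ T := by
    intro x
    rw [Finset.mem_toList, Set.Finite.mem_toFinset]
  have hlT : {x | x ∈ l} = T := by
    ext x
    exact hl x
  obtain ⟨P, hP, hPK⟩ := PL_int hK w hw l (fun t ht => hwK t (fr.TJ ((hl t).1 ht)))
  have hT1 : Subalgebra.toSubmodule (Algebra.adjoin F T) ≤ PL F l ⊔ K := by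
    have := adjoin_le_PL hK l (by
      intro g hg h hh
      exact hNK (hN0 (fr.comm g h ((hl h).1 hh))))
    rwa [hlT] at this
  refine ⟨P * V, hP.mul fr.Vfin, ?_⟩
  refine fr.gen.trans (sup_le ?_ ((hN0.trans hNK).trans le_sup_right))
  have h2 : Subalgebra.toSubmodule (Algebra.adjoin F T) ≤ Submodule.span F P ⊔ K :=
    hT1.trans (sup_le hPK le_sup_right)
  refine (mul_le_mul' h2 le_rfl).trans ?_
  rw [Submodule.sup_mul, Submodule.span_mul_span]
  refine sup_le le_sup_left ?_
  exact ((mul_le_mul' le_rfl le_top).trans hK.mul_top).trans le_sup_right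

/-- the one variable polynomial `c(t, 0, 0)` -/
noncomputable def c00 (c : MvPolynomial (Fin 3) F) : F[X] :=
  (fse F c).map (MvPolynomial.constantCoeff)

theorem c00_monic {c : MvPolynomial (Fin 3) F} (hc : (fse F c).Monic) : (c00 c).Monic :=
  hc.map _

/-- evaluation of `L_c` when the outer `y` act as zero -/
theorem LL_c00 (y x z : C) (c : MvPolynomial (Fin 3) F)
    (h1 : ∀ k, y * (x * y ^ k * z) = 0) (h2 : ∀ k, x * y ^ k * z * y = 0) :
    LL y x z c = x * Polynomial.aeval y (c00 c) * z := by
  have key : ∀ q : Polynomial (MvPolynomial (Fin 2) F), LL y x z ((fse F).symm q) =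
      x * Polynomial.aeval y (q.map MvPolynomial.constantCoeff) * z := by
    intro q
    induction q using Polynomial.induction_on' with
    | add p q hp hq =>
      rw [map_add, map_add, hp, hq, Polynomial.map_add, map_add, mul_add, add_mul]
    | monomial k a =>
      rw [Polynomial.map_monomial, Polynomial.aeval_monomial]
      have hX : (fse F).symm (X : Polynomial (MvPolynomial (Fin 2) F)) = MvPolynomial.X 0 := by
        rw [AlgEquiv.symm_apply_eq]
        exact MvPolynomial.finSuccEquiv_X_zero.symm
      rw [← Polynomial.C_mul_X_pow_eq_monomial, map_mul, map_pow, hX]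
      have h3 : ∀ a : MvPolynomial (Fin 2) F,
          LL y x z ((fse F).symm (Polynomial.C a) * MvPolynomial.X 0 ^ k) =
          MvPolynomial.constantCoeff a • (x * y ^ k * z) := by
        intro a
        induction a using MvPolynomial.induction_on with
        | C r =>
          have h1 : (fse F).symm (Polynomial.C (MvPolynomial.C r)) = MvPolynomial.C r := by
            rw [AlgEquiv.symm_apply_eq]
            exact ((fse F).commutes r).symm
          rw [h1, MvPolynomial.C_mul', map_smul, LL_X0_pow, MvPolynomial.constantCoeff_C]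
        | add p q hp hq =>
          rw [Polynomial.C_add, map_add (fse F).symm, add_mul, map_add, hp, hq, map_add, add_smul]
        | mul_X p i hp =>
          have h4 : (fse F).symm (Polynomial.C (MvPolynomial.X i)) =
              MvPolynomial.X (Fin.succ i) := by
            rw [AlgEquiv.symm_apply_eq]
            exact MvPolynomial.finSuccEquiv_X_succ.symm
          rw [Polynomial.C_mul, map_mul (fse F).symm, h4, map_mul MvPolynomial.constantCoeff,
            MvPolynomial.constantCoeff_X, mul_zero, zero_smul]
          have e1 : (fse F).symm (Polynomial.C p) * MvPolynomial.X (Fin.succ i) *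
              MvPolynomial.X 0 ^ k = MvPolynomial.X (Fin.succ i) *
                ((fse F).symm (Polynomial.C p) * MvPolynomial.X 0 ^ k) := by ring
          rw [e1]
          fin_cases i
          · change LL y x z (MvPolynomial.X 1 * _) = 0
            rw [LL_X1, hp, mul_smul_comm, h1, smul_zero]
          · change LL y x z (MvPolynomial.X 2 * _) = 0
            rw [LL_X2, hp, smul_mul_assoc, h2, smul_zero]
      rw [h3, ← Algebra.smul_def]
      simp only [mul_smul_comm, smul_mul_assoc]
  have := key (fse F c)
  rw [AlgEquiv.symm_apply_apply] at this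
  exact this

/-- the ideal of the elements which generate a finite ideal -/
def zm [Finite F] : Submodule F C where
  carrier := {x | Finite (idl F ({x} : Set C))}
  add_mem' := by
    intro x y (hx : Finite _) (hy : Finite _)
    change Finite _
    have h1 : idl F ({x + y} : Set C) ≤ idl F {x} ⊔ idl F {y} := by
      apply idl_le ((ts_idl _).sup (ts_idl _))
      intro z hz
      rw [Set.mem_singleton_iff] at hz
      subst hz
      exact add_mem (Submodule.mem_sup_left (subset_idl _ rfl))
        (Submodule.mem_sup_right (subset_idl _ rfl))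
    have h2 : Finite (idl F ({x} : Set C) ⊔ idl F {y} : Submodule F C) := by
      refine Finite.of_surjective (fun p : idl F ({x} : Set C) × idl F ({y} : Set C) =>
        (⟨(p.1 : C) + p.2, add_mem (Submodule.mem_sup_left p.1.2)
          (Submodule.mem_sup_right p.2.2)⟩ :
            (idl F ({x} : Set C) ⊔ idl F {y} : Submodule F C))) ?_
      rintro ⟨z, hz⟩
      obtain ⟨a, ha, b, hb, hab⟩ := Submodule.mem_sup.1 hz
      exact ⟨(⟨a, ha⟩, ⟨b, hb⟩), Subtype.ext hab⟩
    exact Finite.of_injective (Submodule.inclusion h1) (Submodule.inclusion_injective h1)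
  zero_mem' := by
    change Finite _
    have h1 : idl F ({0} : Set C) ≤ ⊥ := by
      apply idl_le ts_bot
      intro z hz
      rw [Set.mem_singleton_iff] at hz
      subst hz
      exact zero_mem _
    exact Finite.of_injective (Submodule.inclusion h1) (Submodule.inclusion_injective h1)
  smul_mem' := by
    intro r x (hx : Finite _)
    change Finite _
    have h1 : idl F ({r • x} : Set C) ≤ idl F {x} := by
      apply idl_le (ts_idl _)
      intro z hz
      rw [Set.mem_singleton_iff] at hz
      subst hz
      exact (idl F {x}).smul_mem r (subset_idl _ rfl)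
    exact Finite.of_injective (Submodule.inclusion h1) (Submodule.inclusion_injective h1)

theorem idl_mono_of_mem {I : Submodule F C} (hI : TS I) {x : C} (hx : x ∈ I) :
    idl F ({x} : Set C) ≤ I := by
  apply idl_le hI
  intro z hz
  rw [Set.mem_singleton_iff] at hz
  subst hz
  exact hx

theorem ts_zm [Finite F] : TS (zm : Submodule F C) := by
  constructor
  · intro x hx y
    haveI : Finite (idl F ({x} : Set C)) := hx
    have h1 := idl_mono_of_mem (ts_idl (F := F) {x}) ((ts_idl (F := F) {x}).1 x
      (subset_idl _ rfl) y)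
    exact Finite.of_injective (Submodule.inclusion h1) (Submodule.inclusion_injective h1)
  · intro x hx y
    haveI : Finite (idl F ({x} : Set C)) := hx
    have h1 := idl_mono_of_mem (ts_idl (F := F) {x}) ((ts_idl (F := F) {x}).2 x
      (subset_idl _ rfl) y)
    exact Finite.of_injective (Submodule.inclusion h1) (Submodule.inclusion_injective h1)

theorem le_zm [Finite F] {I : Submodule F C} (hI : TS I) (hf : Finite I) : I ≤ zm := by
  intro x hx
  have h1 := idl_mono_of_mem hI hx
  exact Finite.of_injective (Submodule.inclusion h1) (Submodule.inclusion_injective h1)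

theorem finite_sup {I I' : Submodule F C} (h : Finite I) (h' : Finite I') :
    Finite (I ⊔ I' : Submodule F C) := by
  refine Finite.of_surjective (fun p : I × I' =>
    (⟨(p.1 : C) + p.2, add_mem (Submodule.mem_sup_left p.1.2)
      (Submodule.mem_sup_right p.2.2)⟩ : (I ⊔ I' : Submodule F C))) ?_
  rintro ⟨z, hz⟩
  obtain ⟨a, ha, b, hb, hab⟩ := Submodule.mem_sup.1 hz
  exact ⟨(⟨a, ha⟩, ⟨b, hb⟩), Subtype.ext hab⟩

theorem finite_zm [Finite F] {S : Set C} (hS : S.Finite) (hSz : S ⊆ (zm : Submodule F C))
    (hz : (zm : Submodule F C) ≤ idl F S) : Finite (zm : Submodule F C) := by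
  have key : ∀ S : Set C, S.Finite → S ⊆ (zm : Submodule F C) → Finite (idl F S) := by
    intro S hS
    refine Set.Finite.induction_on (motive := fun S _ => S ⊆ (zm : Submodule F C) →
      Finite (idl F S)) S hS ?_ ?_
    · intro _
      have h1 : idl F (∅ : Set C) ≤ ⊥ := idl_le ts_bot (Set.empty_subset _)
      exact Finite.of_injective (Submodule.inclusion h1) (Submodule.inclusion_injective h1)
    · intro a S _ _ ih hS
      have h1 : idl F (insert a S) = idl F {a} ⊔ idl F S := by
        rw [Set.insert_eq, idl_union]
      rw [h1]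
      exact finite_sup (hS (Set.mem_insert _ _)) (ih (fun x hx => hS (Set.mem_insert_of_mem _ hx)))
  haveI := key S hS hSz
  exact Finite.of_injective (Submodule.inclusion hz) (Submodule.inclusion_injective hz)

end Pool.Agent.T2h8.AL
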