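import Pool.Agent.T2h8.AL.Mono2

/-!
# Monolithic algebras are finite, conclusion
-/

set_option autoImplicit false
set_option linter.style.haveILetI false

namespace Pool.Agent.T2h8.AL

open Polynomial

open scoped Pointwise

variable {F C : Type} [Field F] [Ring C] [Algebra F C]

/-- the standing hypotheses -/
structure Hyp (F : Type) [Field F] (C : Type) [Ring C] [Algebra F C] (G0 : Set C)
    (B J N : Submodule F C) (h : C) (c : MvPolynomial (Fin 3) F) (K : ℕ) : Prop where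
  hG0 : G0.Finite
  hgen : Algebra.adjoin F G0 = ⊤
  hh : ∀ I : Submodule F C, TS I → I ≠ ⊥ → h ∈ I
  hh0 : h ≠ 0
  hB : TS B
  hJ : TS J
  hN : TS N
  hJB : J ≤ B
  hNB : N ≤ B
  hfJ : Finite (C ⧸ J)
  hc : ∀ c : C, ∀ j ∈ J, c * j - j * c ∈ N
  hcm : (fse F c).Monic
  hM : MM F B c
  hK : N ^ (K + 1) = ⊥

theorem Hyp.fg [Finite F] {G0 : Set C} {B J N : Submodule F C} {h : C}
    {c : MvPolynomial (Fin 3) F} {K : ℕ} (H : Hyp F C G0 B J N h c K)
    {I : Submodule F C} (hI : TS I) : ∃ S : Set C, S.Finite ∧ S ⊆ I ∧ I = idl F S :=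
  all_fg H.hG0 H.hgen H.hB H.hJB H.hN H.hNB H.hfJ H.hc H.hcm H.hM H.hK hI

theorem sq_fi {J2 : Submodule F C} (hJ2 : TS J2) (hf : Fi J2) {S : Set C} (hS : S.Finite)
    (hSJ : S ⊆ J2) (hJS : J2 ≤ idl F S) : Fi (J2 * J2) := by
  obtain ⟨P, hP, hPJ⟩ := fin_bim (Y0 := J2 * J2) hJ2 hS hSJ hJS hf hf le_rfl le_rfl
  obtain ⟨P', hP', hPJ'⟩ := hf
  refine ⟨P' ∪ P, hP'.union hP, ?_⟩
  refine hPJ'.trans (sup_le ?_ ?_)
  · exact (Submodule.span_mono Set.subset_union_left).trans le_sup_left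
  · refine hPJ.trans (sup_le ?_ le_sup_right)
    exact (Submodule.span_mono Set.subset_union_right).trans le_sup_left

theorem le_bot_mul {X Y : Submodule F C} (h : ∀ x ∈ X, ∀ y ∈ Y, x * y = 0) : X * Y ≤ ⊥ := by
  rw [Submodule.mul_le]
  intro x hx y hy
  rw [Submodule.mem_bot]
  exact h x hx y hy

theorem le_bot_mul3 {X Y Z : Submodule F C} (h : ∀ x ∈ X, ∀ y ∈ Y, ∀ z ∈ Z, x * y * z = 0) :
    X * Y * Z ≤ ⊥ := by
  apply le_bot_mul
  intro w hw z hz
  refine Submodule.mul_induction_on (C := fun w => w * z = 0) hw ?_ ?_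
  · intro x hx y hy
    exact h x hx y hy z hz
  · intro a b ha hb
    rw [add_mul, ha, hb, add_zero]

theorem caseA [Finite F] {G0 : Set C} {B J N : Submodule F C} {h : C}
    {c : MvPolynomial (Fin 3) F} {K : ℕ} (H : Hyp F C G0 B J N h c K)
    {J2 Y2 : Submodule F C} (hJ2 : TS J2) (hJ2J : J2 ≤ J) (hJ2f : Finite (C ⧸ J2))
    (hJz : ∀ j ∈ J2, ∀ z ∈ (zm : Submodule F C), j * z = 0)
    (hzJ : ∀ j ∈ J2, ∀ z ∈ (zm : Submodule F C), z * j = 0)
    (hY2 : TS Y2) (hYN : ∀ y ∈ Y2, ∀ n ∈ N, y * n ∈ (zm : Submodule F C))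
    (hJY : ∀ j ∈ J2, ∀ y ∈ Y2, j * y ∈ (zm : Submodule F C)) : Finite Y2 := by
  classical
  obtain ⟨S2, hS2, hS2J, hJS2⟩ := H.fg hJ2
  let J3 : Submodule F C :=
    { carrier := {a | a ∈ J2 ∧ ∀ y ∈ Y2, a * y = 0}
      add_mem' := by
        rintro a b ⟨ha, ha'⟩ ⟨hb, hb'⟩
        exact ⟨add_mem ha hb, fun y hy => by rw [add_mul, ha' y hy, hb' y hy, add_zero]⟩
      zero_mem' := ⟨zero_mem _, fun y _ => zero_mul y⟩
      smul_mem' := by
        rintro r a ⟨ha, ha'⟩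
        exact ⟨J2.smul_mem r ha, fun y hy => by rw [smul_mul_assoc, ha' y hy, smul_zero]⟩ }
  have hJ3 : TS J3 := by
    constructor
    · rintro a ⟨ha, ha'⟩ b
      exact ⟨hJ2.1 _ ha b, fun y hy => by rw [mul_assoc, ha' _ (hY2.2 _ hy b)]⟩
    · rintro a ⟨ha, ha'⟩ b
      exact ⟨hJ2.2 _ ha b, fun y hy => by rw [mul_assoc, ha' _ hy, mul_zero]⟩
  have hJJ3 : J2 * J2 ≤ J3 := by
    rw [Submodule.mul_le]
    intro a ha b hb
    refine ⟨hJ2.1 _ ha b, fun y hy => ?_⟩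
    rw [mul_assoc]
    exact hJz a ha _ (hJY b hb y hy)
  have hJ3f : Finite (C ⧸ J3) :=
    finite_quot_mono hJJ3 (finite_of_fi (sq_fi hJ2 (fi_of_finite hJ2f) hS2 hS2J hJS2.le))
  have hN3 : TS (N ⊓ J3) := H.hN.inf hJ3
  have hc3 : ∀ c : C, ∀ j ∈ J3, c * j - j * c ∈ N ⊓ J3 := by
    intro c j hj
    exact ⟨H.hc c j (hJ2J hj.1), sub_mem (hJ3.2 _ hj c) (hJ3.1 _ hj c)⟩
  have hY' : TS (Y2 ⊓ J3) := hY2.inf hJ3
  have hJ3Y : ∀ j ∈ J3, ∀ y ∈ Y2 ⊓ J3, j * y = 0 := fun j hj y hy => hj.2 y hy.1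
  have hYN3 : ∀ y ∈ Y2 ⊓ J3, ∀ n ∈ N ⊓ J3, y * n ∈ (zm : Submodule F C) :=
    fun y hy n hn => hYN y hy.1 n hn.1
  have hcnd : Cnd (Y2 ⊓ J3) (N ⊓ J3) ⊥ := by
    refine ⟨hY', hN3, ts_bot, ?_, ?_, ?_, ?_, ?_, ?_⟩
    · exact le_bot_mul3 fun x hx y hy z hz => by rw [hJ3Y x hx.2 y hy, zero_mul]
    · exact le_bot_mul3 fun x hx y hy z hz => by rw [mul_assoc, hJ3Y y hy.2 z hz, mul_zero]
    · exact le_bot_mul3 fun x hx y hy z hz => hzJ z hz.2.1 _ (hYN3 x hx y hy)
    · exact le_bot_mul3 fun x hx y hy z hz => by rw [mul_assoc, hJ3Y y hy.2 z hz, mul_zero]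
    · exact le_bot_mul3 fun x hx y hy z hz => by rw [hJ3Y x hx.2 y hy, zero_mul]
    · exact le_bot_mul3 fun x hx y hy z hz => by rw [hJ3Y x hx.2 y hy, zero_mul]
  let K' : Submodule F C :=
    { carrier := {a | ∀ x ∈ Y2 ⊓ J3, ∀ z ∈ N ⊓ J3, x * a * z = 0}
      add_mem' := by
        intro a b ha hb x hx z hz
        rw [mul_add, add_mul, ha x hx z hz, hb x hx z hz, add_zero]
      zero_mem' := by
        intro x _ z _
        rw [mul_zero, zero_mul]
      smul_mem' := by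
        intro r a ha x hx z hz
        rw [mul_smul_comm, smul_mul_assoc, ha x hx z hz, smul_zero] }
  have hK' : TS K' := by
    constructor
    · intro a ha b x hx z hz
      have := ha x hx (b * z) (hN3.2 _ hz b)
      rw [← this]
      noncomm_ring
    · intro a ha b x hx z hz
      have := ha (x * b) (hY'.1 _ hx b) z hz
      rw [← this]
      noncomm_ring
  have hNK : N ⊓ J3 ≤ K' := by
    intro n hn x hx z hz
    exact hzJ z hz.2.1 _ (hYN3 x hx n hn)
  have hwK : ∀ j ∈ J3, Polynomial.aeval j (c00 c) ∈ K' := by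
    intro j hj x hx z hz
    have h1 := H.hM (Y2 ⊓ J3) (N ⊓ J3) ⊥ hcnd x hx (H.hJB (hJ2J hx.2.1)) z hz (H.hNB hz.1) j
      (H.hJB (hJ2J hj.1))
    rw [LL_c00] at h1
    · exact (Submodule.mem_bot F).1 h1
    · intro k
      rw [← mul_assoc, hJ3Y j hj _ (hY'.1 _ hx _), zero_mul]
    · intro k
      exact hzJ j hj.1 _ (hYN3 _ (hY'.1 _ hx _) z hz)
  have hfiK : Fi K' := fi_K H.hG0 H.hgen hN3 hK' hJ3f hc3 hNK (c00 c) (c00_monic H.hcm) hwK
  obtain ⟨S', hS', hS'Y, hYS'⟩ := H.fg hY'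
  obtain ⟨P, hP, hPY⟩ := fin_bim (Y := Y2 ⊓ J3) (Y0 := (Y2 ⊓ J3) * K') hY' hS' hS'Y hYS'.le
    (fi_of_finite hJ3f) hfiK ((le_bot_mul hJ3Y).trans bot_le) le_rfl
  have hY'' : TS ((Y2 ⊓ J3) * K') := hY'.mul hK'
  obtain ⟨S'', hS'', hS''Y, hYS''⟩ := H.fg hY''
  have hfin : Finite ((Y2 ⊓ J3) * K' : Submodule F C) := by
    refine fit H.hG0 H.hgen H.hh H.hh0 hN3 hJ3f hc3 hY'' ?_ ?_ hS'' hS''Y hYS''.le
    · rw [← mul_assoc]
      exact le_bot_mul3 fun x hx y hy z hz => by rw [hJ3Y x hx.2 y hy, zero_mul]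
    · exact le_bot_mul3 fun x hx y hy z hz => hy x hx z hz
  exact finite_of_inf hJ3f (finite_of_span_sup hP hPY hfin)

theorem caseB [Finite F] {G0 : Set C} {B J N : Submodule F C} {h : C}
    {c : MvPolynomial (Fin 3) F} {K : ℕ} (H : Hyp F C G0 B J N h c K)
    {J2 Y2 : Submodule F C} (hJ2 : TS J2) (hJ2J : J2 ≤ J) (hJ2f : Finite (C ⧸ J2))
    (hJz : ∀ j ∈ J2, ∀ z ∈ (zm : Submodule F C), j * z = 0)
    (hzJ : ∀ j ∈ J2, ∀ z ∈ (zm : Submodule F C), z * j = 0)
    (hY2 : TS Y2) (hNY : ∀ y ∈ Y2, ∀ n ∈ N, n * y ∈ (zm : Submodule F C))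
    (hYJ : ∀ j ∈ J2, ∀ y ∈ Y2, y * j ∈ (zm : Submodule F C)) : Finite Y2 := by
  classical
  obtain ⟨S2, hS2, hS2J, hJS2⟩ := H.fg hJ2
  let J3 : Submodule F C :=
    { carrier := {a | a ∈ J2 ∧ ∀ y ∈ Y2, y * a = 0}
      add_mem' := by
        rintro a b ⟨ha, ha'⟩ ⟨hb, hb'⟩
        exact ⟨add_mem ha hb, fun y hy => by rw [mul_add, ha' y hy, hb' y hy, add_zero]⟩
      zero_mem' := ⟨zero_mem _, fun y _ => mul_zero y⟩
      smul_mem' := by
        rintro r a ⟨ha, ha'⟩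
        exact ⟨J2.smul_mem r ha, fun y hy => by rw [mul_smul_comm, ha' y hy, smul_zero]⟩ }
  have hJ3 : TS J3 := by
    constructor
    · rintro a ⟨ha, ha'⟩ b
      exact ⟨hJ2.1 _ ha b, fun y hy => by rw [← mul_assoc, ha' _ hy, zero_mul]⟩
    · rintro a ⟨ha, ha'⟩ b
      exact ⟨hJ2.2 _ ha b, fun y hy => by rw [← mul_assoc, ha' _ (hY2.1 _ hy b)]⟩
  have hJJ3 : J2 * J2 ≤ J3 := by
    rw [Submodule.mul_le]
    intro a ha b hb
    refine ⟨hJ2.1 _ ha b, fun y hy => ?_⟩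
    rw [← mul_assoc]
    exact hzJ b hb _ (hYJ a ha y hy)
  have hJ3f : Finite (C ⧸ J3) :=
    finite_quot_mono hJJ3 (finite_of_fi (sq_fi hJ2 (fi_of_finite hJ2f) hS2 hS2J hJS2.le))
  have hN3 : TS (N ⊓ J3) := H.hN.inf hJ3
  have hc3 : ∀ c : C, ∀ j ∈ J3, c * j - j * c ∈ N ⊓ J3 := by
    intro c j hj
    exact ⟨H.hc c j (hJ2J hj.1), sub_mem (hJ3.2 _ hj c) (hJ3.1 _ hj c)⟩
  have hY' : TS (Y2 ⊓ J3) := hY2.inf hJ3
  have hJ3Y : ∀ y ∈ Y2 ⊓ J3, ∀ j ∈ J3, y * j = 0 := fun y hy j hj => hj.2 y hy.1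
  have hYN3 : ∀ n ∈ N ⊓ J3, ∀ y ∈ Y2 ⊓ J3, n * y ∈ (zm : Submodule F C) :=
    fun n hn y hy => hNY y hy.1 n hn.1
  have hcnd : Cnd (N ⊓ J3) (Y2 ⊓ J3) ⊥ := by
    refine ⟨hN3, hY', ts_bot, ?_, ?_, ?_, ?_, ?_, ?_⟩
    · exact le_bot_mul3 fun x hx y hy z hz => by
        rw [mul_assoc]
        exact hJz x hx.2.1 _ (hYN3 y hy z hz)
    · exact le_bot_mul3 fun x hx y hy z hz => by rw [mul_assoc, hJ3Y y hy z hz.2, mul_zero]
    · exact le_bot_mul3 fun x hx y hy z hz => by rw [mul_assoc, hJ3Y y hy z hz.2, mul_zero]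
    · exact le_bot_mul3 fun x hx y hy z hz => by rw [hJ3Y x hx y hy.2, zero_mul]
    · exact le_bot_mul3 fun x hx y hy z hz => by rw [hJ3Y x hx y hy.2, zero_mul]
    · exact le_bot_mul3 fun x hx y hy z hz => by rw [hJ3Y x hx y hy.2, zero_mul]
  let K' : Submodule F C :=
    { carrier := {a | ∀ x ∈ N ⊓ J3, ∀ z ∈ Y2 ⊓ J3, x * a * z = 0}
      add_mem' := by
        intro a b ha hb x hx z hz
        rw [mul_add, add_mul, ha x hx z hz, hb x hx z hz, add_zero]
      zero_mem' := by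
        intro x _ z _
        rw [mul_zero, zero_mul]
      smul_mem' := by
        intro r a ha x hx z hz
        rw [mul_smul_comm, smul_mul_assoc, ha x hx z hz, smul_zero] }
  have hK' : TS K' := by
    constructor
    · intro a ha b x hx z hz
      have := ha x hx (b * z) (hY'.2 _ hz b)
      rw [← this]
      noncomm_ring
    · intro a ha b x hx z hz
      have := ha (x * b) (hN3.1 _ hx b) z hz
      rw [← this]
      noncomm_ring
  have hNK : N ⊓ J3 ≤ K' := by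
    intro n hn x hx z hz
    rw [mul_assoc]
    exact hJz x hx.2.1 _ (hYN3 n hn z hz)
  have hwK : ∀ j ∈ J3, Polynomial.aeval j (c00 c) ∈ K' := by
    intro j hj x hx z hz
    have h1 := H.hM (N ⊓ J3) (Y2 ⊓ J3) ⊥ hcnd x hx (H.hNB hx.1) z hz (H.hJB (hJ2J hz.2.1)) j
      (H.hJB (hJ2J hj.1))
    rw [LL_c00] at h1
    · exact (Submodule.mem_bot F).1 h1
    · intro k
      exact hJz j hj.1 _ (hYN3 _ (hN3.1 _ hx _) z hz)
    · intro k
      rw [mul_assoc, hJ3Y z hz j hj, mul_zero]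
  have hfiK : Fi K' := fi_K H.hG0 H.hgen hN3 hK' hJ3f hc3 hNK (c00 c) (c00_monic H.hcm) hwK
  obtain ⟨S', hS', hS'Y, hYS'⟩ := H.fg hY'
  obtain ⟨P, hP, hPY⟩ := fin_bim (Y := Y2 ⊓ J3) (Y0 := K' * (Y2 ⊓ J3)) hY' hS' hS'Y hYS'.le
    hfiK (fi_of_finite hJ3f) le_rfl ((le_bot_mul hJ3Y).trans bot_le)
  have hY'' : TS (K' * (Y2 ⊓ J3)) := hK'.mul hY'
  obtain ⟨S'', hS'', hS''Y, hYS''⟩ := H.fg hY''
  have hfin : Finite (K' * (Y2 ⊓ J3) : Submodule F C) := by
    refine fit H.hG0 H.hgen H.hh H.hh0 hN3 hJ3f hc3 hY'' ?_ ?_ hS'' hS''Y hYS''.le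
    · rw [← mul_assoc]
      exact le_bot_mul3 fun x hx y hy z hz => hy x hx z hz
    · exact le_bot_mul3 fun x hx y hy z hz => by
        rw [mul_assoc, hJ3Y y hy z hz.2, mul_zero]
  exact finite_of_inf hJ3f (finite_of_span_sup hP hPY hfin)

/-- a monolithic algebra which satisfies the standing hypotheses is finite -/
theorem Hyp.finite [Finite F] {G0 : Set C} {B J N : Submodule F C} {h : C}
    {c : MvPolynomial (Fin 3) F} {K : ℕ} (H : Hyp F C G0 B J N h c K) : Finite C := by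
  classical
  have hz := ts_zm (F := F) (C := C)
  obtain ⟨Sz, hSz, hSzz, hzS⟩ := H.fg hz
  haveI hzf : Finite (zm : Submodule F C) := finite_zm hSz hSzz hzS.le
  let f : C →ₗ[F] (↥(zm : Submodule F C) → (↥(zm : Submodule F C) × ↥(zm : Submodule F C))) :=
    { toFun := fun a z => (⟨a * z, hz.2 _ z.2 a⟩, ⟨z * a, hz.1 _ z.2 a⟩)
      map_add' := by
        intro a b
        funext z
        refine Prod.ext (Subtype.ext ?_) (Subtype.ext ?_)
        · exact add_mul a b _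
        · exact mul_add _ a b
      map_smul' := by
        intro r a
        funext z
        refine Prod.ext (Subtype.ext ?_) (Subtype.ext ?_)
        · exact smul_mul_assoc r a _
        · exact mul_smul_comm r _ a }
  have hker : ∀ a, a ∈ LinearMap.ker f ↔ ∀ z ∈ (zm : Submodule F C), a * z = 0 ∧ z * a = 0 := by
    intro a
    rw [LinearMap.mem_ker]
    constructor
    · intro h z hz'
      have h1 := congrFun h ⟨z, hz'⟩
      exact ⟨congrArg (fun p : ↥(zm : Submodule F C) × ↥(zm : Submodule F C) => (p.1 : C)) h1,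
        congrArg (fun p : ↥(zm : Submodule F C) × ↥(zm : Submodule F C) => (p.2 : C)) h1⟩
    · intro h
      funext z
      exact Prod.ext (Subtype.ext (h z z.2).1) (Subtype.ext (h z z.2).2)
  have hkts : TS (LinearMap.ker f) := by
    constructor
    · intro a ha b
      rw [hker] at ha ⊢
      intro z hz'
      exact ⟨by rw [mul_assoc, (ha _ (hz.2 _ hz' b)).1], by rw [← mul_assoc, (ha z hz').2, zero_mul]⟩
    · intro a ha b
      rw [hker] at ha ⊢
      intro z hz'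
      exact ⟨by rw [mul_assoc, (ha z hz').1, mul_zero], by rw [← mul_assoc, (ha _ (hz.1 _ hz' b)).2]⟩
  have hJ2 : TS (J ⊓ LinearMap.ker f) := H.hJ.inf hkts
  have hJ2f : Finite (C ⧸ (J ⊓ LinearMap.ker f)) := finite_quot_inf H.hfJ (finite_quot_ker f)
  have hJz : ∀ j ∈ J ⊓ LinearMap.ker f, ∀ z ∈ (zm : Submodule F C), j * z = 0 :=
    fun j hj z hz => ((hker j).1 hj.2 z hz).1
  have hzJ : ∀ j ∈ J ⊓ LinearMap.ker f, ∀ z ∈ (zm : Submodule F C), z * j = 0 :=
    fun j hj z hz => ((hker j).1 hj.2 z hz).2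
  let Y : Submodule F C :=
    { carrier := {b | ∀ n ∈ N, n * b ∈ (zm : Submodule F C) ∧ b * n ∈ (zm : Submodule F C)}
      add_mem' := by
        intro a b ha hb n hn
        rw [mul_add, add_mul]
        exact ⟨add_mem (ha n hn).1 (hb n hn).1, add_mem (ha n hn).2 (hb n hn).2⟩
      zero_mem' := by
        intro n _
        rw [mul_zero, zero_mul]
        exact ⟨zero_mem _, zero_mem _⟩
      smul_mem' := by
        intro r a ha n hn
        rw [mul_smul_comm, smul_mul_assoc]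
        exact ⟨zm.smul_mem r (ha n hn).1, zm.smul_mem r (ha n hn).2⟩ }
  have hY : TS Y := by
    constructor
    · intro a ha b n hn
      refine ⟨?_, ?_⟩
      · rw [← mul_assoc]
        exact hz.1 _ (ha n hn).1 b
      · rw [mul_assoc]
        exact (ha _ (H.hN.2 _ hn b)).2
    · intro a ha b n hn
      refine ⟨?_, ?_⟩
      · rw [← mul_assoc]
        exact (ha _ (H.hN.1 _ hn b)).1
      · rw [mul_assoc]
        exact hz.2 _ (ha n hn).2 b
  set J2 := J ⊓ LinearMap.ker f with hJ2def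
  -- `J2 * Y * J2` is killed by `N`
  have hY1 : TS (J2 * Y * J2) := (hJ2.mul hY).mul hJ2
  have hY1f : Finite (J2 * Y * J2 : Submodule F C) := by
    obtain ⟨S, hS, hSY, hYS⟩ := H.fg hY1
    refine fit H.hG0 H.hgen H.hh H.hh0 H.hN H.hfJ H.hc hY1 ?_ ?_ hS hSY hYS.le
    · rw [mul_assoc, ← mul_assoc]
      apply le_bot_mul
      intro a ha b hb
      refine Submodule.mul_induction_on (C := fun b => a * b = 0) hb ?_ ?_
      · intro y hy j hj
        rw [← mul_assoc]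
        apply hzJ j hj
        refine Submodule.mul_induction_on (C := fun a => a * y ∈ (zm : Submodule F C)) ha ?_ ?_
        · intro n hn j' hj'
          exact (hy _ (H.hN.1 _ hn j')).1
        · intro a b ha hb
          rw [add_mul]
          exact add_mem ha hb
      · intro b b' hb hb'
        rw [mul_add, hb, hb', add_zero]
    · rw [mul_assoc]
      apply le_bot_mul
      intro a ha b hb
      refine Submodule.mul_induction_on (C := fun a => a * b = 0) ha ?_ ?_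
      · intro j hj y hy
        rw [mul_assoc]
        apply hJz j hj
        refine Submodule.mul_induction_on (C := fun b => y * b ∈ (zm : Submodule F C)) hb ?_ ?_
        · intro j' hj' n hn
          exact (hy _ (H.hN.2 _ hn j')).2
        · intro a b ha hb
          rw [mul_add]
          exact add_mem ha hb
      · intro b b' hb hb'
        rw [add_mul, hb, hb', add_zero]
  have hY1z : J2 * Y * J2 ≤ zm := le_zm hY1 hY1f
  -- `Y * J2` is finite
  have hA : Finite (Y * J2 : Submodule F C) := by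
    refine caseA H hJ2 inf_le_left hJ2f hJz hzJ (hY.mul hJ2) ?_ ?_
    · intro y hy n hn
      have hle : Y * J2 ≤ Y := (mul_le_mul' le_rfl le_top).trans hY.mul_top
      have hy' : y ∈ Y := hle hy
      exact (hy' n hn).2
    · intro j hj y hy
      apply hY1z
      rw [mul_assoc]
      exact Submodule.mul_mem_mul hj hy
  have hAz : Y * J2 ≤ zm := le_zm (hY.mul hJ2) hA
  have hYf : Finite Y := by
    refine caseB H hJ2 inf_le_left hJ2f hJz hzJ hY ?_ ?_
    · intro y hy n hn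
      exact (hy n hn).1
    · intro j hj y hy
      exact hAz (Submodule.mul_mem_mul hy hj)
  have hYz : Y ≤ zm := le_zm hY hYf
  have hNz : ∀ i, i ≤ K → N ^ (K - i + 1) ≤ zm := by
    intro i
    induction i with
    | zero =>
      intro _
      rw [Nat.sub_zero, H.hK]
      exact bot_le
    | succ i ih =>
      intro hi
      have h1 := ih (by omega)
      have h2 : K - i = K - (i + 1) + 1 := by omega
      rw [h2] at h1
      refine le_trans ?_ hYz
      intro y hy n hn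
      refine ⟨h1 ?_, h1 ?_⟩
      · rw [pow_succ']
        exact Submodule.mul_mem_mul hn hy
      · rw [pow_succ]
        exact Submodule.mul_mem_mul hy hn
  have hN1 : N ≤ zm := by
    have := hNz K le_rfl
    rwa [Nat.sub_self, zero_add, pow_one] at this
  have htop : (⊤ : Submodule F C) ≤ Y := by
    intro c _ n hn
    exact ⟨hN1 (H.hN.1 _ hn c), hN1 (H.hN.2 _ hn c)⟩
  exact Finite.of_injective (fun c : C => (⟨c, htop trivial⟩ : Y)) (fun a b hab =>
    congrArg Subtype.val hab)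

end Pool.Agent.T2h8.AL
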