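import Mathlib

/-!
# Modules with finitely many commuting operators
-/

set_option autoImplicit false
set_option linter.style.haveILetI false

namespace Pool.Agent.T2h8.AL

variable {F : Type} [Field F] {M : Type} [AddCommGroup M] [Module F M]

open scoped IsMulCommutative in
theorem exists_ring (Φ : Set (Module.End F M)) (hfin : Φ.Finite)
    (hcomm : ∀ φ ∈ Φ, ∀ ψ ∈ Φ, φ * ψ = ψ * φ) :
    ∃ (R : Type) (_ : CommRing R) (_ : Algebra F R) (_ : Algebra.FiniteType F R)
      (_ : Module R M) (_ : IsScalarTower F R M),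
      (∀ φ ∈ Φ, ∃ r : R, ∀ m : M, r • m = φ m) ∧
      (∀ W : Submodule F M, (∀ φ ∈ Φ, ∀ w ∈ W, φ w ∈ W) → ∀ (r : R), ∀ w ∈ W, r • w ∈ W) ∧
      (∀ ω : Module.End F M, (∀ φ ∈ Φ, ∀ m, ω (φ m) = φ (ω m)) →
        ∀ (r : R) (m : M), ω (r • m) = r • ω m) := by
  have hc := Algebra.isMulCommutative_adjoin F hcomm
  have hft : Algebra.FiniteType F (Algebra.adjoin F Φ) := by
    rw [← Subalgebra.fg_iff_finiteType]
    exact Subalgebra.fg_def.2 ⟨Φ, hfin, rfl⟩
  refine ⟨↥(Algebra.adjoin F Φ), inferInstance, inferInstance, hft, inferInstance, inferInstance,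
    ?_, ?_, ?_⟩
  · intro φ hφ
    exact ⟨⟨φ, Algebra.subset_adjoin hφ⟩, fun m => rfl⟩
  · rintro W hW ⟨r, hr⟩ w hw
    change r w ∈ W
    induction hr using Algebra.adjoin_induction generalizing w with
    | mem x hx => exact hW x hx w hw
    | algebraMap a =>
      rw [Module.algebraMap_end_apply]
      exact W.smul_mem a hw
    | add x y _ _ hx hy => exact W.add_mem (hx w hw) (hy w hw)
    | mul x y _ _ hx hy => exact hx _ (hy w hw)
  · rintro ω hω ⟨r, hr⟩ m
    change ω (r m) = r (ω m)
    induction hr using Algebra.adjoin_induction generalizing m with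
    | mem x hx => exact hω x hx m
    | algebraMap a =>
      rw [Module.algebraMap_end_apply, Module.algebraMap_end_apply, map_smul]
    | add x y _ _ hx hy =>
      rw [LinearMap.add_apply, map_add, hx, hy, LinearMap.add_apply]
    | mul x y _ _ hx hy =>
      change ω (x (y m)) = x (y (ω m))
      rw [hx, hy]

/-- a module with finitely many commuting operators which is finitely generated is noetherian -/
theorem noeth_ops (Φ : Set (Module.End F M)) (hfin : Φ.Finite)
    (hcomm : ∀ φ ∈ Φ, ∀ ψ ∈ Φ, φ * ψ = ψ * φ) (S : Set M) (hS : S.Finite)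
    (hgen : ∀ W : Submodule F M, S ⊆ W → (∀ φ ∈ Φ, ∀ w ∈ W, φ w ∈ W) → W = ⊤)
    (W : Submodule F M) (hW : ∀ φ ∈ Φ, ∀ w ∈ W, φ w ∈ W) :
    ∃ S' : Set M, S'.Finite ∧ S' ⊆ W ∧
      ∀ W' : Submodule F M, S' ⊆ W' → (∀ φ ∈ Φ, ∀ w ∈ W', φ w ∈ W') → W ≤ W' := by
  obtain ⟨R, i1, i2, i3, i4, i5, h1, h2, -⟩ := exists_ring Φ hfin hcomm
  haveI : IsNoetherianRing R := Algebra.FiniteType.isNoetherianRing F R
  have hfg : Module.Finite R M := by
    refine ⟨⟨hS.toFinset, ?_⟩⟩
    rw [Set.Finite.coe_toFinset]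
    have h3 := hgen ((Submodule.span R S).restrictScalars F) Submodule.subset_span (by
      intro φ hφ w hw
      obtain ⟨r, hr⟩ := h1 φ hφ
      rw [← hr]
      exact (Submodule.span R S).smul_mem r hw)
    rw [eq_top_iff]
    intro x _
    have : x ∈ ((Submodule.span R S).restrictScalars F) := by rw [h3]; trivial
    exact this
  haveI : IsNoetherian R M := isNoetherian_of_isNoetherianRing_of_finite R M
  let WR : Submodule R M :=
    { carrier := W
      add_mem' := W.add_mem
      zero_mem' := W.zero_mem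
      smul_mem' := fun r w hw => h2 W hW r w hw }
  obtain ⟨S', hS'⟩ := IsNoetherian.noetherian WR
  refine ⟨S', S'.finite_toSet, ?_, ?_⟩
  · intro x hx
    have : x ∈ WR := by rw [← hS']; exact Submodule.subset_span hx
    exact this
  · intro W' hSW' hW'
    let WR' : Submodule R M :=
      { carrier := W'
        add_mem' := W'.add_mem
        zero_mem' := W'.zero_mem
        smul_mem' := fun r w hw => h2 W' hW' r w hw }
    have h3 : WR ≤ WR' := by
      rw [← hS', Submodule.span_le]
      exact hSW'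
    exact h3

/-- a finitely generated module with finitely many commuting operators, all of whose nonzero
submodules (stable under the operators and all operators that commute with them) contain a common
nonzero element, is finite -/
theorem finite_ops [Finite F] (Φ : Set (Module.End F M)) (hfin : Φ.Finite)
    (hcomm : ∀ φ ∈ Φ, ∀ ψ ∈ Φ, φ * ψ = ψ * φ) (S : Set M) (hS : S.Finite)
    (hgen : ∀ W : Submodule F M, S ⊆ W → (∀ φ ∈ Φ, ∀ w ∈ W, φ w ∈ W) → W = ⊤)
    (h : M) (hh0 : h ≠ 0)
    (hh : ∀ W : Submodule F M, (∀ φ ∈ Φ, ∀ w ∈ W, φ w ∈ W) →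
      (∀ ω : Module.End F M, (∀ φ ∈ Φ, ∀ m, ω (φ m) = φ (ω m)) → ∀ w ∈ W, ω w ∈ W) →
      W ≠ ⊥ → h ∈ W) :
    Finite M := by
  classical
  obtain ⟨R, i1, i2, i3, i4, i5, h1, h2, h2'⟩ := exists_ring Φ hfin hcomm
  haveI : IsNoetherianRing R := Algebra.FiniteType.isNoetherianRing F R
  have hfg : Module.Finite R M := by
    refine ⟨⟨hS.toFinset, ?_⟩⟩
    rw [Set.Finite.coe_toFinset]
    have h3 := hgen ((Submodule.span R S).restrictScalars F) Submodule.subset_span (by
      intro φ hφ w hw
      obtain ⟨r, hr⟩ := h1 φ hφ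
      rw [← hr]
      exact (Submodule.span R S).smul_mem r hw)
    rw [eq_top_iff]
    intro x _
    have : x ∈ ((Submodule.span R S).restrictScalars F) := by rw [h3]; trivial
    exact this
  -- the annihilator of `h`
  let A : Ideal R := LinearMap.ker (LinearMap.toSpanSingleton R M h)
  have hA : A ≠ ⊤ := by
    intro hA
    have : (1 : R) ∈ A := by rw [hA]; trivial
    rw [LinearMap.mem_ker, LinearMap.toSpanSingleton_apply, one_smul] at this
    exact hh0 this
  obtain ⟨𝔪, h𝔪, hA𝔪⟩ := Ideal.exists_le_maximal A hA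
  obtain ⟨n, hn⟩ : ∃ n, (𝔪 ^ n • ⊤ : Submodule R M) = ⊥ := by
    by_contra hcon
    push Not at hcon
    have h3 : h ∈ (⨅ i : ℕ, 𝔪 ^ i • ⊤ : Submodule R M) := by
      rw [Submodule.mem_iInf]
      intro i
      have h4 := hh ((𝔪 ^ i • ⊤ : Submodule R M).restrictScalars F) ?_ ?_ ?_
      · exact h4
      · intro φ hφ w hw
        obtain ⟨r, hr⟩ := h1 φ hφ
        rw [← hr]
        exact (𝔪 ^ i • ⊤ : Submodule R M).smul_mem r hw
      · intro ω hω w hw
        have hw' : w ∈ (𝔪 ^ i • ⊤ : Submodule R M) := hw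
        change ω w ∈ (𝔪 ^ i • ⊤ : Submodule R M)
        refine Submodule.smul_induction_on (p := fun w => ω w ∈ (𝔪 ^ i • ⊤ : Submodule R M))
          hw' ?_ ?_
        · intro r hr m _
          rw [h2' ω hω]
          exact Submodule.smul_mem_smul hr trivial
        · intro x y hx hy
          rw [map_add]
          exact Submodule.add_mem _ hx hy
      · intro h5
        apply hcon i
        rw [eq_bot_iff]
        intro x hx
        have : x ∈ ((𝔪 ^ i • ⊤ : Submodule R M).restrictScalars F) := hx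
        rw [h5] at this
        exact this
    rw [Ideal.mem_iInf_smul_pow_eq_bot_iff] at h3
    obtain ⟨⟨r, hr⟩, hrh⟩ := h3
    have h4 : 1 - r ∈ A := by
      rw [LinearMap.mem_ker, LinearMap.toSpanSingleton_apply, sub_smul, one_smul]
      change h - r • h = 0
      rw [sub_eq_zero]
      exact hrh.symm
    have h5 : (1 : R) ∈ 𝔪 := by
      have := 𝔪.add_mem (hA𝔪 h4) hr
      rwa [sub_add_cancel] at this
    exact h𝔪.ne_top ((Ideal.eq_top_iff_one _).2 h5)
  -- finiteness
  letI : Field (R ⧸ 𝔪) := Ideal.Quotient.field 𝔪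
  haveI : Algebra.FiniteType F (R ⧸ 𝔪) := inferInstance
  haveI : Module.Finite F (R ⧸ 𝔪) := finite_of_finite_type_of_isJacobsonRing F (R ⧸ 𝔪)
  haveI : Finite (R ⧸ 𝔪) := Module.finite_of_finite F
  haveI : Finite (R ⧸ 𝔪 ^ n) := Ideal.finite_quotient_pow (IsNoetherian.noetherian 𝔪) n
  obtain ⟨k, f, hf⟩ := Module.Finite.exists_fin' R M
  -- the map factors through the quotient
  let q : (Fin k → R ⧸ 𝔪 ^ n) → M := fun v => f (fun i => Quotient.out (v i))
  have hq : Function.Surjective q := by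
    intro m
    obtain ⟨v, rfl⟩ := hf m
    refine ⟨fun i => Ideal.Quotient.mk (𝔪 ^ n) (v i), ?_⟩
    have h3 : ∀ w : Fin k → R, (∀ i, w i ∈ 𝔪 ^ n) → f w = 0 := by
      intro w hw
      have e1 : w = ∑ i, w i • (Pi.single i (1 : R) : Fin k → R) := by
        ext j
        simp [Finset.sum_apply, Pi.single_apply]
      rw [e1, map_sum]
      apply Finset.sum_eq_zero
      intro i _
      rw [map_smul]
      have : w i • f (Pi.single i 1) ∈ (𝔪 ^ n • ⊤ : Submodule R M) :=
        Submodule.smul_mem_smul (hw i) trivial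
      rwa [hn, Submodule.mem_bot] at this
    have h4 := h3 ((fun i => Quotient.out (Ideal.Quotient.mk (𝔪 ^ n) (v i))) - v) (by
      intro i
      rw [Pi.sub_apply, ← Ideal.Quotient.eq]
      exact Quotient.out_eq' _)
    rw [map_sub, sub_eq_zero] at h4
    exact h4
  exact Finite.of_surjective q hq

end Pool.Agent.T2h8.AL
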