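import Pool.Agent.T2h8.AL.PI1

/-!
# Non-nilpotent elements are detected by finite simple modules
-/

set_option autoImplicit false
set_option linter.style.haveILetI false

namespace Pool.Agent.T2h8.AL

open Pool.Agent.H854R3.NE

/-- reduction to a finite field -/
theorem finite_redU {A : Type} [Ring A] {S₀ : Set A} (hS₀ : S₀.Finite)
    (hcl : Subring.closure S₀ = ⊤) {K : Type} [Field K]
    {s : ℕ} (Θ : A →+* Matrix (Fin s) (Fin s) K) (α : A) (hα : ∀ k, (Θ α) ^ k ≠ 0) :
    ∃ (L : Type) (_ : Field L) (_ : Finite L) (Θ' : A →+* Matrix (Fin s) (Fin s) L),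
      ∀ k, (Θ' α) ^ k ≠ 0 := by
  classical
  let gens : Set K := {k | ∃ a ∈ S₀, ∃ i j, k = Θ a i j}
  have hgfin : gens.Finite := by
    have : gens ⊆ ⋃ a ∈ S₀, (Set.range fun ij : Fin s × Fin s => Θ a ij.1 ij.2) := by
      rintro k ⟨a, ha, i, j, rfl⟩
      exact Set.mem_biUnion ha ⟨(i, j), rfl⟩
    exact (hS₀.biUnion fun a _ => Set.finite_range _).subset this
  let S := Algebra.adjoin ℤ gens
  have hft : Algebra.FiniteType ℤ S := by
    rw [← Subalgebra.fg_iff_finiteType]
    exact Subalgebra.fg_def.2 ⟨gens, hgfin, rfl⟩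
  have hent : ∀ a i j, Θ a i j ∈ S := by
    intro a
    have ha : a ∈ Subring.closure S₀ := by rw [hcl]; trivial
    induction ha using Subring.closure_induction with
    | mem a ha => intro i j; exact Algebra.subset_adjoin ⟨a, ha, i, j, rfl⟩
    | zero => intro i j; rw [map_zero]; exact zero_mem _
    | one =>
      intro i j
      rw [map_one, Matrix.one_apply]
      split_ifs
      · exact one_mem _
      · exact zero_mem _
    | add a b _ _ ha hb => intro i j; rw [map_add]; exact add_mem (ha i j) (hb i j)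
    | neg a _ ha => intro i j; rw [map_neg]; exact neg_mem (ha i j)
    | mul a b _ _ ha hb =>
      intro i j
      rw [map_mul, Matrix.mul_apply]
      exact sum_mem fun k _ => mul_mem (ha i k) (hb k j)
  let Θ₀ : A →+* Matrix (Fin s) (Fin s) S :=
    { toFun := fun a => Matrix.of fun i j => ⟨Θ a i j, hent a i j⟩
      map_one' := by
        ext i j
        simp only [map_one, Matrix.of_apply]
        rw [Matrix.one_apply, Matrix.one_apply]
        split_ifs <;> rfl
      map_mul' := by
        intro a b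
        ext i j
        have h1 : Θ (a * b) i j = ∑ k, Θ a i k * Θ b k j := by rw [map_mul, Matrix.mul_apply]
        rw [Matrix.mul_apply]
        simp only [Matrix.of_apply, AddSubmonoidClass.coe_finsetSum, MulMemClass.coe_mul]
        exact h1
      map_zero' := by
        ext i j
        simp
      map_add' := by
        intro a b
        ext i j
        simp }
  have hΘ₀ : (S.val : S →+* K).mapMatrix (Θ₀ α) = Θ α := by
    ext i j
    rfl
  have hne : (Θ₀ α) ^ s ≠ 0 := by
    intro h
    apply hα s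
    rw [← hΘ₀, ← map_pow, h, map_zero]
  obtain ⟨i, j, hij⟩ : ∃ i j, ((Θ₀ α) ^ s) i j ≠ 0 := by
    by_contra hcon
    push Not at hcon
    apply hne
    ext i j
    rw [hcon i j]
    rfl
  obtain ⟨L, iL, hL, f, hf⟩ := exists_residue S _ hij
  let Θ' : A →+* Matrix (Fin s) (Fin s) L := (f.mapMatrix).comp Θ₀
  refine ⟨L, iL, hL, Θ', ?_⟩
  intro k hk
  have h1 := matrix_nilp hk
  have h3 : f.mapMatrix ((Θ₀ α) ^ s) = 0 := by
    rw [map_pow]
    exact h1
  have h4 := congrFun (congrFun h3 i) j
  exact hf h4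

/-- an element which kills all finite simple modules acts nilpotently on finite modules -/
theorem nilp_on_finite {C : Type} [Ring C] (β : C)
    (h : ∀ (M : Type) [AddCommGroup M] [Module C M] [Finite M], IsSimpleModule C M →
      ∀ v : M, β • v = 0) : ∀ (n : ℕ) (V : Type) [AddCommGroup V] [Module C V] [Finite V],
      Nat.card V ≤ n → ∃ k, ∀ v : V, β ^ k • v = 0 := by
  intro n
  induction n with
  | zero =>
    intro V _ _ _ hV
    have := Nat.card_pos (α := V)
    omega
  | succ n ih =>
    intro V _ _ _ hV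
    by_cases hsub : Subsingleton V
    · exact ⟨0, fun v => Subsingleton.elim _ _⟩
    haveI : Nontrivial V := not_subsingleton_iff_nontrivial.1 hsub
    haveI : Finite (Submodule C V) := by
      exact Finite.of_injective (fun W : Submodule C V => (W : Set V)) SetLike.coe_injective
    obtain ⟨W, hW, -⟩ := (eq_bot_or_exists_atom_le (⊤ : Submodule C V)).resolve_left top_ne_bot
    have hWs : IsSimpleModule C W := isSimpleModule_iff_isAtom.2 hW
    have h1 : ∀ w ∈ W, β • w = 0 := by
      intro w hw
      have := h W hWs ⟨w, hw⟩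
      exact congrArg Subtype.val this
    haveI : Finite (V ⧸ W) := Finite.of_surjective _ (Submodule.mkQ_surjective W)
    have hcard : Nat.card (V ⧸ W) < Nat.card V := by
      have h2 := Submodule.card_eq_card_quotient_mul_card W
      have h3 : 1 < Nat.card W := by
        haveI : Nontrivial W := hWs.nontrivial
        exact Finite.one_lt_card
      have h4 : 0 < Nat.card (V ⧸ W) := Nat.card_pos
      rw [h2]
      nlinarith
    obtain ⟨k, hk⟩ := ih (V ⧸ W) (by omega)
    refine ⟨k + 1, fun v => ?_⟩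
    have h2 : β ^ k • v ∈ W := by
      have := hk (W.mkQ v)
      rwa [← map_smul, Submodule.mkQ_apply, Submodule.Quotient.mk_eq_zero] at this
    rw [pow_succ', mul_smul]
    exact h1 _ h2

/-- non-nilpotent elements are detected by finite simple modules -/
theorem nil_of_simple {C : Type} [Ring C] {S₀ : Set C} (hS₀ : S₀.Finite)
    (hcl : Subring.closure S₀ = ⊤) (I : Set C) (hI1 : ∀ x ∈ I, ∀ y, x * y ∈ I)
    (hI2 : ∀ x ∈ I, ∀ y, y * x ∈ I) {m : ℕ}
    (cc : Equiv.Perm (Fin m) → C) (π0 : Equiv.Perm (Fin m)) (h0 : cc π0 = 1)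
    (hid : IdOn I m cc) {β : C} (hβI : β ∈ I)
    (h : ∀ (M : Type) [AddCommGroup M] [Module C M] [Finite M], IsSimpleModule C M →
      ∀ v : M, β • v = 0) : ∃ k, β ^ k = 0 := by
  by_contra hcon
  push Not at hcon
  obtain ⟨K, iK, s, Θ, hΘ⟩ := exists_matrixR I hI1 hI2 cc π0 h0 hid hβI hcon
  obtain ⟨L, iL, hL, Θ', hΘ'⟩ := finite_redU hS₀ hcl Θ β hΘ
  letI : Module C (Fin s → L) := Module.compHom (Fin s → L)
    (((Matrix.toLinAlgEquiv' (R := L) (n := Fin s)).toRingEquiv.toRingHom).comp Θ')
  obtain ⟨k, hk⟩ := nilp_on_finite β h (Nat.card (Fin s → L)) (Fin s → L) le_rfl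
  apply hΘ' k
  apply (Matrix.toLinAlgEquiv' (R := L) (n := Fin s)).injective
  rw [map_zero]
  refine LinearMap.ext fun v => ?_
  have h1 := hk v
  change (Matrix.toLinAlgEquiv' (Θ' (β ^ k))) v = 0 at h1
  rw [map_pow] at h1
  exact h1

end Pool.Agent.T2h8.AL
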