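import Pool.Agent.T2h8.AL.PI2
import Pool.Agent.T2h8.AL.Rep

/-!
# Finite simple modules over algebras with a good identity
-/

set_option autoImplicit false
set_option linter.style.haveILetI false

namespace Pool.Agent.T2h8.AL

variable {F C : Type} [Field F] [Ring C] [Algebra F C]

/-- the field acts on modules over the algebra by endomorphisms -/
noncomputable def scal (F C M : Type) [Field F] [Ring C] [Algebra F C] [AddCommGroup M]
    [Module C M] : F →+* Module.End C M where
  toFun r :=
    { toFun := fun v => algebraMap F C r • v
      map_add' := fun v w => smul_add _ v w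
      map_smul' := fun c v => by
        simp only [RingHom.id_apply]
        rw [← mul_smul, ← mul_smul, Algebra.commutes] }
  map_one' := by ext v; simp
  map_mul' r s := by
    ext v
    change algebraMap F C (r * s) • v = algebraMap F C r • algebraMap F C s • v
    rw [map_mul, mul_smul]
  map_zero' := by ext v; simp
  map_add' r s := by ext v; simp [add_smul]

theorem scal_apply {M : Type} [AddCommGroup M] [Module C M] (r : F) (v : M) :
    scal F C M r v = algebraMap F C r • v := rfl

theorem simple_bound (B : Submodule F C) (hB1 : ∀ x ∈ B, ∀ y, x * y ∈ B)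
    (hB2 : ∀ x ∈ B, ∀ y, y * x ∈ B) (hcod : ∀ c : C, ∃ r : F, c - algebraMap F C r ∈ B)
    (g : FreeAlgebra F (Fin 3)) (hg : eps F g ≠ 0)
    (hsat : ∀ a : Fin 3 → C, (∀ i, a i ∈ B) → FreeAlgebra.lift F a g = 0)
    {m : ℕ} (cf : Equiv.Perm (Fin m) → F) (hc1 : cf 1 = 1)
    (hid : ∀ a : Fin m → C, (∀ i, a i ∈ B) →
      ∑ τ, cf τ • (List.ofFn fun k => a (τ k)).prod = 0) :
    ∃ N1 : ℕ, ∀ (M : Type) [AddCommGroup M] [Module C M] [Finite M], IsSimpleModule C M →
      (∀ (c c' : C) (v : M), (c * c') • v = (c' * c) • v) ∨ Nat.card M ≤ N1 := by
  classical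
  set N0 : ℕ := ∑ i : Fin 2, ∑ j : Fin 2, ∑ l : Fin 2, (rho F g i j).degreeOf l + 1 with hN0
  refine ⟨N0 ^ m, ?_⟩
  intro M _ _ _ hsimp
  by_cases hBM : ∀ b ∈ B, ∀ v : M, b • v = 0
  · left
    intro c c' v
    obtain ⟨r, hr⟩ := hcod c
    obtain ⟨r', hr'⟩ := hcod c'
    have h1 : ∀ w : M, c • w = algebraMap F C r • w := by
      intro w
      have := hBM _ hr w
      rwa [sub_smul, sub_eq_zero] at this
    have h2 : ∀ w : M, c' • w = algebraMap F C r' • w := by
      intro w
      have := hBM _ hr' w
      rwa [sub_smul, sub_eq_zero] at this
    rw [mul_smul, mul_smul, h2 v, h1, h1 v, h2, ← mul_smul, ← mul_smul, Algebra.commutes]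
  -- transitivity
  have htr : ∀ v w : M, v ≠ 0 → ∃ u ∈ B, u • v = w := by
    intro v w hv
    let W : Submodule C M :=
      { carrier := {w | ∃ u ∈ B, u • v = w}
        add_mem' := by
          rintro _ _ ⟨u, hu, rfl⟩ ⟨u', hu', rfl⟩
          exact ⟨u + u', add_mem hu hu', add_smul _ _ _⟩
        zero_mem' := ⟨0, zero_mem _, zero_smul _ _⟩
        smul_mem' := by
          rintro t _ ⟨u, hu, rfl⟩
          exact ⟨t * u, hB2 u hu t, mul_smul _ _ _⟩ }
    let W0 : Submodule C M :=
      { carrier := {w | ∀ u ∈ B, u • w = 0}
        add_mem' := by
          intro x y hx hy u hu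
          rw [smul_add, hx u hu, hy u hu, add_zero]
        zero_mem' := fun u _ => smul_zero _
        smul_mem' := by
          intro t x hx u hu
          rw [← mul_smul]
          exact hx _ (hB1 u hu t) }
    rcases eq_bot_or_eq_top W with h | h
    · exfalso
      have h1 : v ∈ W0 := by
        intro u hu
        have : u • v ∈ W := ⟨u, hu, rfl⟩
        rwa [h, Submodule.mem_bot] at this
      rcases eq_bot_or_eq_top W0 with h2 | h2
      · rw [h2, Submodule.mem_bot] at h1
        exact hv h1
      · apply hBM
        intro b hb w
        have : w ∈ W0 := by rw [h2]; trivial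
        exact this b hb
    · have : w ∈ W := by rw [h]; trivial
      exact this
  let Δ := Module.End C M
  letI iD : DivisionRing Δ := Module.End.instDivisionRing
  haveI hΔf : Finite Δ := Finite.of_injective (fun f : Δ => (f : M → M)) DFunLike.coe_injective
  letI iF : Field Δ := littleWedderburn Δ
  have hcomm : ∀ δ δ' : Δ, δ * δ' = δ' * δ := fun δ δ' => mul_comm δ δ'
  have hrank : Module.rank Δ M < ((m + 1 : ℕ) : Cardinal) := by
    refine rank_bound (fun π => algebraMap F C (cf π)) 1 (by rw [hc1, map_one]) (B : Set C)
      (fun u hu t => hB1 u hu t) htr ?_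
    intro a ha
    rw [← hid a ha]
    apply Finset.sum_congr rfl
    intro π _
    rw [Algebra.smul_def]
  haveI hfin : Module.Finite Δ M := finite_of_rank_lt hrank
  have hfr : Module.finrank Δ M ≤ m := by
    rw [← Module.finrank_eq_rank, Nat.cast_lt] at hrank
    omega
  by_cases hn : Module.finrank Δ M ≤ 1
  · left
    obtain ⟨v, hv⟩ := finrank_le_one_iff.1 hn
    intro c c' w
    obtain ⟨κ, rfl⟩ := hv w
    obtain ⟨δ, hδ⟩ := hv (c • v)
    obtain ⟨δ', hδ'⟩ := hv (c' • v)
    have h1 : ∀ (a : C) (η : Δ) (x : M), a • η • x = η • a • x := fun a η x => (η.map_smul a x).symm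
    rw [h1, h1]
    congr 1
    rw [mul_smul, mul_smul, ← hδ', ← hδ, h1, h1, ← hδ, ← hδ', ← mul_smul, ← mul_smul, hcomm]
  · right
    have hn2 : 2 ≤ Module.finrank Δ M := by omega
    -- cardinality of `Δ`
    have hcard : Nat.card Δ ≤ N0 := by
      by_contra hbig
      push Not at hbig
      let bs := Module.finBasis Δ M
      let v : Fin 2 → M := fun i => bs ⟨i, by omega⟩
      have hv : LinearIndependent Δ v := bs.linearIndependent.comp
        (fun i : Fin 2 => (⟨i, by omega⟩ : Fin (Module.finrank Δ M)))
        (fun i j h => Fin.ext (by simpa using h))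
      have hv0 : ∀ i, v i ≠ 0 := fun i => hv.ne_zero i
      -- elements of `B` with given action
      have hel : ∀ (i : Fin 2) (w : M), ∃ u ∈ B, ∀ j, u • v j = if j = i then w else 0 := by
        intro i w
        obtain ⟨u, hu, huw⟩ := htr (v i) w (hv0 i)
        obtain ⟨f, hf⟩ := LinearMap.exists_extend ((Module.Basis.span hv).constr ℤ
          (fun j => if j = i then v i else 0))
        have hf' : ∀ j, f (v j) = if j = i then v i else 0 := by
          intro j
          have h3 := congrArg (fun h => h (Module.Basis.span hv j)) hf
          simp only [LinearMap.comp_apply, Module.Basis.constr_basis] at h3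
          rw [← h3]
          congr 1
          simp [Module.Basis.span_apply]
        obtain ⟨r, hr⟩ := jacobson_density f (Finset.univ.image v)
        refine ⟨u * r, hB1 u hu r, fun j => ?_⟩
        rw [mul_smul, ← hr (v j) (Finset.mem_image_of_mem v (Finset.mem_univ j)), hf']
        by_cases hj : j = i
        · rw [if_pos hj, if_pos hj, huw]
        · rw [if_neg hj, if_neg hj, smul_zero]
      -- all entries vanish
      have hzero : ∀ s0 t0 : Δ, ∀ i j, MvPolynomial.eval₂ (scal F C M) ![s0, t0]
          (rho F g i j) = 0 := by
        intro s0 t0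
        obtain ⟨bx, hbx, hbx'⟩ := hel 1 (s0 • v 0)
        obtain ⟨by', hby, hby'⟩ := hel 1 (t0 • v 1)
        obtain ⟨bz, hbz, hbz'⟩ := hel 0 (v 1)
        let b : Fin 3 → C := ![bx, by', bz]
        have hb : ∀ i, b i ∈ B := by
          intro i
          fin_cases i
          · exact hbx
          · exact hby
          · exact hbz
        let E : MvPolynomial (Fin 2) F → Δ := MvPolynomial.eval₂ (scal F C M) ![s0, t0]
        have hEadd : ∀ p q, E (p + q) = E p + E q := fun p q => MvPolynomial.eval₂_add _ _
        have hEmul : ∀ p q, E (p * q) = E p * E q := fun p q => MvPolynomial.eval₂_mul _ _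
        have hE0 : E 0 = 0 := MvPolynomial.eval₂_zero _ _
        have hE1 : E 1 = 1 := MvPolynomial.eval₂_one _ _
        have hEX : ∀ i, E (MvPolynomial.X i) = ![s0, t0] i := fun i => MvPolynomial.eval₂_X _ _ i
        have hEC : ∀ r, E (MvPolynomial.C r) = scal F C M r := fun r => MvPolynomial.eval₂_C _ _ r
        have hcΔ : ∀ (a : C) (η : Δ) (x : M), a • η • x = η • a • x :=
          fun a η x => (η.map_smul a x).symm
        have key : ∀ h : FreeAlgebra F (Fin 3), ∀ j, (FreeAlgebra.lift F b h) • v j =
            ∑ i, E (rho F h i j) • v i := by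
          intro h
          induction h using FreeAlgebra.induction with
          | grade0 r =>
            intro j
            rw [AlgHom.commutes, AlgHom.commutes]
            have e1 : ∀ i, E ((algebraMap F (Matrix (Fin 2) (Fin 2) (MvPolynomial (Fin 2) F))) r i j)
                = if i = j then scal F C M r else 0 := by
              intro i
              rw [Matrix.algebraMap_matrix_apply]
              split_ifs with h
              · exact hEC r
              · exact hE0
            simp only [e1, ite_smul, zero_smul]
            rw [Finset.sum_ite_eq' Finset.univ j, if_pos (Finset.mem_univ _)]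
            rfl
          | grade1 x =>
            intro j
            rw [FreeAlgebra.lift_ι_apply]
            fin_cases x
            · change bx • v j = _
              rw [hbx']
              fin_cases j <;> simp [rho, Fin.sum_univ_succ, hE0, hEX]
            · change by' • v j = _
              rw [hby']
              fin_cases j <;> simp [rho, Fin.sum_univ_succ, hE0, hEX]
            · change bz • v j = _
              rw [hbz']
              fin_cases j <;> simp [rho, Fin.sum_univ_succ, hE0, hE1]
          | mul h h' ih ih' =>
            intro j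
            rw [map_mul, mul_smul, ih' j, Finset.smul_sum]
            have e1 : ∀ i, (FreeAlgebra.lift F b h) • E (rho F h' i j) • v i =
                ∑ l, (E (rho F h' i j) * E (rho F h l i)) • v l := by
              intro i
              rw [hcΔ, ih i, Finset.smul_sum]
              simp only [mul_smul]
            simp only [e1]
            rw [Finset.sum_comm]
            apply Finset.sum_congr rfl
            intro l _
            rw [← Finset.sum_smul, map_mul, Matrix.mul_apply]
            congr 1
            rw [Fin.sum_univ_two, Fin.sum_univ_two, hEadd, hEmul, hEmul]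
            rw [hcomm (E (rho F h' 0 j)), hcomm (E (rho F h' 1 j))]
          | add h h' ih ih' =>
            intro j
            rw [map_add, add_smul, ih j, ih' j, ← Finset.sum_add_distrib]
            apply Finset.sum_congr rfl
            intro i _
            rw [← add_smul, map_add, Matrix.add_apply, hEadd]
        intro i j
        have h1 := key g j
        rw [hsat b hb, zero_smul] at h1
        exact (linearIndependent_iff'.1 hv) Finset.univ _ h1.symm i (Finset.mem_univ i)
      -- a nonzero entry
      obtain ⟨i, j, hij⟩ : ∃ i j, rho F g i j ≠ 0 := by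
        by_contra hcon
        push Not at hcon
        exact rho_ne_zero hg (Matrix.ext fun i j => hcon i j)
      let σ : F →+* Δ := scal F C M
      have hP : (MvPolynomial.map σ (rho F g i j)) = 0 := by
        haveI := Fintype.ofFinite Δ
        apply MvPolynomial.eq_zero_of_eval_zero_at_prod_finset _ (fun _ => (Finset.univ : Finset Δ))
        · intro l
          rw [Finset.card_univ, ← Nat.card_eq_fintype_card]
          refine lt_of_le_of_lt ?_ hbig
          have h1 : (MvPolynomial.map σ (rho F g i j)).degreeOf l ≤ (rho F g i j).degreeOf l := by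
            rw [MvPolynomial.degreeOf_le_iff]
            intro mm hmm
            exact MvPolynomial.degreeOf_le_iff.1 le_rfl mm (MvPolynomial.support_map_subset _ _ hmm)
          have h2 : (rho F g i j).degreeOf l ≤ N0 := by
            rw [hN0]
            calc (rho F g i j).degreeOf l ≤ ∑ l : Fin 2, (rho F g i j).degreeOf l :=
                  Finset.single_le_sum (f := fun l => (rho F g i j).degreeOf l)
                    (fun _ _ => Nat.zero_le _) (Finset.mem_univ l)
              _ ≤ ∑ j : Fin 2, ∑ l : Fin 2, (rho F g i j).degreeOf l :=
                  Finset.single_le_sum (f := fun j => ∑ l : Fin 2, (rho F g i j).degreeOf l)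
                    (fun _ _ => Nat.zero_le _) (Finset.mem_univ j)
              _ ≤ ∑ i : Fin 2, ∑ j : Fin 2, ∑ l : Fin 2, (rho F g i j).degreeOf l :=
                  Finset.single_le_sum
                    (f := fun i => ∑ j : Fin 2, ∑ l : Fin 2, (rho F g i j).degreeOf l)
                    (fun _ _ => Nat.zero_le _) (Finset.mem_univ i)
              _ ≤ _ := Nat.le_succ _
          exact h1.trans h2
        · intro x _
          rw [MvPolynomial.eval_map]
          have h1 := hzero (x 0) (x 1) i j
          have h2 : x = ![x 0, x 1] := by
            ext l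
            fin_cases l <;> rfl
          rw [h2]
          exact h1
      apply hij
      have hσ : Function.Injective σ := RingHom.injective σ
      exact (MvPolynomial.map_injective σ hσ) (by rw [hP, map_zero])
    haveI : Module.Free Δ M := inferInstance
    rw [Module.natCard_eq_pow_finrank (K := Δ) (V := M)]
    have hpos : 0 < N0 := by rw [hN0]; omega
    calc Nat.card Δ ^ Module.finrank Δ M ≤ N0 ^ Module.finrank Δ M := Nat.pow_le_pow_left hcard _
      _ ≤ N0 ^ m := Nat.pow_le_pow_right hpos hfr

end Pool.Agent.T2h8.AL
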