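import Mathlib

/-!
# Shirshov's theorem, combinatorial part: the structure of words with few factors
-/

set_option autoImplicit false

namespace Pool.Agent.T2h8.AL

variable {α : Type}

/-- `v` contains fewer than `m` different factors of length `m` -/
def Poor (m : ℕ) (l : List α) : Prop :=
  ¬ ∃ f : Fin m → List α, Function.Injective f ∧ ∀ i, (f i).length = m ∧ (f i) <:+: l

/-- the factor of length `n` which starts at `a` -/
def fac (l : List α) (a n : ℕ) : List α := (l.drop a).take n

theorem fac_length (l : List α) (a n : ℕ) (h : a + n ≤ l.length) : (fac l a n).length = n := by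
  simp only [fac, List.length_take, List.length_drop]
  omega

theorem fac_infix (l : List α) (a n : ℕ) : fac l a n <:+: l := by
  refine ⟨l.take a, (l.drop a).drop n, ?_⟩
  unfold fac
  rw [List.append_assoc, List.take_append_drop, List.take_append_drop]

theorem fac_getD (l : List α) (a n t : ℕ) (d : α) (ht : t < n) :
    (fac l a n).getD t d = l.getD (a + t) d := by
  unfold fac
  simp only [List.getD_eq_getElem?_getD]
  rw [List.getElem?_take, if_pos ht, List.getElem?_drop]

theorem fac_eq_iff (l : List α) (a b n : ℕ) (d : α) (ha : a + n ≤ l.length)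
    (hb : b + n ≤ l.length) :
    fac l a n = fac l b n ↔ ∀ t, t < n → l.getD (a + t) d = l.getD (b + t) d := by
  constructor
  · intro h t ht
    rw [← fac_getD l a n t d ht, ← fac_getD l b n t d ht, h]
  · intro h
    apply List.ext_getElem
    · rw [fac_length l a n ha, fac_length l b n hb]
    · intro t h1 h2
      have h3 : t < n := by rw [fac_length l a n ha] at h1; exact h1
      have h4 := h t h3
      rw [← fac_getD l a n t d h3, ← fac_getD l b n t d h3] at h4
      rwa [List.getD_eq_getElem _ _ h1, List.getD_eq_getElem _ _ h2] at h4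

/-- A long word with few factors is periodic up to its ends. -/
theorem poor_periodic {m : ℕ} {l : List α} (hp : Poor m l) (hl : 2 * m ≤ l.length)
    (d : α) :
    ∃ i p : ℕ, i < m ∧ 0 < p ∧ p < m ∧ ∀ s, i ≤ s → s + p + m ≤ l.length →
      l.getD (s + p) d = l.getD s d := by
  classical
  -- two equal windows with minimal distance
  have h1 : ∃ p, ∃ i, 0 < p ∧ i + p < m ∧ fac l i m = fac l (i + p) m := by
    by_contra hcon
    push Not at hcon
    apply hp
    refine ⟨fun i => fac l i m, ?_, fun i => ⟨fac_length l i m (by omega), fac_infix _ _ _⟩⟩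
    intro i j hij
    by_contra hne
    rcases lt_or_gt_of_ne hne with h | h
    · refine hcon (j - i) i (by have : (i : ℕ) < j := h; omega) (by have := j.2; omega) ?_
      have : (i : ℕ) + (j - i) = j := by have : (i : ℕ) < j := h; omega
      rw [this]; exact hij
    · refine hcon (i - j) j (by have : (j : ℕ) < i := h; omega) (by have := i.2; omega) ?_
      have : (j : ℕ) + (i - j) = i := by have : (j : ℕ) < i := h; omega
      rw [this]; exact hij.symm
  obtain ⟨i, hp0, hip, hfac⟩ := Nat.find_spec h1
  set p := Nat.find h1 with hpdef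
  have hmin : ∀ q, 0 < q → q < p → ∀ j, j + q < m → fac l j m ≠ fac l (j + q) m := by
    intro q hq0 hqp j hj heq
    exact Nat.find_min h1 hqp ⟨j, hq0, hj, heq⟩
  have hfac' : ∀ t, t < m → l.getD (i + t) d = l.getD (i + p + t) d :=
    (fac_eq_iff l i (i + p) m d (by omega) (by omega)).1 hfac
  refine ⟨i, p, by omega, hp0, by omega, ?_⟩
  by_contra hcon
  push Not at hcon
  obtain ⟨e, ⟨hie, heℓ, hne⟩, hemin⟩ : ∃ e, (i ≤ e ∧ e + p + m ≤ l.length ∧
      l.getD (e + p) d ≠ l.getD e d) ∧ ∀ e', e' < e → ¬ (i ≤ e' ∧ e' + p + m ≤ l.length ∧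
      l.getD (e' + p) d ≠ l.getD e' d) := by
    have h2 : ∃ e, i ≤ e ∧ e + p + m ≤ l.length ∧ l.getD (e + p) d ≠ l.getD e d := hcon
    exact ⟨Nat.find h2, Nat.find_spec h2, fun e' he' => Nat.find_min h2 he'⟩
  have hper : ∀ s, i ≤ s → s < e → l.getD (s + p) d = l.getD s d := by
    intro s hs hse
    by_contra h
    exact hemin s hse ⟨hs, by omega, h⟩
  have hem : i + m ≤ e := by
    by_contra hlt
    push Not at hlt
    apply hne
    have := hfac' (e - i) (by omega)
    rw [show i + (e - i) = e by omega, show i + p + (e - i) = e + p by omega] at this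
    exact this.symm
  -- `E = e + p` is the first mismatch
  apply hp
  refine ⟨fun t => if (t : ℕ) < p then fac l (i + t) m else fac l (e + 1 + t - m) m, ?_, ?_⟩
  · -- injectivity
    have hA : ∀ a b : ℕ, a < b → b < p → fac l (i + a) m ≠ fac l (i + b) m := by
      intro a b hab hb h
      refine hmin (b - a) (by omega) (by omega) (i + a) (by omega) ?_
      rw [show i + a + (b - a) = i + b by omega]; exact h
    have hB : ∀ s, e + p + 1 ≤ s + m → s ≤ e → (∀ a, a + p < m → a < e - s →
        (fac l s m).getD (a + p) d = (fac l s m).getD a d) ∧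
        (fac l s m).getD (e - s + p) d ≠ (fac l s m).getD (e - s) d := by
      intro s hs1 hs2
      constructor
      · intro a ha1 ha2
        rw [fac_getD _ _ _ _ _ (by omega), fac_getD _ _ _ _ _ (by omega)]
        have := hper (s + a) (by omega) (by omega)
        rw [← add_assoc]; exact this
      · rw [fac_getD _ _ _ _ _ (by omega), fac_getD _ _ _ _ _ (by omega)]
        rw [show s + (e - s + p) = e + p by omega, show s + (e - s) = e by omega]
        exact hne
    have hAB : ∀ a s : ℕ, a < p → e + p + 1 ≤ s + m → s ≤ e →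
        fac l (i + a) m ≠ fac l s m := by
      intro a s ha hs1 hs2 h
      obtain ⟨-, h2⟩ := hB s hs1 hs2
      apply h2
      rw [← h, fac_getD _ _ _ _ _ (by omega), fac_getD _ _ _ _ _ (by omega)]
      have := hper (i + a + (e - s)) (by omega) (by omega)
      rw [← add_assoc]; exact this
    have hBB : ∀ s s' : ℕ, e + p + 1 ≤ s + m → s < s' → s' ≤ e → fac l s m ≠ fac l s' m := by
      intro s s' hs1 hss hs' h
      obtain ⟨h1, -⟩ := hB s hs1 (by omega)
      obtain ⟨-, h2⟩ := hB s' (by omega) hs'
      apply h2
      rw [← h]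
      exact h1 (e - s') (by omega) (by omega)
    intro a b hab
    simp only at hab
    by_contra hne'
    have hne'' : (a : ℕ) ≠ b := fun h => hne' (Fin.ext h)
    by_cases h1 : (a : ℕ) < p
    · by_cases h2 : (b : ℕ) < p
      · rw [if_pos h1, if_pos h2] at hab
        rcases lt_or_gt_of_ne hne'' with h | h
        · exact hA a b h h2 hab
        · exact hA b a h h1 hab.symm
      · rw [if_pos h1, if_neg h2] at hab
        exact hAB a (e + 1 + b - m) h1 (by omega) (by have := b.2; omega) hab
    · by_cases h2 : (b : ℕ) < p
      · rw [if_neg h1, if_pos h2] at hab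
        exact hAB b (e + 1 + a - m) h2 (by omega) (by have := a.2; omega) hab.symm
      · rw [if_neg h1, if_neg h2] at hab
        rcases lt_or_gt_of_ne hne'' with h | h
        · exact hBB (e + 1 + a - m) (e + 1 + b - m) (by omega) (by omega)
            (by have := b.2; omega) hab
        · exact hBB (e + 1 + b - m) (e + 1 + a - m) (by omega) (by omega)
            (by have := a.2; omega) hab.symm
  · intro t
    by_cases h1 : (t : ℕ) < p
    · simp only [if_pos h1]
      exact ⟨fac_length _ _ _ (by omega), fac_infix _ _ _⟩
    · simp only [if_neg h1]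
      exact ⟨fac_length _ _ _ (by have := t.2; omega), fac_infix _ _ _⟩

end Pool.Agent.T2h8.AL
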