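import Pool.Agent.T2h8.AL.Sh1

/-!
# Shirshov's theorem, combinatorial part: decomposition of words
-/

set_option autoImplicit false

namespace Pool.Agent.T2h8.AL

variable {α : Type}

theorem fac_add (l : List α) (a n n' : ℕ) : fac l a (n + n') = fac l a n ++ fac l (a + n) n' := by
  unfold fac
  rw [List.take_add, List.drop_drop]

theorem poor_pow {m : ℕ} {l : List α} (hp : Poor m l) (S : α → Bool) (e : ℕ)
    (hc : 2 * m + m * e + 1 ≤ l.countP S) :
    ∃ u : List α, u.length < m ∧ (∃ a ∈ u, S a = true) ∧ (List.replicate e u).flatten <:+: l := by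
  classical
  have hlen : l.countP S ≤ l.length := List.countP_le_length
  obtain ⟨d, hd⟩ : ∃ d, d ∈ l := by
    cases l with
    | nil => simp at hc
    | cons a t => exact ⟨a, by simp⟩
  obtain ⟨i, p, hi, hp0, hpm, hper⟩ := poor_periodic hp (by omega) d
  have hpe : p * e ≤ m * e := Nat.mul_le_mul_right e hpm.le
  -- split
  have hsplit : l = l.take i ++ fac l i (l.length - m - i) ++ l.drop (l.length - m) := by
    have h1 : l.drop (l.length - m) = (l.drop i).drop (l.length - m - i) := by
      rw [List.drop_drop]; congr 1; omega
    rw [h1, fac, List.append_assoc, List.take_append_drop, List.take_append_drop]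
  have hcount : l.countP S = (l.take i).countP S + (fac l i (l.length - m - i)).countP S +
      (l.drop (l.length - m)).countP S := by
    conv_lhs => rw [hsplit]
    rw [List.countP_append, List.countP_append]
  have hc1 : (l.take i).countP S ≤ i := le_trans List.countP_le_length (by simp)
  have hc2 : (l.drop (l.length - m)).countP S ≤ m := le_trans List.countP_le_length (by simp; omega)
  have hc3 : (fac l i (l.length - m - i)).countP S ≤ l.length - m - i :=
    le_trans List.countP_le_length (by rw [fac_length _ _ _ (by omega)])
  have hpos : 0 < (fac l i (l.length - m - i)).countP S := by omega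
  have hbig : p * e + 1 ≤ l.length - m - i := by omega
  -- powers
  have hpow : ∀ n, i + p * n + m ≤ l.length → (List.replicate n (fac l i p)).flatten =
      fac l i (p * n) := by
    intro n
    induction n with
    | zero => intro _; simp [fac]
    | succ n ih =>
      intro hn
      have hn' : i + p * n + m ≤ l.length := by
        have : p * (n + 1) = p * n + p := by ring
        omega
      rw [List.replicate_succ, List.flatten_cons, ih hn']
      have e1 : p * (n + 1) = p + p * n := by ring
      rw [e1, fac_add]
      congr 1
      have e2 : p * (n + 1) = p * n + p := by ring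
      rw [fac_eq_iff l i (i + p) (p * n) d (by omega) (by omega)]
      intro t ht
      rw [show i + p + t = (i + t) + p by omega]
      exact (hper (i + t) (by omega) (by omega)).symm
  refine ⟨fac l i p, by rw [fac_length _ _ _ (by omega)]; exact hpm, ?_, ?_⟩
  · obtain ⟨a, ha, hSa⟩ := List.countP_pos_iff.1 hpos
    obtain ⟨t, ht, hta⟩ := List.getElem_of_mem ha
    have htl : t < l.length - m - i := by rwa [fac_length _ _ _ (by omega)] at ht
    have hta' : l.getD (i + t) d = a := by
      rw [← fac_getD l i (l.length - m - i) t d htl, List.getD_eq_getElem _ _ ht, hta]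
    have hred : ∀ n t, t ≤ n → t < l.length - m - i → ∃ t', t' < p ∧
        l.getD (i + t') d = l.getD (i + t) d := by
      intro n
      induction n with
      | zero =>
        intro t ht _
        exact ⟨t, by omega, rfl⟩
      | succ n ih =>
        intro t htn htl
        by_cases h : t < p
        · exact ⟨t, h, rfl⟩
        · obtain ⟨t', h1, h2⟩ := ih (t - p) (by omega) (by omega)
          refine ⟨t', h1, ?_⟩
          rw [h2]
          have := hper (i + (t - p)) (by omega) (by omega)
          rw [show i + (t - p) + p = i + t by omega] at this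
          exact this.symm
    obtain ⟨t', ht', h1⟩ := hred t t le_rfl htl
    have hlt : t' < (fac l i p).length := by rw [fac_length _ _ _ (by omega)]; exact ht'
    refine ⟨(fac l i p)[t'], List.getElem_mem _, ?_⟩
    rw [← List.getD_eq_getElem _ d hlt, fac_getD _ _ _ _ _ ht', h1, hta']
    exact hSa
  · rw [hpow e (by omega)]
    exact fac_infix _ _ _

/-- `T` disjoint factors with many factors of length `m` -/
def HasRich (m : ℕ) : ℕ → List α → Prop
  | 0, _ => True
  | T + 1, v => ∃ x R y, v = x ++ R ++ y ∧ ¬ Poor m R ∧ HasRich m T y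

theorem decomp (m : ℕ) : ∀ (T : ℕ) (v : List α), HasRich m (T + 1) v ∨
    ∃ L : List (List α), L.length ≤ 2 * T + 1 ∧ v = L.flatten ∧
      ∀ u ∈ L, Poor m u ∨ u.length ≤ 1 := by
  classical
  intro T
  induction T with
  | zero =>
    intro v
    by_cases h : Poor m v
    · right
      exact ⟨[v], by simp, by simp, by simp [h]⟩
    · left
      exact ⟨[], v, [], by simp, h, trivial⟩
  | succ T ih =>
    intro v
    by_cases h : Poor m v
    · right
      exact ⟨[v], by simp, by simp, by simp [h]⟩
    · have hex : ∃ n, ¬ Poor m (v.take n) := ⟨v.length, by rwa [List.take_length]⟩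
      set n := Nat.find hex with hn
      have hn1 : ¬ Poor m (v.take n) := Nat.find_spec hex
      rcases ih (v.drop n) with h1 | ⟨L, h1, h2, h3⟩
      · left
        exact ⟨[], v.take n, v.drop n, by simp, hn1, h1⟩
      · right
        rcases Nat.eq_zero_or_pos n with h0 | h0
        · refine ⟨L, by omega, ?_, h3⟩
          rw [← h2, h0, List.drop_zero]
        · obtain ⟨n', hn'⟩ : ∃ n', n = n' + 1 := ⟨n - 1, by omega⟩
          have hp' : Poor m (v.take n') := by
            have := Nat.find_min hex (m := n') (by omega)
            push Not at this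
            exact this
          refine ⟨v.take n' :: (v.drop n').take 1 :: L, by simp; omega, ?_, ?_⟩
          · rw [List.flatten_cons, List.flatten_cons, ← h2]
            have e1 : v.drop n = (v.drop n').drop 1 := by rw [List.drop_drop, hn']
            rw [e1, List.take_append_drop, List.take_append_drop]
          · intro u hu
            rcases List.mem_cons.1 hu with rfl | hu
            · exact Or.inl hp'
            · rcases List.mem_cons.1 hu with rfl | hu
              · right
                rw [List.length_take]
                omega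
              · exact h3 u hu

/-- `T` disjoint factors which contain all words of `U` -/
def HasU (U : Set (List α)) : ℕ → List α → Prop
  | 0, _ => True
  | T + 1, v => ∃ x R y, v = x ++ R ++ y ∧ (∀ u ∈ U, u <:+: R) ∧ HasU U T y

theorem HasU.pre {U : Set (List α)} : ∀ (T : ℕ) (x y : List α), HasU U T y → HasU U T (x ++ y)
  | 0, _, _, _ => trivial
  | T + 1, x, y, ⟨x', R, y', h1, h2, h3⟩ =>
    ⟨x ++ x', R, y', by rw [h1]; simp, h2, h3⟩

theorem HasU.seq {U : Set (List α)} : ∀ (us : List (List α)) (v : List α), (∀ u ∈ us, u ∈ U) →
    HasU U us.length v → ∃ (x : List α) (xs : List (List α)), xs.length = us.length ∧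
      v = x ++ (List.zipWith (· ++ ·) us xs).flatten := by
  intro us
  induction us with
  | nil =>
    intro v _ _
    exact ⟨v, [], rfl, by simp⟩
  | cons u us ih =>
    intro v hu hv
    obtain ⟨x, R, y, h1, h2, h3⟩ := hv
    obtain ⟨x', xs, h4, h5⟩ := ih y (fun u' hu' => hu u' (by simp [hu'])) h3
    obtain ⟨p, q, hpq⟩ := h2 u (hu u (by simp))
    refine ⟨x ++ p, (q ++ x') :: xs, by simp [h4], ?_⟩
    rw [h1, h5, ← hpq]
    simp

/-- a word with very many rich factors has `m` disjoint factors with `m` common subwords -/
theorem rich_pigeon {m : ℕ} [Fintype α] [DecidableEq α] : ∀ (T : ℕ) (v : List α),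
    HasRich m T v →
    ∃ cnt : Finset (List.Vector α m) → ℕ, ∑ U, cnt U = T ∧
      ∀ U, (cnt U ≠ 0 → U.card = m) ∧ HasU {l | ∃ u ∈ U, l = u.toList} (cnt U) v := by
  intro T
  induction T with
  | zero =>
    intro v _
    exact ⟨fun _ => 0, by simp, fun U => ⟨fun h => absurd rfl h, trivial⟩⟩
  | succ T ih =>
    rintro v ⟨x, R, y, h1, h2, h3⟩
    obtain ⟨cnt, h4, h5⟩ := ih y h3
    unfold Poor at h2
    push Not at h2
    obtain ⟨f, hf1, hf2⟩ := h2
    let g : Fin m → List.Vector α m := fun i => ⟨f i, (hf2 i).1⟩
    have hg : Function.Injective g := fun i j h => hf1 (congrArg Subtype.val h)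
    let U0 : Finset (List.Vector α m) := Finset.univ.image g
    refine ⟨fun U => cnt U + if U = U0 then 1 else 0, ?_, ?_⟩
    · rw [Finset.sum_add_distrib, h4]
      simp
    · intro U
      by_cases hU : U = U0
      · subst hU
        simp only [if_true]
        refine ⟨fun _ => ?_, x, R, y, h1, ?_, (h5 U0).2⟩
        · rw [Finset.card_image_of_injective _ hg, Finset.card_univ, Fintype.card_fin]
        · rintro u ⟨w, hw, rfl⟩
          obtain ⟨i, -, rfl⟩ := Finset.mem_image.1 hw
          exact (hf2 i).2
      · simp only [if_neg hU, add_zero]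
        refine ⟨(h5 U).1, ?_⟩
        rw [h1]
        exact HasU.pre _ _ _ (h5 U).2

theorem rich_common {m : ℕ} [Fintype α] [DecidableEq α] {v : List α} {T : ℕ}
    (hT : Fintype.card (Finset (List.Vector α m)) * m < T) (h : HasRich m T v) :
    ∃ U : Finset (List.Vector α m), U.card = m ∧ HasU {l | ∃ u ∈ U, l = u.toList} m v := by
  obtain ⟨cnt, h1, h2⟩ := rich_pigeon T v h
  obtain ⟨U, hU⟩ : ∃ U, m < cnt U := by
    by_contra hcon
    push Not at hcon
    have : ∑ U, cnt U ≤ ∑ _U : Finset (List.Vector α m), m := Finset.sum_le_sum fun U _ => hcon U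
    rw [Finset.sum_const, Finset.card_univ, smul_eq_mul] at this
    omega
  refine ⟨U, (h2 U).1 (by omega), ?_⟩
  have hmono : ∀ t s (v : List α), HasU {l | ∃ u ∈ U, l = u.toList} (t + s) v →
      HasU {l | ∃ u ∈ U, l = u.toList} t v := by
    intro t
    induction t with
    | zero => intro _ _ _; trivial
    | succ t ih =>
      intro s v hv
      rw [show t + 1 + s = (t + s) + 1 by omega] at hv
      obtain ⟨x, R, y, e1, e2, e3⟩ := hv
      exact ⟨x, R, y, e1, e2, ih s y e3⟩
  obtain ⟨s, hs⟩ : ∃ s, cnt U = m + s := ⟨cnt U - m, by omega⟩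
  have := (h2 U).2
  rw [hs] at this
  exact hmono m s v this

end Pool.Agent.T2h8.AL
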